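import Pool.Agent.H524R2.Factor

/-! # The decomposition of the values of a machine on words `u(x) ++ mid ++ v(y)` -/

namespace Pool.Agent.H524R2

open Finset Function

section

variable {K A Q Γ : Type} [Fintype Q] [Fintype Γ] [CommSemiring K]

theorem tape_append_left {K A Q Γ : Type} (M : Machine K A Q Γ) (w v : List A) (i : ℤ) (hi : i < w.length) :
    M.tape (w ++ v) i = M.tape w i := by
  unfold Machine.tape
  split_ifs with h
  · rw [List.getElem?_append_left (by omega)]
  · rfl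

theorem tape_append_right {K A Q Γ : Type} (M : Machine K A Q Γ) (w v : List A) (i : ℤ) (hi : (w.length : ℤ) ≤ i) :
    M.tape (w ++ v) i = M.tape v (i - w.length) := by
  unfold Machine.tape
  rw [if_pos (by omega), if_pos (by omega), List.getElem?_append_right (by omega)]
  congr 2
  omega

/-- the predicate saying that the boundaries `g, …, g + j - 1` are crossed more than `ℓ` times -/
def okp (g : ℤ) (ℓ j : ℕ) (cnt : ℤ → ℕ) : Prop := ∀ i < j, ℓ < cnt (g + (i : ℕ))

theorem okp_congr (g : ℤ) (ℓ j : ℕ) (cnt cnt' : ℤ → ℕ) (h : ∀ i < g + (j : ℤ), cnt i = cnt' i) :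
    okp g ℓ j cnt ↔ okp g ℓ j cnt' := by
  unfold okp
  refine forall_congr' fun i => ?_
  refine imp_congr_right fun hi => ?_
  rw [h _ (by omega)]

omit [Fintype Q] [Fintype Γ] in
theorem sum_fin_eq (M : Machine K A Q Γ) (g : ℤ) (G ℓ T : ℕ) (hT : T < G * (ℓ + 1))
    (q : Q) (cnt : ℤ → ℕ) (hc : tot g G cnt ≤ T) [Decidable (q ∈ M.accepting)] :
    (if q ∈ M.accepting then (1 : K) else 0)
      = ∑ j ∈ range G, fin M (g + (j : ℕ)) ℓ (okp g ℓ j) q cnt := by
  classical
  have hex : ∃ j, j < G ∧ cnt (g + (j : ℕ)) ≤ ℓ := by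
    by_contra hcon
    push Not at hcon
    have : G * (ℓ + 1) ≤ tot g G cnt := by
      unfold tot
      calc G * (ℓ + 1) = ∑ _j ∈ range G, (ℓ + 1) := by simp
        _ ≤ _ := Finset.sum_le_sum fun j hj => hcon j (Finset.mem_range.1 hj)
    omega
  obtain ⟨j0, ⟨h1, h2⟩, hmin'⟩ : ∃ j, (j < G ∧ cnt (g + (j : ℕ)) ≤ ℓ) ∧
      ∀ i < j, ¬ (i < G ∧ cnt (g + (i : ℕ)) ≤ ℓ) :=
    ⟨Nat.find hex, Nat.find_spec hex, fun i hi => Nat.find_min hex hi⟩
  have hmin : ∀ i < j0, ℓ < cnt (g + (i : ℕ)) := by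
    intro i hi
    have := hmin' i hi
    push Not at this
    exact this (by omega)
  rw [Finset.sum_eq_single j0]
  · unfold fin
    have h3 : okp g ℓ j0 cnt := hmin
    have h4 : (q ∈ M.accepting ∧ cnt (g + (j0 : ℕ)) ≤ ℓ ∧ okp g ℓ j0 cnt) ↔ q ∈ M.accepting :=
      ⟨fun h => h.1, fun h => ⟨h, h2, h3⟩⟩
    by_cases h5 : q ∈ M.accepting
    · rw [if_pos h5, if_pos (h4.2 h5)]
    · rw [if_neg h5, if_neg (fun h => h5 h.1)]
  · intro j hj hne
    unfold fin
    rw [if_neg]
    rintro ⟨_, h3, h4⟩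
    rcases lt_or_gt_of_ne hne with h5 | h5
    · have := hmin j h5
      omega
    · have := h4 j0 h5
      omega
  · intro hn
    exact absurd (Finset.mem_range.2 h1) hn

/-- **Decomposition lemma.**  If all words `u x` have the same positive length and `mid` has length
`G ≥ 1`, then the matrix of the values of the machine on `u x ++ mid ++ v y` at time `T` is a sum of at most
`G (T + 1) (|Q| + 1) ^ (T / G)` products of a function of `x` and a function of `y`. -/
theorem decomp (M : Machine K A Q Γ) {X Y : Type} (g G T : ℕ) (hg : 1 ≤ g) (hG : 1 ≤ G)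
    (u : X → List A) (mid : List A) (v : Y → List A) (hu : ∀ x, (u x).length = g)
    (hmid : mid.length = G) :
    ∃ (ι : Type) (_ : Fintype ι) (α : ι → X → K) (β : ι → Y → K),
      Fintype.card ι ≤ G * (T + 1) * (Fintype.card Q + 1) ^ (T / G) ∧
      ∀ x y, M.run T (u x ++ mid ++ v y) = ∑ i, α i x * β i y := by
  classical
  set ℓ := T / G with hℓ
  let I : Finset (ℕ × List Q × (ℕ × ℕ)) := range G ×ˢ (lists Q ℓ ×ˢ antidiagonal T)
  let α : ℕ × List Q × (ℕ × ℕ) → X → K := fun i x =>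
    lft M ((g : ℤ) + (i.1 : ℕ)) (okp g ℓ i.1) i.2.2.1 i.2.1 M.start 0 (M.tape (u x ++ mid)) (fun _ => 0)
  let β : ℕ × List Q × (ℕ × ℕ) → Y → K := fun i y =>
    rgtW M ((g : ℤ) + (i.1 : ℕ)) i.2.2.2 i.2.1
      (fun z => if (g : ℤ) ≤ z then M.tape (mid ++ v y) (z - g) else M.blank)
  refine ⟨I, inferInstance, fun i => α i, fun i => β i, ?_, ?_⟩
  · have : Fintype.card I = G * ((lists Q ℓ).card * (T + 1)) := by
      rw [Fintype.card_coe]
      simp [I]
    rw [this]
    have h1 := card_lists_le (Q := Q) ℓ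
    calc G * ((lists Q ℓ).card * (T + 1)) ≤ G * ((Fintype.card Q + 1) ^ ℓ * (T + 1)) := by gcongr
      _ = _ := by ring
  · intro x y
    have e1 : M.run T (u x ++ mid ++ v y)
        = ∑ j ∈ range G, mval M (fin M ((g : ℤ) + (j : ℕ)) ℓ (okp g ℓ j)) T M.start 0
            (M.tape (u x ++ mid ++ v y)) (fun _ => 0) := by
      rw [← mval_sum, Machine.run, ← mval_eq_value M T _ _ _ (fun _ => 0)]
      refine mval_congr_tot g G M _ _ T ?_ T _ _ _ _ ?_
      · intro q cnt hc
        exact sum_fin_eq M g G ℓ T (Nat.lt_mul_div_succ T (by omega)) q cnt hc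
      · simp [tot]
    rw [e1]
    have e2 : ∑ i : I, α i x * β i y = ∑ i ∈ I, α i x * β i y :=
      Finset.sum_coe_sort I (fun i => α i x * β i y)
    rw [e2, Finset.sum_product]
    refine Finset.sum_congr rfl fun j hj => ?_
    have hj' := Finset.mem_range.1 hj
    rw [(factor M ((g : ℤ) + (j : ℕ)) ℓ (okp g ℓ j) (okp_congr g ℓ j) T).1 M.start 0 _ _ ℓ
      (by omega) (by simp), Finset.sum_product]
    refine Finset.sum_congr rfl fun c _ => ?_
    refine Finset.sum_congr rfl fun p _ => ?_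
    have hlen : (u x ++ mid).length = g + G := by rw [List.length_append, hu, hmid]
    congr 1
    · refine lft_congr M _ _ (okp_congr g ℓ j) _ _ _ _ _ _ _ _ (by omega) (fun i hi => ?_)
        fun i _ => rfl
      rw [tape_append_left]
      omega
    · refine rgtW_congr M _ _ _ _ _ fun i hi => ?_
      rw [if_pos (by omega), List.append_assoc, tape_append_right _ _ _ _ (by rw [hu]; omega), hu]

end

end Pool.Agent.H524R2
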