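import Pool.Agent.H524R2.OrDual

/-! # Characters of the Boolean cube and the dual polynomial for OR -/

namespace Pool.Agent.H524R2

open Finset Polynomial

section chi

variable {I : Type} [Fintype I]

/-- the character of the cube with frequency `a` -/
def chi (a z : I → Bool) : ℝ := ∏ i, (if a i && z i then (-1 : ℝ) else 1)

theorem chi_comm (a z : I → Bool) : chi a z = chi z a := by
  unfold chi
  refine Finset.prod_congr rfl fun i _ => ?_
  rw [Bool.and_comm]

theorem abs_chi (a z : I → Bool) : |chi a z| = 1 := by
  unfold chi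
  rw [Finset.abs_prod]
  refine Finset.prod_eq_one fun i _ => ?_
  split_ifs <;> simp

theorem chi_orth [DecidableEq I] (a a' : I → Bool) :
    ∑ z : I → Bool, chi a z * chi a' z = if a = a' then (2 : ℝ) ^ Fintype.card I else 0 := by
  unfold chi
  have h1 : ∀ z : I → Bool, (∏ i, (if a i && z i then (-1 : ℝ) else 1)) *
      (∏ i, (if a' i && z i then (-1 : ℝ) else 1))
      = ∏ i, ((if a i && z i then (-1 : ℝ) else 1) * (if a' i && z i then (-1 : ℝ) else 1)) := by
    intro z
    rw [Finset.prod_mul_distrib]
  simp_rw [h1]
  have h2 := Finset.prod_univ_sum (fun _ : I => (univ : Finset Bool))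
    (fun i b => (if a i && b then (-1 : ℝ) else 1) * (if a' i && b then (-1 : ℝ) else 1))
  rw [Fintype.piFinset_univ] at h2
  rw [← h2]
  split_ifs with h
  · subst h
    have : ∀ i, ∑ b : Bool, (if a i && b then (-1 : ℝ) else 1) * (if a i && b then (-1 : ℝ) else 1)
        = 2 := by
      intro i
      cases a i <;> norm_num
    rw [Finset.prod_congr rfl (fun i _ => this i)]
    simp
  · obtain ⟨i, hi⟩ : ∃ i, a i ≠ a' i := by
      by_contra hcon
      push Not at hcon
      exact h (funext hcon)
    refine Finset.prod_eq_zero (Finset.mem_univ i) ?_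
    cases h3 : a i <;> cases h4 : a' i <;> simp_all

end chi

/-- the weight of a point of the cube -/
def wt {k : ℕ} (z : Fin k → Bool) : ℕ := (univ.filter (fun i => z i = true)).card

theorem count_wt {k : ℕ} (B : Finset (Fin k)) (t : ℕ) :
    (univ.filter (fun z : Fin k → Bool => wt z = t ∧ ∀ i ∈ B, z i = true)).card
      = if B.card ≤ t then (k - B.card).choose (t - B.card) else 0 := by
  classical
  split_ifs with h
  · have h1 : (k - B.card).choose (t - B.card) = ((univ \ B).powersetCard (t - B.card)).card := by
      rw [Finset.card_powersetCard, Finset.card_sdiff_of_subset (Finset.subset_univ _), Finset.card_univ,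
        Fintype.card_fin]
    rw [h1]
    refine Finset.card_nbij' (fun z => univ.filter (fun i => z i = true) \ B)
      (fun S i => decide (i ∈ S ∪ B)) ?_ ?_ ?_ ?_
    · intro z hz
      have hz' := (Finset.mem_filter.1 hz).2
      have hB : B ⊆ univ.filter (fun i => z i = true) := by
        intro i hi
        exact Finset.mem_filter.2 ⟨Finset.mem_univ _, hz'.2 i hi⟩
      refine Finset.mem_powersetCard.2 ⟨?_, ?_⟩
      · exact Finset.sdiff_subset_sdiff (Finset.subset_univ _) le_rfl
      · rw [Finset.card_sdiff_of_subset hB]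
        have : (univ.filter (fun i => z i = true)).card = t := hz'.1
        rw [this]
    · intro S hS
      have hS' := Finset.mem_powersetCard.1 hS
      have hdis : Disjoint S B := by
        rw [Finset.disjoint_left]
        intro i hi hi'
        exact (Finset.mem_sdiff.1 (hS'.1 hi)).2 hi'
      refine Finset.mem_filter.2 ⟨Finset.mem_univ _, ?_, ?_⟩
      · unfold wt
        have : (univ.filter (fun i => decide (i ∈ S ∪ B) = true)) = S ∪ B := by
          ext i; simp
        rw [this, Finset.card_union_of_disjoint hdis, hS'.2]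
        omega
      · intro i hi
        simp [hi]
    · intro z hz
      have hz' := (Finset.mem_filter.1 hz).2
      funext i
      by_cases hi : i ∈ B
      · simp [hi, hz'.2 i hi]
      · simp [hi]
    · intro S hS
      have hS' := Finset.mem_powersetCard.1 hS
      ext i
      simp only [Finset.mem_sdiff, Finset.mem_filter, Finset.mem_univ, true_and, decide_eq_true_eq,
        Finset.mem_union]
      constructor
      · rintro ⟨h1 | h1, h2⟩
        · exact h1
        · exact absurd h1 h2
      · intro h1
        exact ⟨Or.inl h1, fun h2 => (Finset.mem_sdiff.1 (hS'.1 h1)).2 h2⟩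
  · rw [Finset.card_eq_zero, Finset.filter_eq_empty_iff]
    rintro z - ⟨h1, h2⟩
    apply h
    rw [← h1]
    exact Finset.card_le_card fun i hi => Finset.mem_filter.2 ⟨Finset.mem_univ _, h2 i hi⟩

/-- the product of the coordinates in `B` -/
def mono {k : ℕ} (B : Finset (Fin k)) (z : Fin k → Bool) : ℝ := ∏ i ∈ B, (if z i then (1 : ℝ) else 0)

theorem mono_eq {k : ℕ} (B : Finset (Fin k)) (z : Fin k → Bool) :
    mono B z = if ∀ i ∈ B, z i = true then 1 else 0 := by
  unfold mono
  split_ifs with h
  · exact Finset.prod_eq_one fun i hi => by simp [h i hi]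
  · push Not at h
    obtain ⟨i, hi, hz⟩ := h
    exact Finset.prod_eq_zero hi (by simp [hz])

theorem chi_eq_sum_mono {k : ℕ} (a z : Fin k → Bool) :
    chi a z = ∑ B ∈ (univ.filter (fun i => a i = true)).powerset, (-2 : ℝ) ^ B.card * mono B z := by
  unfold chi
  have h1 : ∏ i, (if a i && z i then (-1 : ℝ) else 1)
      = ∏ i ∈ univ.filter (fun i => a i = true), ((-2 : ℝ) * (if z i then (1 : ℝ) else 0) + 1) := by
    rw [Finset.prod_filter]
    refine Finset.prod_congr rfl fun i _ => ?_
    cases a i <;> cases z i <;> norm_num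
  rw [h1, Finset.prod_add]
  refine Finset.sum_congr rfl fun B _ => ?_
  rw [Finset.prod_mul_distrib, Finset.prod_const]
  simp [mono]

theorem level_sum {k : ℕ} (B : Finset (Fin k)) (t : ℕ) (ht : t ≤ k) :
    (∑ z : Fin k → Bool, (if wt z = t then (1 / (k.choose t) : ℝ) else 0) * mono B z)
      = (t.descFactorial B.card : ℝ) / k.descFactorial B.card := by
  have hB : B.card ≤ k := by
    have := Finset.card_le_univ B
    rwa [Fintype.card_fin] at this
  have h1 : ∀ z : Fin k → Bool, (if wt z = t then (1 / (k.choose t) : ℝ) else 0) * mono B z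
      = if wt z = t ∧ ∀ i ∈ B, z i = true then (1 / (k.choose t) : ℝ) else 0 := by
    intro z
    rw [mono_eq]
    by_cases h1 : wt z = t <;> by_cases h2 : ∀ i ∈ B, z i = true
    · rw [if_pos h1, if_pos h2, if_pos ⟨h1, h2⟩, mul_one]
    · rw [if_neg h2, mul_zero, if_neg (fun h => h2 h.2)]
    · rw [if_neg h1, zero_mul, if_neg (fun h => h1 h.1)]
    · rw [if_neg h1, zero_mul, if_neg (fun h => h1 h.1)]
  rw [Finset.sum_congr rfl (fun z _ => h1 z), ← Finset.sum_filter, Finset.sum_const, count_wt,
    nsmul_eq_mul]
  have hc : (0 : ℝ) < k.choose t := by exact_mod_cast Nat.choose_pos ht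
  have hd : (0 : ℝ) < k.descFactorial B.card := by
    exact_mod_cast Nat.pos_of_ne_zero (fun h => by
      rw [Nat.descFactorial_eq_zero_iff_lt] at h; omega)
  split_ifs with h
  · rw [mul_one_div, div_eq_div_iff hc.ne' hd.ne']
    have h2 := Nat.choose_mul (n := k) h
    rw [Nat.descFactorial_eq_factorial_mul_choose, Nat.descFactorial_eq_factorial_mul_choose]
    have h3 : (k - B.card).choose (t - B.card) * (B.card.factorial * k.choose B.card)
        = B.card.factorial * t.choose B.card * k.choose t := by
      calc _ = B.card.factorial * (k.choose B.card * (k - B.card).choose (t - B.card)) := by ring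
        _ = B.card.factorial * (k.choose t * t.choose B.card) := by rw [h2]
        _ = _ := by ring
    exact_mod_cast h3
  · rw [Nat.descFactorial_eq_zero_iff_lt.2 (by omega)]
    simp

/-- the sign of OR -/
def orSign {k : ℕ} (z : Fin k → Bool) : ℝ := if ∃ i, z i = true then 1 else -1

/-- **Dual polynomial for OR** on the cube. -/
theorem exists_dual (k m : ℕ) (hk1 : 1 ≤ k) (hk : 16 * m ^ 2 ≤ k) :
    ∃ ψ : (Fin k → Bool) → ℝ, ∑ z, |ψ z| ≤ 1 ∧ 4 / 5 ≤ ∑ z, ψ z * orSign z ∧
      ∀ a : Fin k → Bool, wt a ≤ m → ∑ z, ψ z * chi a z = 0 := by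
  classical
  obtain ⟨W, hW1, hW2, hW3⟩ := OrDual.exists_weights m
  have hnd : ∀ o ∈ OrDual.ix m, OrDual.nd o ≤ k := by
    intro o ho
    cases o with
    | none => exact hk1
    | some i =>
      have hi : i < m + 1 := by simpa [OrDual.ix] using ho
      show 16 * i ^ 2 ≤ k
      have : i ^ 2 ≤ m ^ 2 := Nat.pow_le_pow_left (by omega) 2
      omega
  let ψ : (Fin k → Bool) → ℝ := fun z => ∑ o ∈ OrDual.ix m,
    W o * (if wt z = OrDual.nd o then (1 / (k.choose (OrDual.nd o)) : ℝ) else 0)
  have hmono : ∀ B : Finset (Fin k), B.card ≤ m → ∑ z, ψ z * mono B z = 0 := by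
    intro B hB
    have h1 : ∑ z, ψ z * mono B z = ∑ o ∈ OrDual.ix m, W o *
        ∑ z : Fin k → Bool, (if wt z = OrDual.nd o then (1 / (k.choose (OrDual.nd o)) : ℝ) else 0) * mono B z := by
      simp only [ψ, Finset.sum_mul, Finset.mul_sum]
      rw [Finset.sum_comm]
      refine Finset.sum_congr rfl fun o _ => Finset.sum_congr rfl fun z _ => ?_
      ring
    rw [h1]
    have h2 : ∀ o ∈ OrDual.ix m, W o *
        ∑ z : Fin k → Bool, (if wt z = OrDual.nd o then (1 / (k.choose (OrDual.nd o)) : ℝ) else 0) * mono B z
        = (1 / (k.descFactorial B.card : ℝ)) *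
          (W o * (descPochhammer ℝ B.card).eval (OrDual.nd o : ℝ)) := by
      intro o ho
      rw [level_sum B _ (hnd o ho), descPochhammer_eval_eq_descFactorial]
      ring
    rw [Finset.sum_congr rfl h2, ← Finset.mul_sum, hW3 _ (by rw [descPochhammer_natDegree]; exact hB),
      mul_zero]
  have hchi : ∀ a : Fin k → Bool, wt a ≤ m → ∑ z, ψ z * chi a z = 0 := by
    intro a ha
    have h1 : ∑ z, ψ z * chi a z = ∑ B ∈ (univ.filter (fun i => a i = true)).powerset,
        (-2 : ℝ) ^ B.card * ∑ z, ψ z * mono B z := by
      simp only [chi_eq_sum_mono, Finset.mul_sum]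
      rw [Finset.sum_comm]
      refine Finset.sum_congr rfl fun B _ => Finset.sum_congr rfl fun z _ => ?_
      ring
    rw [h1]
    refine Finset.sum_eq_zero fun B hB => ?_
    rw [hmono B ((Finset.card_le_card (Finset.mem_powerset.1 hB)).trans ha), mul_zero]
  refine ⟨ψ, ?_, ?_, hchi⟩
  · calc ∑ z, |ψ z| ≤ ∑ z, ∑ o ∈ OrDual.ix m,
          |W o| * (if wt z = OrDual.nd o then (1 / (k.choose (OrDual.nd o)) : ℝ) else 0) := by
          refine Finset.sum_le_sum fun z _ => (Finset.abs_sum_le_sum_abs _ _).trans ?_
          refine Finset.sum_le_sum fun o _ => ?_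
          rw [abs_mul]
          refine mul_le_mul_of_nonneg_left (le_of_eq ?_) (abs_nonneg _)
          split_ifs
          · exact abs_of_nonneg (by positivity)
          · exact abs_zero
      _ = ∑ o ∈ OrDual.ix m, |W o| * ∑ z : Fin k → Bool,
          (if wt z = OrDual.nd o then (1 / (k.choose (OrDual.nd o)) : ℝ) else 0) := by
          rw [Finset.sum_comm]
          refine Finset.sum_congr rfl fun o _ => ?_
          rw [Finset.mul_sum]
      _ = ∑ o ∈ OrDual.ix m, |W o| := by
          refine Finset.sum_congr rfl fun o ho => ?_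
          have := level_sum (∅ : Finset (Fin k)) (OrDual.nd o) (hnd o ho)
          simp only [mono, Finset.prod_empty, mul_one, Finset.card_empty, Nat.descFactorial_zero,
            Nat.cast_one, div_one] at this
          rw [this, mul_one]
      _ ≤ 1 := hW1.le
  · have h0 : ∑ z, ψ z = 0 := by
      have := hmono ∅ (Nat.zero_le _)
      simpa [mono] using this
    have h1 : ∀ z : Fin k → Bool, ψ z * orSign z = ψ z - 2 * (if z = (fun _ => false) then ψ z else 0) := by
      intro z
      unfold orSign
      by_cases hz : z = fun _ => false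
      · rw [if_neg, if_pos hz]
        · ring
        · rintro ⟨i, hi⟩
          rw [hz] at hi
          exact absurd hi (by simp)
      · rw [if_pos, if_neg hz]
        · ring
        · by_contra hcon
          push Not at hcon
          exact hz (funext fun i => by simpa using hcon i)
    rw [Finset.sum_congr rfl (fun z _ => h1 z), Finset.sum_sub_distrib, h0, ← Finset.mul_sum,
      Finset.sum_ite_eq' univ (fun _ => false) ψ, if_pos (Finset.mem_univ _)]
    have h2 : ψ (fun _ => false) = W (some 0) := by
      simp only [ψ]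
      rw [Finset.sum_eq_single (some 0)]
      · have hw : wt (fun _ : Fin k => false) = 0 := by simp [wt]
        rw [if_pos (by rw [hw]; rfl)]
        simp [OrDual.nd]
      · intro o _ ho
        rw [if_neg, mul_zero]
        intro h
        apply ho
        apply OrDual.nd_inj
        rw [← h]
        simp [wt, OrDual.nd]
      · intro h
        exact absurd (by simp [OrDual.ix]) h
    rw [h2]
    linarith

end Pool.Agent.H524R2
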