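import Mathlib

/-! # One-tape machines with weighted transitions, and Boolean expressions

This file contains only definitions.

* `Machine K A Q Γ`: a machine with a single tape, infinite in both directions, on which the input is
  written; `Q` is the finite set of states, `Γ` the finite tape alphabet and `K` the set of weights.
* `Machine.run M t w`: the total weight of the accepting computations of `t` steps on the input `w`.
* `Formula`: Boolean expressions built from `x₁, x₂, …` with `∧`, `∨`, `¬`; `Formula.encode` writes them
  as words over an alphabet of eight letters, with parentheses and with the indices of the variables in binary.
-/

namespace Pool.Agent.H524R2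

open Finset Function

/-! ## Machines -/

/-- The three moves of the head of a one-tape machine. -/
inductive Move
  | left
  | stay
  | right
  deriving DecidableEq

instance : Fintype Move where
  elems := {Move.left, Move.stay, Move.right}
  complete := by intro x; cases x <;> decide

/-- The displacement of the head caused by a move. -/
def Move.delta : Move → ℤ
  | .left => -1
  | .stay => 0
  | .right => 1

/-- A one-tape machine with weighted transitions.  `K` is the set of weights, `A` the input
alphabet, `Q` the set of states and `Γ` the tape alphabet.  The tape is infinite in both directions.
`weight q a (q', a', d)` is the weight of the transition which, in state `q` and reading `a`, writes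
`a'`, moves the head by `d` and enters state `q'`.

A deterministic machine has weights `0` and `1`, with exactly one `1` for each pair `(q, a)`;
the weights of a probabilistic machine are the probabilities of its transitions. -/
structure Machine (K A Q Γ : Type) where
  /-- initial state -/
  start : Q
  /-- accepting states -/
  accepting : Set Q
  /-- blank symbol -/
  blank : Γ
  /-- how an input symbol is written on the tape -/
  input : A → Γ
  /-- weights of the transitions -/
  weight : Q → Γ → Q × Γ × Move → K

namespace Machine

variable {K A Q Γ : Type} [Fintype Q] [Fintype Γ]

/-- The initial tape: the input word in the cells `0, 1, …, |w| - 1`, blanks elsewhere. -/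
def tape (M : Machine K A Q Γ) (w : List A) (i : ℤ) : Γ :=
  if 0 ≤ i then (w[i.toNat]?).elim M.blank M.input else M.blank

open Classical in
/-- The total weight of the computations of exactly `t` steps from the configuration
(state `q`, head position `h`, tape `τ`) which end in an accepting state; the weight of a
computation is the product of the weights of its transitions. -/
noncomputable def value [CommSemiring K] (M : Machine K A Q Γ) : ℕ → Q → ℤ → (ℤ → Γ) → K
  | 0, q, _, _ => if q ∈ M.accepting then 1 else 0
  | t + 1, q, h, τ => ∑ o : Q × Γ × Move,
      M.weight q (τ h) o * M.value t o.1 (h + o.2.2.delta) (update τ h o.2.1)

/-- The total weight of the accepting computations of exactly `t` steps on the input word `w`; the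
head starts on the first letter of `w`.  For a probabilistic machine this is the probability that the
machine is in an accepting state after `t` steps. -/
noncomputable def run [CommSemiring K] (M : Machine K A Q Γ) (t : ℕ) (w : List A) : K :=
  M.value t M.start 0 (M.tape w)

end Machine

/-! ## Boolean expressions -/

/-- The eight letters used to write Boolean expressions. -/
inductive Sym
  | x
  | zero
  | one
  | and
  | or
  | not
  | lpar
  | rpar
  deriving DecidableEq

/-- Boolean expressions over the variables `x₁, x₂, …`; `var i` is the variable `x_{i+1}`. -/
inductive Formula
  | var (i : ℕ)
  | not (φ : Formula)
  | and (φ ψ : Formula)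
  | or (φ ψ : Formula)

/-- The truth value of an expression under an assignment. -/
def Formula.eval (v : ℕ → Bool) : Formula → Bool
  | .var i => v i
  | .not φ => !(φ.eval v)
  | .and φ ψ => φ.eval v && ψ.eval v
  | .or φ ψ => φ.eval v || ψ.eval v

/-- An expression is satisfiable if some assignment makes it true. -/
def Formula.Satisfiable (φ : Formula) : Prop := ∃ v : ℕ → Bool, φ.eval v = true

/-- The binary representation of a number (most significant digit first, no leading zeros). -/
def bin (n : ℕ) : List Sym := (n.bits.reverse).map (fun b => if b then Sym.one else Sym.zero)

/-- The word which encodes an expression: variables are written as `x` followed by the index in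
binary, conjunctions and disjunctions are put in parentheses. -/
def Formula.encode : Formula → List Sym
  | .var i => Sym.x :: bin (i + 1)
  | .not φ => Sym.not :: φ.encode
  | .and φ ψ => Sym.lpar :: (φ.encode ++ Sym.and :: (ψ.encode ++ [Sym.rpar]))
  | .or φ ψ => Sym.lpar :: (φ.encode ++ Sym.or :: (ψ.encode ++ [Sym.rpar]))

end Pool.Agent.H524R2
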