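import Pool.Agent.H524R2.Quantum2

/-! # The decomposition of the acceptance probabilities of a quantum machine -/

namespace Pool.Agent.H524R2.QM

open Finset Function Pool.Agent.H524R2 Polynomial G2

section

variable {A Q Γ : Type} [Fintype Q] [Fintype Γ]

theorem gval_fwd_succ (M : Machine ℂ A Q Γ) (τ₀ : ℤ → Γ) (t : ℕ) (q : Q) (h : ℤ)
    (τ : ℤ → Γ) [Decidable (q ∈ M.accepting)] :
    gval (loop M) (lΦ M τ₀) (t + 1) (Sum.inl q) h τ
      = X * ∑ o : Q × Γ × Move, C (M.weight q (τ h) o) *
          gval (loop M) (lΦ M τ₀) t (Sum.inl o.1) (h + o.2.2.delta) (update τ h o.2.1)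
        + if q ∈ M.accepting then back M τ₀ t q h τ else 0 := by
  classical
  rw [gval, Fintype.sum_prod_type, Fintype.sum_sum_type]
  congr 1
  · rw [Finset.mul_sum, Fintype.sum_prod_type]
    refine Finset.sum_congr rfl fun q' _ => Finset.sum_congr rfl fun y _ => ?_
    simp only [loop]
    ring
  · rw [Fintype.sum_prod_type, Finset.sum_eq_single q]
    · have h2 : ∀ d : Move, ∑ y : Γ × Move, (loop M).weight (Sum.inl q) (τ h) (Sum.inr (q, d), y) *
          gval (loop M) (lΦ M τ₀) t (Sum.inr (q, d)) (h + y.2.delta) (update τ h y.1)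
          = if q ∈ M.accepting then gval (loop M) (lΦ M τ₀) t (Sum.inr (q, d)) (h - d.delta) τ
            else 0 := by
        intro d
        rw [Finset.sum_eq_single (τ h, rev d)]
        · by_cases hq : q ∈ M.accepting
          · simp only [loop, hq, and_self, if_true, one_mul, delta_rev, update_eq_self]
            rw [sub_eq_add_neg]
          · simp [loop, hq]
        · intro y _ hy
          have : ¬ (y.1 = τ h ∧ y.2 = rev d) := fun hh => hy (Prod.ext hh.1 hh.2)
          simp only [loop]
          rw [if_neg (fun hh => this ⟨hh.2.2.1, hh.2.2.2⟩), zero_mul]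
        · simp
      rw [Finset.sum_congr rfl (fun d _ => h2 d)]
      by_cases hq : q ∈ M.accepting
      · simp [hq, back]
      · simp [hq]
    · intro q' _ hq'
      refine Finset.sum_eq_zero fun d _ => Finset.sum_eq_zero fun y _ => ?_
      simp only [loop]
      rw [if_neg (fun hh => hq' hh.1), zero_mul]
    · simp

open Classical in
theorem coeff_fwd (M : Machine ℂ A Q Γ) (w : List A) (t' j : ℕ) (q : Q) (h : ℤ)
    (τ : ℤ → Γ) :
    (gval (loop M) (lΦ M (M.tape w)) (j + 1 + t') (Sum.inl q) h τ).coeff j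
      = gval M (fun q h τ => if q ∈ M.accepting then starRingEnd ℂ (amp M w t' ⟨q, h, τ⟩) else 0)
          j q h τ := by
  induction j generalizing q h τ with
  | zero =>
    rw [show 0 + 1 + t' = t' + 1 by ring, gval_fwd_succ]
    simp only [gval, Polynomial.coeff_add, Polynomial.mul_coeff_zero, Polynomial.coeff_X_zero,
      zero_mul, zero_add]
    split_ifs with hq
    · rw [back_eq, Polynomial.coeff_C_zero]
    · simp
  | succ j ih =>
    rw [show j + 1 + 1 + t' = (j + 1 + t') + 1 by ring, gval_fwd_succ, gval]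
    rw [Polynomial.coeff_add, Polynomial.coeff_X_mul, Polynomial.finsetSum_coeff]
    have h0 : (if q ∈ M.accepting then back M (M.tape w) (j + 1 + t') q h τ else 0).coeff (j + 1)
        = 0 := by
      split_ifs
      · rw [back_eq, Polynomial.coeff_C_succ]
      · simp
    rw [h0, add_zero]
    refine Finset.sum_congr rfl fun o _ => ?_
    rw [Polynomial.coeff_C_mul, ih]

theorem acceptProb_eq (M : Machine ℂ A Q Γ) (w : List A) (T : ℕ) :
    (M.acceptProb T w : ℂ)
      = (gval (loop M) (lΦ M (M.tape w)) (2 * T + 1) (loop M).start 0 (M.tape w)).coeff T := by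
  classical
  rw [show 2 * T + 1 = T + 1 + T by ring]
  show _ = (gval (loop M) (lΦ M (M.tape w)) (T + 1 + T) (Sum.inl M.start) 0 (M.tape w)).coeff T
  rw [coeff_fwd]
  have h1 := fnl_iterate M (fun q h τ => if q ∈ M.accepting then
    starRingEnd ℂ (amp M w T ⟨q, h, τ⟩) else 0) T (Finsupp.single (M.init w) 1)
  rw [fnl_single, one_mul] at h1
  show _ = gval M _ T (M.init w).state (M.init w).head (M.init w).tape
  rw [← h1]
  unfold Machine.acceptProb fnl
  show _ = (M.superposition T w).sum _
  rw [Finsupp.sum, Finsupp.sum]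
  push_cast
  refine Finset.sum_congr rfl fun C _ => ?_
  split_ifs with hq
  · show _ = (M.superposition T w) C * starRingEnd ℂ (M.superposition T w ⟨C.state, C.head, C.tape⟩)
    rw [Complex.mul_conj, Complex.normSq_eq_norm_sq]
  · simp

/-- **Decomposition lemma for quantum machines.** -/
theorem decompQ (M : Machine ℂ A Q Γ) {X Y : Type} (g G T : ℕ) (hg : 1 ≤ g) (hG : 1 ≤ G)
    (u : X → List A) (mid : List A) (v : Y → List A) (hu : ∀ x, (u x).length = g)
    (hmid : mid.length = G) :
    ∃ (ι : Type) (_ : Fintype ι) (α : ι → X → ℝ) (β : ι → Y → ℝ),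
      Fintype.card ι ≤ 2 * (T + 1) * (G * (2 * T + 2) * (4 * Fintype.card Q + 1) ^ ((2 * T + 1) / G)) ∧
      ∀ x y, M.acceptProb T (u x ++ mid ++ v y) = ∑ i, α i x * β i y := by
  classical
  obtain ⟨ι, hι, α, β, hcard, hdec⟩ := decomp2 (loop M) (lac M) g G (2 * T + 1) hg hG u mid v hu hmid
  have hQ : Fintype.card (Q ⊕ (Q × Move)) = 4 * Fintype.card Q := by
    rw [Fintype.card_sum, Fintype.card_prod]
    have : Fintype.card Move = 3 := rfl
    rw [this]; ring
  rw [hQ] at hcard
  let I : Type := (ι × Fin (T + 1)) × Bool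
  refine ⟨I, inferInstance,
    fun i x => if i.2 then ((α i.1.1 x).coeff i.1.2).re else -((α i.1.1 x).coeff i.1.2).im,
    fun i y => if i.2 then ((β i.1.1 y).coeff (T - i.1.2)).re else ((β i.1.1 y).coeff (T - i.1.2)).im,
    ?_, ?_⟩
  · simp only [I, Fintype.card_prod, Fintype.card_fin, Fintype.card_bool]
    calc Fintype.card ι * (T + 1) * 2
        ≤ (G * (2 * T + 1 + 1) * (4 * Fintype.card Q + 1) ^ ((2 * T + 1) / G)) * (T + 1) * 2 := by gcongr
      _ = _ := by ring
  · intro x y
    have h1 := acceptProb_eq M (u x ++ mid ++ v y) T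
    have h2 := hdec x y
    have h3 : gval (loop M) (lΦ M (M.tape (u x ++ mid ++ v y))) (2 * T + 1) (loop M).start 0
        (M.tape (u x ++ mid ++ v y)) = ∑ i, α i x * β i y := h2
    rw [h3, Polynomial.finsetSum_coeff] at h1
    have h4 : M.acceptProb T (u x ++ mid ++ v y)
        = (∑ i : ι, (α i x * β i y).coeff T).re := by
      rw [← h1, Complex.ofReal_re]
    rw [h4, Complex.re_sum]
    simp only [I, Fintype.sum_prod_type]
    refine Finset.sum_congr rfl fun i _ => ?_
    rw [Polynomial.coeff_mul, Complex.re_sum, Finset.Nat.sum_antidiagonal_eq_sum_range_succ_mk,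
      Finset.sum_range]
    refine Finset.sum_congr rfl fun j _ => ?_
    simp [Complex.mul_re]
    ring

end

end Pool.Agent.H524R2.QM
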