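import Pool.Agent.H524R2.Pattern
import Pool.Agent.H524R2.Quantum3

/-! # Disjointness on quantum one-tape machines with bounded error -/

namespace Pool.Agent.H524R2

open Finset

theorem acceptProb_nonneg {A Q Γ : Type} [Fintype Q] [Fintype Γ] (M : Machine ℂ A Q Γ) (t : ℕ)
    (w : List A) : 0 ≤ M.acceptProb t w := by
  classical
  unfold Machine.acceptProb
  refine Finsupp.sum_nonneg fun C _ => ?_
  split_ifs <;> positivity

/-- extension by `false` -/
def padF {h : ℕ} (n : ℕ) (f : Fin h → Bool) : Fin n → Bool :=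
  fun l => if hl : (l : ℕ) < h then f ⟨l, hl⟩ else false

theorem ofFn_padF {h n : ℕ} (hn : h ≤ n) (f : Fin h → Bool) :
    List.ofFn (padF n f) = List.ofFn f ++ List.replicate (n - h) false := by
  refine List.ext_getElem (by simp; omega) fun i h1 h2 => ?_
  rw [List.getElem_ofFn]
  unfold padF
  by_cases hi : i < h
  · rw [List.getElem_append_left (by simpa using hi)]
    simp [hi]
  · rw [List.getElem_append_right (by simpa using hi)]
    simp [hi]

section

variable (k : ℕ)

/-- enumeration of the coordinates -/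
noncomputable def enum : Fin k × Fin 4 × Bool ≃ Fin (8 * k) :=
  Fintype.equivFinOfCardEq (by simp; ring)

/-- the first set -/
noncomputable def setX (x : Fin k × Fin 4 → Bool) : Fin (8 * k) → Bool :=
  fun l => xor (x (((enum k).symm l).1, ((enum k).symm l).2.1)) ((enum k).symm l).2.2

/-- the second set -/
noncomputable def setY (y : (Fin k → Fin 4) × (Fin k → Bool)) : Fin (8 * k) → Bool :=
  fun l => decide (y.1 ((enum k).symm l).1 = ((enum k).symm l).2.1 ∧
    y.2 ((enum k).symm l).1 = ((enum k).symm l).2.2)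

theorem exists_setXY (x : Fin k × Fin 4 → Bool) (y : (Fin k → Fin 4) × (Fin k → Bool)) :
    (∃ l, setX k x l = true ∧ setY k y l = true) ↔ ∃ i, sel x y.1 y.2 i = true := by
  constructor
  · rintro ⟨l, h1, h2⟩
    refine ⟨((enum k).symm l).1, ?_⟩
    unfold setY at h2
    rw [decide_eq_true_eq] at h2
    unfold setX at h1
    unfold sel
    rw [h2.1, h2.2]
    exact h1
  · rintro ⟨i, h⟩
    refine ⟨enum k (i, y.1 i, y.2 i), ?_, ?_⟩
    · unfold setX
      rw [Equiv.symm_apply_apply]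
      exact h
    · unfold setY
      rw [Equiv.symm_apply_apply]
      simp

theorem exists_padF {h n : ℕ} (hn : h ≤ n) (f g : Fin h → Bool) :
    (∃ l, padF n f l = true ∧ padF n g l = true) ↔ ∃ l, f l = true ∧ g l = true := by
  constructor
  · rintro ⟨l, h1, h2⟩
    unfold padF at h1 h2
    by_cases hl : (l : ℕ) < h
    · rw [dif_pos hl] at h1 h2
      exact ⟨_, h1, h2⟩
    · rw [dif_neg hl] at h1
      exact absurd h1 (by simp)
  · rintro ⟨l, h1, h2⟩
    refine ⟨⟨l, by omega⟩, ?_, ?_⟩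
    · unfold padF; rw [dif_pos l.2]; exact h1
    · unfold padF; rw [dif_pos l.2]; exact h2

end

theorem sq_aux (K : ℕ) (hK : 22 ≤ K) : (80 * K + 223) ^ 2 ≤ 2 ^ K := by
  induction K, hK using Nat.le_induction with
  | base => norm_num
  | succ K hK ih =>
    have : (80 * (K + 1) + 223) ^ 2 ≤ 2 * (80 * K + 223) ^ 2 := by nlinarith
    calc _ ≤ _ := this
      _ ≤ 2 * 2 ^ K := by omega
      _ = 2 ^ (K + 1) := by rw [pow_succ]; ring

/-- **Lower bound for disjointness** on quantum one-tape machines with bounded error. -/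
theorem quantum_disj (n : ℕ) (hn : 2 ^ 22 ≤ n) (Q Γ : Type) [Fintype Q] [Fintype Γ]
    (M : Machine ℂ Bool Q Γ) (T S : ℕ) (hS : 1 ≤ S) (hQ : Fintype.card Q ≤ 2 ^ S)
    (hyes : ∀ x y : Fin n → Bool, (∃ i, x i = true ∧ y i = true) →
      2 / 3 ≤ M.acceptProb T (List.ofFn x ++ List.ofFn y) ∧
      M.acceptProb T (List.ofFn x ++ List.ofFn y) ≤ 1)
    (hno : ∀ x y : Fin n → Bool, (¬ ∃ i, x i = true ∧ y i = true) →
      M.acceptProb T (List.ofFn x ++ List.ofFn y) ≤ 1 / 3) :
    (n : ℝ) * Real.sqrt n ≤ 384 * (T * S) := by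
  classical
  set s := Nat.sqrt n with hs
  set m := s / 16 with hm
  set k := 16 * m ^ 2 with hk
  have hn0 : n ≠ 0 := by
    have : 0 < 2 ^ 22 := by positivity
    omega
  have hs1 : s * s ≤ n := Nat.sqrt_le n
  have hs2 : n < (s + 1) * (s + 1) := Nat.lt_succ_sqrt n
  have hm1 : 16 * m ≤ s := Nat.mul_div_le s 16
  have hm2 : s < 16 * (m + 1) := Nat.lt_mul_div_succ s (by norm_num)
  have hs3 : 2 ^ 11 ≤ s := by
    rw [hs, Nat.le_sqrt']
    calc (2 ^ 11) ^ 2 = 2 ^ 22 := by norm_num
      _ ≤ n := hn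
  have hmpos : 1 ≤ m := by omega
  have h256 : 256 * m ^ 2 ≤ n := by
    calc 256 * m ^ 2 = (16 * m) * (16 * m) := by ring
      _ ≤ s * s := Nat.mul_le_mul hm1 hm1
      _ ≤ n := hs1
  have hk1 : 1 ≤ k := by
    rw [hk]
    have : 1 ≤ m ^ 2 := Nat.one_le_pow _ _ hmpos
    omega
  have h8k : 2 * (8 * k) ≤ n := by omega
  set G := n - 8 * k with hG
  -- the decomposition
  obtain ⟨ι, hι, α, β, hcard, hdec⟩ := QM.decompQ M (X := Fin k × Fin 4 → Bool)
    (Y := (Fin k → Fin 4) × (Fin k → Bool))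
    (8 * k) G T (by omega) (by omega) (fun x => List.ofFn (setX k x)) (List.replicate G false)
    (fun y => List.ofFn (padF n (setY k y))) (fun x => by simp) (by simp)
  have hword : ∀ x y, List.ofFn (setX k x) ++ List.replicate G false ++ List.ofFn (padF n (setY k y))
      = List.ofFn (padF n (setX k x)) ++ List.ofFn (padF n (setY k y)) := by
    intro x y
    rw [ofFn_padF (show 8 * k ≤ n by omega) (setX k x)]
  have hiff : ∀ x y, (∃ l, padF n (setX k x) l = true ∧ padF n (setY k y) l = true) ↔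
      ∃ i, sel x y.1 y.2 i = true := by
    intro x y
    rw [exists_padF (show 8 * k ≤ n by omega), exists_setXY]
  let α' : Option ι → (Fin k × Fin 4 → Bool) → ℝ := fun o x => o.elim (-1) (fun i => 2 * α i x)
  let β' : Option ι → (Fin k → Fin 4) × (Fin k → Bool) → ℝ := fun o y => o.elim 1 (fun i => β i y)
  have hab : ∀ x y, ∑ o, α' o x * β' o y =
      2 * M.acceptProb T (List.ofFn (padF n (setX k x)) ++ List.ofFn (padF n (setY k y))) - 1 := by
    intro x y
    rw [Fintype.sum_option, ← hword, hdec, Finset.mul_sum]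
    simp only [α', β', Option.elim]
    have : ∑ i, 2 * α i x * β i y = ∑ i, 2 * (α i x * β i y) :=
      Finset.sum_congr rfl fun i _ => by ring
    rw [this]
    ring
  have hrank := pattern_rank (k := k) (β := Fin 4) (ι := Option ι) m hk1 le_rfl α' β'
    (fun x y => by
      rw [hab]
      have h0 := acceptProb_nonneg M T (List.ofFn (padF n (setX k x)) ++ List.ofFn (padF n (setY k y)))
      by_cases h : ∃ l, padF n (setX k x) l = true ∧ padF n (setY k y) l = true
      · have := hyes _ _ h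
        rw [abs_le]; constructor <;> linarith
      · have := hno _ _ h
        rw [abs_le]; constructor <;> linarith)
    (fun x y => by
      rw [hab]
      have h0 := acceptProb_nonneg M T (List.ofFn (padF n (setX k x)) ++ List.ofFn (padF n (setY k y)))
      by_cases h : ∃ l, padF n (setX k x) l = true ∧ padF n (setY k y) l = true
      · have h1 := hyes _ _ h
        have h2 : orSign (sel x y.1 y.2) = 1 := if_pos ((hiff x y).1 h)
        rw [h2, abs_le]; constructor <;> linarith
      · have h1 := hno _ _ h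
        have h2 : orSign (sel x y.1 y.2) = -1 := if_neg (fun h3 => h ((hiff x y).2 h3))
        rw [h2, abs_le]; constructor <;> linarith)
  rw [Fintype.card_option, Fintype.card_fin] at hrank
  have hrank' : 4 * 4 ^ (m + 1) ≤ 225 * (Fintype.card ι + 1) := by
    have : (4 * 4 ^ (m + 1) : ℝ) ≤ 225 * ((Fintype.card ι + 1 : ℕ) : ℝ) := by
      push_cast at hrank ⊢
      linarith
    exact_mod_cast this
  -- trivial case
  have hnpos : (0 : ℝ) < n := by
    have : 0 < n := Nat.pos_of_ne_zero hn0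
    exact_mod_cast this
  have hsq : Real.sqrt n ≤ s + 1 := by
    rw [Real.sqrt_le_left (by positivity)]
    have : n ≤ (s + 1) ^ 2 := by rw [sq]; exact hs2.le
    exact_mod_cast this
  have hSr : (1 : ℝ) ≤ S := by exact_mod_cast hS
  by_cases hT : n ^ 2 ≤ T
  · have h1 : (n : ℝ) ^ 2 ≤ T := by exact_mod_cast hT
    have h2 : Real.sqrt n ≤ n := by
      rw [Real.sqrt_le_left hnpos.le]
      have : (1 : ℝ) ≤ n := by exact_mod_cast Nat.pos_of_ne_zero hn0
      nlinarith
    have h3 : (n : ℝ) * Real.sqrt n ≤ n ^ 2 := by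
      rw [sq]; exact mul_le_mul_of_nonneg_left h2 hnpos.le
    have h4 : (T : ℝ) ≤ T * S := le_mul_of_one_le_right (Nat.cast_nonneg T) hSr
    have h5 : (0 : ℝ) ≤ T := Nat.cast_nonneg T
    linarith
  push Not at hT
  -- the size of the index set
  set K := Nat.log 2 n with hKdef
  have hK1 : 2 ^ K ≤ n := Nat.pow_log_le_self 2 hn0
  have hK2 : n < 2 ^ (K + 1) := Nat.lt_pow_succ_log_self (by norm_num) n
  have hK : 22 ≤ K := (Nat.le_log_iff_pow_le (by norm_num) hn0).2 hn
  have hKs : 80 * K + 223 ≤ s := by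
    rw [hs, Nat.le_sqrt']
    exact (sq_aux K hK).trans hK1
  set E := (2 * T + 1) / G with hE
  have hG2 : G ≤ n := Nat.sub_le _ _
  have hG1 : n ≤ 2 * G := by omega
  have hq : (4 * Fintype.card Q + 1) ^ E ≤ 2 ^ (4 * S * E) := by
    rw [pow_mul]
    refine Nat.pow_le_pow_left ?_ _
    have h1 : 1 ≤ 2 ^ S := Nat.one_le_two_pow
    calc 4 * Fintype.card Q + 1 ≤ 2 ^ S * 2 ^ 3 := by omega
      _ = 2 ^ (S + 3) := by rw [pow_add]
      _ ≤ 2 ^ (4 * S) := Nat.pow_le_pow_right (by norm_num) (by omega)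
  have hc1 : Fintype.card ι + 1 ≤ 2 ^ (5 * K + 8 + 4 * S * E) := by
    have hpos : 1 ≤ 2 ^ (4 * S * E) := Nat.one_le_two_pow
    have h1 : 2 * (T + 1) * (G * (2 * T + 2)) ≤ 2 ^ (5 * K + 7) := by
      calc 2 * (T + 1) * (G * (2 * T + 2)) = 4 * ((T + 1) * (T + 1)) * G := by ring
        _ ≤ 4 * (n ^ 2 * n ^ 2) * n := by
            refine Nat.mul_le_mul (Nat.mul_le_mul_left _ (Nat.mul_le_mul ?_ ?_)) hG2 <;> omega
        _ = 4 * n ^ 5 := by ring
        _ ≤ 4 * (2 ^ (K + 1)) ^ 5 := Nat.mul_le_mul_left _ (Nat.pow_le_pow_left hK2.le 5)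
        _ = 2 ^ (5 * K + 7) := by
            rw [← pow_mul, show (4 : ℕ) = 2 ^ 2 by norm_num, ← pow_add]; congr 1; ring
    calc Fintype.card ι + 1
        ≤ 2 * (T + 1) * (G * (2 * T + 2) * (4 * Fintype.card Q + 1) ^ E) + 1 := by omega
      _ = 2 * (T + 1) * (G * (2 * T + 2)) * (4 * Fintype.card Q + 1) ^ E + 1 := by ring
      _ ≤ 2 ^ (5 * K + 7) * 2 ^ (4 * S * E) + 2 ^ (5 * K + 7) * 2 ^ (4 * S * E) := by
          refine Nat.add_le_add (Nat.mul_le_mul h1 hq) ?_
          exact Nat.one_le_iff_ne_zero.2 (by positivity)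
      _ = 2 ^ (5 * K + 8 + 4 * S * E) := by
          rw [← pow_add, ← two_mul, ← pow_succ']; congr 1; ring
  have hexp : 2 * m + 4 ≤ 5 * K + 16 + 4 * S * E := by
    have h1 : 2 ^ (2 * m + 4) ≤ 2 ^ (5 * K + 16 + 4 * S * E) := by
      calc 2 ^ (2 * m + 4) = 4 * 4 ^ (m + 1) := by
            rw [show (4 : ℕ) = 2 ^ 2 by norm_num, ← pow_mul, ← pow_add]; congr 1; ring
        _ ≤ 225 * (Fintype.card ι + 1) := hrank'
        _ ≤ 2 ^ 8 * 2 ^ (5 * K + 8 + 4 * S * E) := Nat.mul_le_mul (by norm_num) hc1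
        _ = _ := by rw [← pow_add]; congr 1; ring
    exact (Nat.pow_le_pow_iff_right (by norm_num)).1 h1
  have h1 : s + 1 ≤ 64 * (S * E) := by
    have : 4 * S * E = 4 * (S * E) := by ring
    omega
  have h2 : E * n ≤ 6 * T := by
    rcases Nat.eq_zero_or_pos T with h0 | h0
    · have : E = 0 := by
        rw [hE, h0]
        exact Nat.div_eq_of_lt (by omega)
      rw [this]; omega
    · calc E * n ≤ E * (2 * G) := Nat.mul_le_mul_left _ hG1
        _ = 2 * (E * G) := by ring
        _ ≤ 2 * (2 * T + 1) := Nat.mul_le_mul_left _ (Nat.div_mul_le_self _ G)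
        _ ≤ 6 * T := by omega
  have h3 : n * (s + 1) ≤ 384 * (T * S) := by
    calc n * (s + 1) ≤ n * (64 * (S * E)) := Nat.mul_le_mul_left _ h1
      _ = 64 * S * (E * n) := by ring
      _ ≤ 64 * S * (6 * T) := Nat.mul_le_mul_left _ h2
      _ = 384 * (T * S) := by ring
  have h4 : (n : ℝ) * (s + 1) ≤ 384 * (T * S) := by exact_mod_cast h3
  exact (mul_le_mul_of_nonneg_left hsq hnpos.le).trans h4

end Pool.Agent.H524R2
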