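import Pool.Agent.H524R2.EqFormula
import Pool.Agent.H524R2.Rank

/-! # The time-space bound for unsatisfiability in the nonzero-weight modes -/

namespace Pool.Agent.H524R2

open Finset

theorem card_le_of_diag {K X ι : Type} [Field K] [Fintype X] [Fintype ι] (α : ι → X → K)
    (β : ι → X → K) (h : ∀ x y, ∑ i, α i x * β i y ≠ 0 ↔ x = y) :
    Fintype.card X ≤ Fintype.card ι := by
  classical
  let A : Matrix X ι K := fun x i => α i x
  let B : Matrix ι X K := fun i y => β i y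
  let w : X → K := fun x => ∑ i, α i x * β i x
  have hAB : A * B = Matrix.diagonal w := by
    ext x y
    rw [Matrix.mul_apply]
    by_cases hxy : x = y
    · subst hxy; simp [A, B, w]
    · rw [Matrix.diagonal_apply_ne _ hxy]
      by_contra hne
      exact hxy ((h x y).1 hne)
  have h1 : (A * B).rank ≤ Fintype.card ι :=
    (Matrix.rank_mul_le_left A B).trans (Matrix.rank_le_card_width A)
  rw [hAB, Matrix.rank_diagonal] at h1
  have h2 : ∀ x, w x ≠ 0 := fun x => (h x x).2 rfl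
  have h3 : Fintype.card {i // w i ≠ 0} = Fintype.card X :=
    Fintype.card_congr (Equiv.subtypeUnivEquiv h2)
  omega

theorem pow_aux2 (K : ℕ) (hK : 22 ≤ K) : (32 * K) ^ 2 ≤ 2 ^ (K + 1) ∧ 640 * (3 * K + 3) ≤ 2 ^ K := by
  induction K, hK using Nat.le_induction with
  | base => norm_num
  | succ K hK ih =>
    obtain ⟨h1, h2⟩ := ih
    constructor
    · have : (32 * (K + 1)) ^ 2 ≤ 2 * (32 * K) ^ 2 := by nlinarith
      calc _ ≤ _ := this
        _ ≤ 2 * 2 ^ (K + 1) := by omega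
        _ = 2 ^ (K + 1 + 1) := by rw [pow_succ 2 (K + 1)]; ring
    · rw [pow_succ]
      omega

/-- The parameters of the hard instances of length `n`. -/
theorem params2 (n : ℕ) (hn : 2 ^ 22 ≤ n) :
    ∃ K r : ℕ, ∃ pads : List Formula, 22 ≤ K ∧ 2 ^ K ≤ n ∧ n < 2 ^ (K + 1) ∧ 1 ≤ r ∧
      n ≤ 64 * (r * 2 ^ r) ∧ 640 * (3 * K + 3) ≤ n ∧
      (∀ f ∈ pads, ∃ j, f = pad j) ∧ pads ≠ [] ∧
      2 ^ r * (4 * r + 11) + 3 + (acost pads + pads.length) = n ∧
      n ≤ 2 * acost pads := by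
  set K := Nat.log 2 n with hKdef
  have hn0 : n ≠ 0 := by
    have : 0 < 2 ^ 22 := by positivity
    omega
  have hK1 : 2 ^ K ≤ n := Nat.pow_log_le_self 2 hn0
  have hK2 : n < 2 ^ (K + 1) := Nat.lt_pow_succ_log_self (by norm_num) n
  have hK : 22 ≤ K := (Nat.le_log_iff_pow_le (by norm_num) hn0).2 hn
  obtain ⟨haux, haux2⟩ := pow_aux2 K hK
  have hq0 : n / (16 * K) ≠ 0 := by
    have h1 : 16 * K ≤ n := by omega
    have := Nat.div_pos h1 (by omega)
    omega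
  set r := Nat.log 2 (n / (16 * K)) with hr
  have hr1 : 2 ^ r ≤ n / (16 * K) := Nat.pow_log_le_self 2 hq0
  have hr2 : n / (16 * K) < 2 ^ (r + 1) := Nat.lt_pow_succ_log_self (by norm_num) _
  have hm1 : 16 * K * 2 ^ r ≤ n := by
    calc 16 * K * 2 ^ r ≤ 16 * K * (n / (16 * K)) := Nat.mul_le_mul_left _ hr1
      _ ≤ n := Nat.mul_div_le n (16 * K)
  have hm2 : n < 32 * K * 2 ^ r := by
    have := (Nat.div_lt_iff_lt_mul (by omega)).1 hr2
    rw [pow_succ] at this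
    calc n < 2 ^ r * 2 * (16 * K) := this
      _ = _ := by ring
  have hrK : r ≤ K := by
    have h1 : 2 ^ r < 2 ^ (K + 1) := by
      calc 2 ^ r ≤ 16 * K * 2 ^ r := Nat.le_mul_of_pos_left _ (by omega)
        _ ≤ n := hm1
        _ < _ := hK2
    have := (Nat.pow_lt_pow_iff_right (by norm_num : 1 < 2)).1 h1
    omega
  have hKr : K ≤ 2 * r := by
    by_contra hcon
    push Not at hcon
    have h1 : 2 ^ K < 32 * K * 2 ^ r := lt_of_le_of_lt hK1 hm2
    have h2 : (2 ^ K) ^ 2 < (32 * K * 2 ^ r) ^ 2 := Nat.pow_lt_pow_left h1 (by norm_num)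
    have h3 : (32 * K * 2 ^ r) ^ 2 = (32 * K) ^ 2 * 2 ^ (2 * r) := by rw [mul_pow, ← pow_mul, mul_comm r]
    have h4 : (32 * K) ^ 2 * 2 ^ (2 * r) ≤ 2 ^ (K + 1) * 2 ^ (2 * r) := Nat.mul_le_mul_right _ haux
    have h5 : 2 ^ (K + 1) * 2 ^ (2 * r) ≤ (2 ^ K) ^ 2 := by
      rw [← pow_add, ← pow_mul]
      exact Nat.pow_le_pow_right (by norm_num) (by omega)
    omega
  have hKm : n ≤ 64 * (r * 2 ^ r) := by
    have h1 : 32 * K * 2 ^ r ≤ 32 * (2 * r) * 2 ^ r := by gcongr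
    calc n ≤ 32 * K * 2 ^ r := hm2.le
      _ ≤ 32 * (2 * r) * 2 ^ r := h1
      _ = _ := by ring
  have hbase : 2 ^ r * (4 * r + 11) + 3 ≤ n / 3 := by
    rw [Nat.le_div_iff_mul_le (by norm_num)]
    have h1 : 2 ^ r * (4 * r) ≤ 2 ^ r * (4 * K) := by gcongr
    have h2 : 22 * 2 ^ r ≤ K * 2 ^ r := by gcongr
    have h3 : 16 * (K * 2 ^ r) ≤ n := by rw [← mul_assoc]; exact hm1
    have h4 : (2 ^ r * (4 * r + 11) + 3) * 3 = 3 * (2 ^ r * (4 * r)) + 33 * 2 ^ r + 9 := by ring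
    have h5 : 2 ^ r * (4 * K) = 4 * (K * 2 ^ r) := by ring
    omega
  obtain ⟨pads, hp1, hp2, hp3, hp4⟩ := exists_pads (n - (2 ^ r * (4 * r + 11) + 3)) (by omega)
  have hp1' : acost pads + pads.length = n - (2 ^ r * (4 * r + 11) + 3) := hp1
  refine ⟨K, r, pads, hK, hK1, hK2, by omega, hKm, by omega, hp2, ?_, by omega, by omega⟩
  rintro rfl
  simp [acost] at hp1'
  omega

/-- extension of a vector by zeros -/
def extF {m N : ℕ} (p : Fin m → Fin N) (i : ℕ) : ℕ := if h : i < m then (p ⟨i, h⟩ : ℕ) else 0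

theorem extF_lt {m N : ℕ} (hN : 0 < N) (p : Fin m → Fin N) (i : ℕ) : extF p i < N := by
  unfold extF
  split_ifs
  · exact (p _).2
  · exact hN

theorem exists_extF_ne {m N : ℕ} (p q : Fin m → Fin N) :
    (∃ i < m, extF p i ≠ extF q i) ↔ p ≠ q := by
  constructor
  · rintro ⟨i, hi, h⟩ rfl
    exact h rfl
  · intro h
    obtain ⟨i, hi⟩ := Function.ne_iff.1 h
    refine ⟨i, i.2, ?_⟩
    simp only [extF, i.2, dif_pos, Fin.eta]
    intro h2
    exact hi (Fin.ext h2)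

/-- **Lower bound for unsatisfiability, in the nonzero-weight mode over a field.** -/
theorem nonzero_mode (n : ℕ) (hn : 2 ^ 22 ≤ n) (K Q Γ : Type) [Field K] [Fintype Q] [Fintype Γ]
    (M : Machine K Sym Q Γ) (T S : ℕ) (hS : 1 ≤ S) (hQ : Fintype.card Q ≤ 2 ^ S)
    (hM : ∀ φ : Formula, φ.encode.length = n → (M.run T φ.encode ≠ 0 ↔ ¬ φ.Satisfiable)) :
    n ^ 2 ≤ 320 * (T * S) := by
  obtain ⟨k, r, pads, hK, hK1, hK2, hr1, hn64, haux, hpads, hne, hlen, hcost⟩ := params2 n hn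
  have h2r : 0 < 2 ^ r := by positivity
  set G := (eqMid pads).length with hG
  have hGeq : G = acost pads := rfl
  have hG1 : n ≤ 2 * G := by omega
  have hG2 : G ≤ n := by omega
  have hg : 1 ≤ 2 ^ r * (2 * r + 4) := by nlinarith
  obtain ⟨ι, hι, α, β, hcard, hdec⟩ := decomp M (X := Fin (2 ^ r) → Fin (2 ^ r))
    (Y := Fin (2 ^ r) → Fin (2 ^ r))
    (2 ^ r * (2 * r + 4)) G T hg (by omega) (fun p => eqU r (2 ^ r) (extF p)) (eqMid pads)
    (fun q => eqV r (2 ^ r) pads (extF q)) (fun p => length_eqU le_rfl _ (extF_lt h2r p)) rfl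
  have hdiag : ∀ p q : Fin (2 ^ r) → Fin (2 ^ r), ∑ i, α i p * β i q ≠ 0 ↔ p = q := by
    intro p q
    rw [← hdec, ← encode_eqFormula, hM _ (by
      rw [length_eqFormula le_rfl pads _ _ (extF_lt h2r p) (extF_lt h2r q)]; exact hlen),
      satisfiable_eqFormula hr1 pads hpads hne _ _ (extF_lt h2r p) (extF_lt h2r q),
      exists_extF_ne, not_not]
  have hrank := card_le_of_diag α β hdiag
  have hX : Fintype.card (Fin (2 ^ r) → Fin (2 ^ r)) = 2 ^ (r * 2 ^ r) := by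
    simp [← pow_mul]
  rw [hX] at hrank
  by_cases hT : n ^ 2 ≤ T
  · calc n ^ 2 ≤ T := hT
      _ ≤ T * S := Nat.le_mul_of_pos_right _ (by omega)
      _ ≤ 320 * (T * S) := Nat.le_mul_of_pos_left _ (by norm_num)
  push Not at hT
  have hq : (Fintype.card Q + 1) ^ (T / G) ≤ 2 ^ (2 * S * (T / G)) := by
    rw [pow_mul]
    refine Nat.pow_le_pow_left ?_ _
    calc Fintype.card Q + 1 ≤ 2 ^ S + 2 ^ S := by
          have : 1 ≤ 2 ^ S := Nat.one_le_two_pow
          omega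
      _ = 2 ^ (S + 1) := by rw [pow_succ]; ring
      _ ≤ 2 ^ (2 * S) := Nat.pow_le_pow_right (by norm_num) (by omega)
  have hc1 : 2 ^ (r * 2 ^ r) ≤ 2 ^ (3 * k + 3 + 2 * S * (T / G)) := by
    have h1 : G * (T + 1) ≤ 2 ^ (3 * k + 3) := by
      calc G * (T + 1) ≤ n * n ^ 2 := Nat.mul_le_mul hG2 (by omega)
        _ = n ^ 3 := by ring
        _ ≤ (2 ^ (k + 1)) ^ 3 := Nat.pow_le_pow_left hK2.le 3
        _ = 2 ^ (3 * k + 3) := by rw [← pow_mul]; congr 1; ring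
    calc 2 ^ (r * 2 ^ r) ≤ Fintype.card ι := hrank
      _ ≤ G * (T + 1) * (Fintype.card Q + 1) ^ (T / G) := hcard
      _ ≤ 2 ^ (3 * k + 3) * 2 ^ (2 * S * (T / G)) := Nat.mul_le_mul h1 hq
      _ = _ := by rw [← pow_add]
  have hexp : r * 2 ^ r ≤ 3 * k + 3 + 2 * S * (T / G) :=
    (Nat.pow_le_pow_iff_right (by norm_num)).1 hc1
  have h2 : (T / G) * n ≤ 2 * T := by
    calc (T / G) * n ≤ (T / G) * (2 * G) := Nat.mul_le_mul_left _ hG1
      _ = 2 * (T / G * G) := by ring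
      _ ≤ 2 * T := Nat.mul_le_mul_left _ (Nat.div_mul_le_self T G)
  -- n ≤ 160 * S * (T / G)
  have h3 : n ≤ 160 * (S * (T / G)) := by
    have : 2 * S * (T / G) = 2 * (S * (T / G)) := by ring
    omega
  calc n ^ 2 = n * n := sq n
    _ ≤ 160 * (S * (T / G)) * n := Nat.mul_le_mul_right n h3
    _ = 160 * S * ((T / G) * n) := by ring
    _ ≤ 160 * S * (2 * T) := Nat.mul_le_mul_left _ h2
    _ = 320 * (T * S) := by ring

end Pool.Agent.H524R2
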