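import Pool.Agent.H524R2.Formula

/-! # Expressions which are unsatisfiable exactly when two vectors agree -/

namespace Pool.Agent.H524R2

open Finset

/-- the name of the variable which says that the coordinate `i` has the value `a` -/
def nmv (r i a : ℕ) : Formula := nm (2 * r) (i * 2 ^ r + a)

theorem length_nmv {r i a : ℕ} (hi : i < 2 ^ r) (ha : a < 2 ^ r) :
    (nmv r i a).encode.length = 2 * r + 2 := by
  refine length_nm ?_
  have h1 : i * 2 ^ r + a < (i + 1) * 2 ^ r := by rw [add_mul]; omega
  have h2 : (i + 1) * 2 ^ r ≤ 2 ^ r * 2 ^ r := Nat.mul_le_mul_right _ hi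
  rw [two_mul, pow_add]
  exact lt_of_lt_of_le h1 h2

/-- the items on the left: coordinate `i` has the value `p i` -/
def eqLeft (r m : ℕ) (p : ℕ → ℕ) : List Formula := (List.range m).map fun i => nmv r i (p i)

/-- the literals on the right: coordinate `i` does not have the value `q i` -/
def eqRight (r m : ℕ) (q : ℕ → ℕ) : List Formula :=
  (List.range m).map fun i => Formula.not (nmv r i (q i))

/-- the expression which is unsatisfiable if and only if `p = q` -/
def eqFormula (r m : ℕ) (pads : List Formula) (p q : ℕ → ℕ) : Formula :=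
  bigAnd (eqLeft r m p ++ pads) (bigOr (eqRight r m q) (Formula.not (Formula.var 0)))

/-- the cost of an item list inside a big conjunction, without closing parentheses -/
def acost (l : List Formula) : ℕ := (l.flatMap (fun f => Sym.lpar :: (f.encode ++ [Sym.and]))).length

/-- the word of the left part -/
def eqU (r m : ℕ) (p : ℕ → ℕ) : List Sym :=
  (eqLeft r m p).flatMap (fun f => Sym.lpar :: (f.encode ++ [Sym.and]))

/-- the word of the middle part -/
def eqMid (pads : List Formula) : List Sym :=
  pads.flatMap (fun f => Sym.lpar :: (f.encode ++ [Sym.and]))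

/-- the word of the right part -/
def eqV (r m : ℕ) (pads : List Formula) (q : ℕ → ℕ) : List Sym :=
  (eqRight r m q).flatMap (fun f => Sym.lpar :: (f.encode ++ [Sym.or])) ++
    (((Formula.not (Formula.var 0)).encode ++ List.replicate m Sym.rpar) ++
      List.replicate (m + pads.length) Sym.rpar)

theorem encode_eqFormula (r m : ℕ) (pads : List Formula) (p q : ℕ → ℕ) :
    (eqFormula r m pads p q).encode = eqU r m p ++ eqMid pads ++ eqV r m pads q := by
  rw [eqFormula, encode_bigAnd, encode_bigOr]
  have h1 : (eqLeft r m p ++ pads).length = m + pads.length := by simp [eqLeft]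
  have h2 : (eqRight r m q).length = m := by simp [eqRight]
  rw [h1, h2, List.flatMap_append, eqU, eqMid, eqV]
  simp only [List.append_assoc]

theorem length_eqU {r m : ℕ} (hm : m ≤ 2 ^ r) (p : ℕ → ℕ) (hp : ∀ i, p i < 2 ^ r) :
    (eqU r m p).length = m * (2 * r + 4) := by
  unfold eqU eqLeft
  have : ∀ l : List ℕ, (∀ i ∈ l, i < m) →
      ((l.map fun i => nmv r i (p i)).flatMap (fun f => Sym.lpar :: (f.encode ++ [Sym.and]))).length
        = l.length * (2 * r + 4) := by
    intro l
    induction l with
    | nil => simp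
    | cons i l ih =>
      intro hl
      have hi := hl i (by simp)
      rw [List.map_cons, List.flatMap_cons, List.length_append, ih (fun j hj => hl j (by simp [hj])),
        List.length_cons, List.length_append, length_nmv (by omega) (hp i), List.length_cons,
        List.length_cons, List.length_nil]
      ring
  rw [this _ (by simp)]
  simp

theorem length_eqV {r m : ℕ} (hm : m ≤ 2 ^ r) (pads : List Formula) (q : ℕ → ℕ) (hq : ∀ i, q i < 2 ^ r) :
    (eqV r m pads q).length = m * (2 * r + 7) + 3 + pads.length := by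
  have : ∀ l : List ℕ, (∀ i ∈ l, i < m) →
      ((l.map fun i => Formula.not (nmv r i (q i))).flatMap
        (fun f => Sym.lpar :: (f.encode ++ [Sym.or]))).length = l.length * (2 * r + 5) := by
    intro l
    induction l with
    | nil => simp
    | cons i l ih =>
      intro hl
      have hi := hl i (by simp)
      rw [List.map_cons, List.flatMap_cons, List.length_append, ih (fun j hj => hl j (by simp [hj])),
        List.length_cons, List.length_append, Formula.encode, List.length_cons,
        length_nmv (by omega) (hq i), List.length_cons, List.length_cons, List.length_nil]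
      ring
  unfold eqV eqRight
  rw [List.length_append, this _ (by simp), List.length_append, List.length_append,
    List.length_replicate, List.length_replicate, List.length_range]
  have : (Formula.not (Formula.var 0)).encode.length = 3 := by simp [Formula.encode, bin]
  rw [this]
  ring

theorem length_eqFormula {r m : ℕ} (hm : m ≤ 2 ^ r) (pads : List Formula) (p q : ℕ → ℕ)
    (hp : ∀ i, p i < 2 ^ r) (hq : ∀ i, q i < 2 ^ r) :
    (eqFormula r m pads p q).encode.length = m * (4 * r + 11) + 3 + (acost pads + pads.length) := by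
  rw [encode_eqFormula, List.length_append, List.length_append, length_eqU hm p hp,
    length_eqV hm pads q hq]
  show _ + acost pads + _ = _
  ring

/-- the intended assignment -/
def eqAsg (r : ℕ) (p : ℕ → ℕ) (j : ℕ) : Bool :=
  if j = 0 then true
  else decide ((j + 1 - 2 ^ (2 * r)) % 2 ^ r = p ((j + 1 - 2 ^ (2 * r)) / 2 ^ r))

theorem eqAsg_nmv (r : ℕ) (hr : 1 ≤ r) (p : ℕ → ℕ) (i a : ℕ) (ha : a < 2 ^ r) :
    (nmv r i a).eval (eqAsg r p) = decide (a = p i) := by
  have h0 : 2 ≤ 2 ^ (2 * r) := by
    calc 2 = 2 ^ 1 := rfl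
      _ ≤ 2 ^ (2 * r) := Nat.pow_le_pow_right (by norm_num) (by omega)
  rw [nmv, eval_nm, eqAsg, if_neg (by omega)]
  have h1 : 2 ^ (2 * r) + (i * 2 ^ r + a) - 1 + 1 - 2 ^ (2 * r) = a + 2 ^ r * i := by
    rw [mul_comm i]; omega
  rw [h1, Nat.add_mul_mod_self_left, Nat.mod_eq_of_lt ha, Nat.add_mul_div_left _ _ (by positivity),
    Nat.div_eq_of_lt ha, zero_add]

theorem satisfiable_eqFormula {r m : ℕ} (hr : 1 ≤ r) (pads : List Formula)
    (hpad : ∀ f ∈ pads, ∃ j, f = pad j) (hne : pads ≠ []) (p q : ℕ → ℕ)
    (hp : ∀ i, p i < 2 ^ r) (hq : ∀ i, q i < 2 ^ r) :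
    (eqFormula r m pads p q).Satisfiable ↔ ∃ i < m, p i ≠ q i := by
  constructor
  · rintro ⟨v, hv⟩
    rw [eqFormula, eval_bigAnd, eval_bigOr] at hv
    obtain ⟨h1, h2⟩ := hv
    by_contra hcon
    push Not at hcon
    rcases h2 with ⟨f, hf, hfv⟩ | h2
    · obtain ⟨i, hi, rfl⟩ := List.mem_map.1 hf
      have hi' := List.mem_range.1 hi
      have h3 := h1 (nmv r i (p i)) (by
        rw [List.mem_append]; left
        exact List.mem_map.2 ⟨i, hi, rfl⟩)
      rw [hcon i hi'] at h3
      simp only [Formula.eval, h3] at hfv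
      exact absurd hfv (by simp)
    · obtain ⟨f, hf⟩ := List.exists_mem_of_ne_nil pads hne
      obtain ⟨j, rfl⟩ := hpad f hf
      have h3 := h1 _ (List.mem_append.2 (Or.inr hf))
      rw [eval_pad] at h3
      simp [Formula.eval, h3] at h2
  · rintro ⟨i, hi, hne'⟩
    refine ⟨eqAsg r p, ?_⟩
    rw [eqFormula, eval_bigAnd, eval_bigOr]
    refine ⟨?_, Or.inl ⟨Formula.not (nmv r i (q i)), List.mem_map.2 ⟨i, List.mem_range.2 hi, rfl⟩, ?_⟩⟩
    · intro f hf
      rcases List.mem_append.1 hf with hf | hf
      · obtain ⟨i', -, rfl⟩ := List.mem_map.1 hf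
        rw [eqAsg_nmv r hr p i' _ (hp i')]
        simp
      · obtain ⟨j, rfl⟩ := hpad f hf
        rw [eval_pad]
        simp [eqAsg]
    · simp only [Formula.eval, eqAsg_nmv r hr p i _ (hq i)]
      simp [Ne.symm hne']

end Pool.Agent.H524R2
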