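import Pool.Agent.H524R2.QBound

/-! # The time-space bound for tautologies on quantum one-tape machines -/

namespace Pool.Agent.H524R2

open Finset

/-- An expression is a tautology if every assignment makes it true. -/
def Formula.Tautology (φ : Formula) : Prop := ∀ v : ℕ → Bool, φ.eval v = true

theorem taut_not_iff (φ : Formula) : (Formula.not φ).Tautology ↔ ¬ φ.Satisfiable := by
  unfold Formula.Tautology Formula.Satisfiable
  simp [Formula.eval]

theorem sign_rank_bound_neg {m : ℕ} {ι : Type} [Fintype ι] (α : ι → (Fin m → Bool) → ℝ)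
    (β : ι → (Fin m → Bool) → ℝ) (θ : ℝ)
    (h : ∀ x y, θ < ∑ i, α i x * β i y ↔ ¬ 0 < ipSign x y) :
    (2 : ℝ) ^ m ≤ (Fintype.card ι + 1) ^ 2 := by
  classical
  -- a strict threshold
  let S : Finset ((Fin m → Bool) × (Fin m → Bool)) :=
    Finset.univ.filter (fun p => θ < ∑ i, α i p.1 * β i p.2)
  obtain ⟨θ', hθ1, hθ2⟩ : ∃ θ' : ℝ, θ < θ' ∧ ∀ x y, θ < ∑ i, α i x * β i y →
      θ' ≤ ∑ i, α i x * β i y := by
    by_cases hS : S.Nonempty
    · obtain ⟨p, hp, hmin⟩ := S.exists_min_image (fun p => ∑ i, α i p.1 * β i p.2) hS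
      refine ⟨∑ i, α i p.1 * β i p.2, (Finset.mem_filter.1 hp).2, fun x y hxy => ?_⟩
      exact hmin (x, y) (Finset.mem_filter.2 ⟨Finset.mem_univ _, hxy⟩)
    · refine ⟨θ + 1, by linarith, fun x y hxy => ?_⟩
      exact absurd ⟨(x, y), Finset.mem_filter.2 ⟨Finset.mem_univ _, hxy⟩⟩ hS
  refine sign_rank_bound (fun i x => -α i x) β (-θ') ?_
  intro x y
  have h1 : ∑ i, -α i x * β i y = -∑ i, α i x * β i y := by
    rw [← Finset.sum_neg_distrib]
    exact Finset.sum_congr rfl fun i _ => by ring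
  rw [h1]
  constructor
  · intro h2
    by_contra h3
    have h4 := hθ2 x y ((h x y).2 h3)
    linarith
  · intro h2
    have h3 : ¬ θ < ∑ i, α i x * β i y := fun h4 => (h x y).1 h4 h2
    push Not at h3
    linarith

/-- Quantum lower bound for tautologies, with the length of the expression without its first letter. -/
theorem quantum_taut_aux (n : ℕ) (hn : 2 ^ 22 ≤ n) (Q Γ : Type) [Fintype Q] [Fintype Γ]
    (M : Machine ℂ Sym Q Γ) (θ : ℝ) (T S : ℕ) (hS : 1 ≤ S) (hQ : Fintype.card Q ≤ 2 ^ S)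
    (hM : ∀ φ : Formula, φ.encode.length = n + 1 → (θ < M.acceptProb T φ.encode ↔ φ.Tautology)) :
    (1 / 38400 : ℝ) * n ^ 2 / Real.log n ≤ T * S := by
  obtain ⟨K, m, pads, hK, hK1, hK2, hm1, hk8, hmn, hm6, hpads, hlen, hcost⟩ := params' n hn
  set G := (midWord K m pads).length with hG
  have hGeq : G = m * (18 * (K + 2) + 63) + (2 * (K + 2) + 5) + cost pads := length_midWord hk8 pads
  have hG1 : n ≤ 2 * G := by omega
  have hG2 : G ≤ n := by
    have h1 : m * (20 * K + 112) = m * (18 * (K + 2) + 63) + m * (2 * K + 13) := by ring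
    have h2 : 2 * K + 13 ≤ m * (2 * K + 13) := by nlinarith
    omega
  have hg : 1 ≤ m * (K + 4) := by nlinarith
  -- the decomposition
  obtain ⟨ι, hι, α, β, hcard, hdec⟩ := QM.decompQ M (X := Fin m → Bool) (Y := Fin m → Bool)
    (m * (K + 4) + 1) G T (by omega) (by omega) (fun x => Sym.not :: uWord K m (ext x))
    (midWord K m pads) (fun y => vWord K m pads (ext y))
    (fun x => by rw [List.length_cons, length_uWord hk8]) rfl
  have hsign : ∀ x y : Fin m → Bool, θ < ∑ i, α i x * β i y ↔ ¬ 0 < ipSign x y := by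
    intro x y
    have h1 : (Sym.not :: uWord K m (ext x)) ++ midWord K m pads ++ vWord K m pads (ext y)
        = (Formula.not (ipFormula K m pads (ext x) (ext y))).encode := by
      rw [Formula.encode, encode_ipFormula]; rfl
    rw [← hdec, h1, ipSign_pos_iff,
      ← satisfiable_ipFormula K m (by omega) pads hpads (ext x) (ext y), ← taut_not_iff]
    exact hM _ (by rw [Formula.encode, List.length_cons, length_ipFormula hk8]; omega)
  have hrank := sign_rank_bound_neg α β θ hsign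
  have hrank' : 2 ^ m ≤ (Fintype.card ι + 1) ^ 2 := by exact_mod_cast hrank
  -- trivial case
  have hn22 : 2 ^ 22 ≤ n := hn
  have hn1 : (1 : ℝ) < n := by
    have : (1 : ℕ) < 2 ^ 22 := by norm_num
    exact_mod_cast lt_of_lt_of_le this hn
  have hnpos : (0 : ℝ) < n := by linarith
  have hlogpos : 0 < Real.log n := Real.log_pos hn1
  have hlog2 : (1 / 2 : ℝ) ≤ Real.log 2 := by
    have := Real.log_two_gt_d9
    linarith
  have hKlog : (K : ℝ) * Real.log 2 ≤ Real.log n := by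
    rw [← Real.log_pow]
    refine Real.log_le_log (by positivity) ?_
    exact_mod_cast hK1
  have hlogK : (K : ℝ) ≤ 2 * Real.log n := by
    have : (0 : ℝ) ≤ K := Nat.cast_nonneg K
    nlinarith
  have hK22 : (22 : ℝ) ≤ K := by exact_mod_cast hK
  by_cases hT : n ^ 2 ≤ T
  · have h1 : (n : ℝ) ^ 2 ≤ T := by exact_mod_cast hT
    have h2 : (1 : ℝ) ≤ S := by exact_mod_cast hS
    have h3 : (n : ℝ) ^ 2 ≤ T * S := by
      calc (n : ℝ) ^ 2 ≤ T := h1
        _ = T * 1 := by ring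
        _ ≤ T * S := by gcongr
    refine le_trans ?_ h3
    rw [div_le_iff₀ hlogpos]
    have h4 : (11 : ℝ) ≤ Real.log n := by linarith
    have h5 : (0 : ℝ) ≤ (n : ℝ) ^ 2 := by positivity
    nlinarith
  push Not at hT
  -- the size of the index set
  set E := (2 * T + 1) / G with hE
  have hq : (4 * Fintype.card Q + 1) ^ E ≤ 2 ^ (4 * S * E) := by
    rw [pow_mul]
    refine Nat.pow_le_pow_left ?_ _
    have h1 : 1 ≤ 2 ^ S := Nat.one_le_two_pow
    calc 4 * Fintype.card Q + 1 ≤ 2 ^ S * 2 ^ 3 := by omega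
      _ = 2 ^ (S + 3) := by rw [pow_add]
      _ ≤ 2 ^ (4 * S) := Nat.pow_le_pow_right (by norm_num) (by omega)
  have hc1 : Fintype.card ι + 1 ≤ 2 ^ (5 * K + 8 + 4 * S * E) := by
    have hpos : 1 ≤ 2 ^ (4 * S * E) := Nat.one_le_two_pow
    have h1 : 2 * (T + 1) * (G * (2 * T + 2)) ≤ 2 ^ (5 * K + 7) := by
      calc 2 * (T + 1) * (G * (2 * T + 2)) = 4 * ((T + 1) * (T + 1)) * G := by ring
        _ ≤ 4 * (n ^ 2 * n ^ 2) * n := by
            refine Nat.mul_le_mul (Nat.mul_le_mul_left _ (Nat.mul_le_mul ?_ ?_)) hG2 <;> omega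
        _ = 4 * n ^ 5 := by ring
        _ ≤ 4 * (2 ^ (K + 1)) ^ 5 := Nat.mul_le_mul_left _ (Nat.pow_le_pow_left hK2.le 5)
        _ = 2 ^ (5 * K + 7) := by
            rw [← pow_mul, show (4 : ℕ) = 2 ^ 2 by norm_num, ← pow_add]; congr 1; ring
    calc Fintype.card ι + 1
        ≤ 2 * (T + 1) * (G * (2 * T + 2) * (4 * Fintype.card Q + 1) ^ E) + 1 := by omega
      _ = 2 * (T + 1) * (G * (2 * T + 2)) * (4 * Fintype.card Q + 1) ^ E + 1 := by ring
      _ ≤ 2 ^ (5 * K + 7) * 2 ^ (4 * S * E) + 2 ^ (5 * K + 7) * 2 ^ (4 * S * E) := by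
          refine Nat.add_le_add (Nat.mul_le_mul h1 hq) ?_
          exact Nat.one_le_iff_ne_zero.2 (by positivity)
      _ = 2 ^ (5 * K + 8 + 4 * S * E) := by
          rw [← pow_add, ← two_mul, ← pow_succ']; congr 1; ring
  have hexp : m ≤ 2 * (5 * K + 8 + 4 * S * E) := by
    have h1 : 2 ^ m ≤ 2 ^ (2 * (5 * K + 8 + 4 * S * E)) := by
      calc 2 ^ m ≤ (Fintype.card ι + 1) ^ 2 := hrank'
        _ ≤ (2 ^ (5 * K + 8 + 4 * S * E)) ^ 2 := Nat.pow_le_pow_left hc1 2
        _ = _ := by rw [← pow_mul, mul_comm]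
    exact (Nat.pow_le_pow_iff_right (by norm_num)).1 h1
  -- conclusion in the natural numbers
  have h1 : m - 10 * K - 16 ≤ 8 * (S * E) := by
    have : 2 * (5 * K + 8 + 4 * S * E) = 10 * K + 16 + 8 * (S * E) := by ring
    omega
  have h2 : E * n ≤ 6 * T := by
    rcases Nat.eq_zero_or_pos T with h0 | h0
    · have : E = 0 := by
        rw [hE, h0]
        exact Nat.div_eq_of_lt (by omega)
      rw [this]; omega
    · calc E * n ≤ E * (2 * G) := Nat.mul_le_mul_left _ hG1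
        _ = 2 * (E * G) := by ring
        _ ≤ 2 * (2 * T + 1) := Nat.mul_le_mul_left _ (Nat.div_mul_le_self _ G)
        _ ≤ 6 * T := by omega
  have h3 : n * n ≤ 19200 * K * (T * S) := by
    calc n * n ≤ 400 * K * (m - 10 * K - 16) * n := Nat.mul_le_mul_right n hmn
      _ ≤ 400 * K * (8 * (S * E)) * n := by gcongr
      _ = 3200 * K * S * (E * n) := by ring
      _ ≤ 3200 * K * S * (6 * T) := by gcongr
      _ = 19200 * K * (T * S) := by ring
  have h4 : (n : ℝ) * n ≤ 19200 * K * (T * S) := by exact_mod_cast h3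
  rw [div_le_iff₀ hlogpos]
  have h5 : (0 : ℝ) ≤ (T : ℝ) * S := by positivity
  have h6 : 19200 * (K : ℝ) * (T * S) ≤ 19200 * (2 * Real.log n) * (T * S) := by gcongr
  nlinarith


/-- **Quantum lower bound for tautologies.** -/
theorem quantum_taut (n : ℕ) (hn : 2 ^ 23 ≤ n) (Q Γ : Type) [Fintype Q] [Fintype Γ]
    (M : Machine ℂ Sym Q Γ) (θ : ℝ) (T S : ℕ) (hS : 1 ≤ S) (hQ : Fintype.card Q ≤ 2 ^ S)
    (hM : ∀ φ : Formula, φ.encode.length = n → (θ < M.acceptProb T φ.encode ↔ φ.Tautology)) :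
    (1 / 40000 : ℝ) * n ^ 2 / Real.log n ≤ T * S := by
  obtain ⟨N, rfl⟩ : ∃ N, n = N + 1 := ⟨n - 1, by omega⟩
  have h23 : (2 : ℕ) ^ 23 = 8388608 := by norm_num
  rw [h23] at hn
  have hN : 2 ^ 22 ≤ N := by
    have : (2 : ℕ) ^ 22 = 4194304 := by norm_num
    omega
  refine le_trans ?_ (quantum_taut_aux N hN Q Γ M θ T S hS hQ hM)
  have hN0 : (4000000 : ℝ) ≤ N := by
    have : 4000000 ≤ N := by omega
    exact_mod_cast this
  have hl0 : 0 < Real.log N := Real.log_pos (by linarith)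
  have hl1 : Real.log N ≤ Real.log ((N + 1 : ℕ) : ℝ) := by
    refine Real.log_le_log (by linarith) ?_
    push_cast
    linarith
  have h1 : (1 / 40000 : ℝ) * ((N + 1 : ℕ) : ℝ) ^ 2 ≤ (1 / 38400 : ℝ) * (N : ℝ) ^ 2 := by
    push_cast
    have h2 : (N : ℝ) + 1 ≤ (101 / 100) * N := by linarith
    have h3 : ((N : ℝ) + 1) ^ 2 ≤ ((101 / 100) * N) ^ 2 := pow_le_pow_left₀ (by linarith) h2 2
    have h4 : ((101 / 100) * (N : ℝ)) ^ 2 = (10201 / 10000) * (N : ℝ) ^ 2 := by ring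
    have h5 : (0 : ℝ) ≤ (N : ℝ) ^ 2 := sq_nonneg _
    rw [h4] at h3
    linarith
  calc (1 / 40000 : ℝ) * ((N + 1 : ℕ) : ℝ) ^ 2 / Real.log ((N + 1 : ℕ) : ℝ)
      ≤ (1 / 40000 : ℝ) * ((N + 1 : ℕ) : ℝ) ^ 2 / Real.log N := by
        gcongr
    _ ≤ (1 / 38400 : ℝ) * (N : ℝ) ^ 2 / Real.log N := by
        gcongr

end Pool.Agent.H524R2
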