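import Pool.Agent.H524R2.EqBound
import Pool.Agent.H524R2.QTaut

/-! # The time-space bound for tautologies in the nonzero-weight modes -/

namespace Pool.Agent.H524R2

open Finset

/-- Lower bound for tautologies, nonzero-weight mode, with the length of the expression without its
first letter. -/
theorem nonzero_taut_aux (n : ℕ) (hn : 2 ^ 22 ≤ n) (K Q Γ : Type) [Field K] [Fintype Q] [Fintype Γ]
    (M : Machine K Sym Q Γ) (T S : ℕ) (hS : 1 ≤ S) (hQ : Fintype.card Q ≤ 2 ^ S)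
    (hM : ∀ φ : Formula, φ.encode.length = n + 1 → (M.run T φ.encode ≠ 0 ↔ φ.Tautology)) :
    n ^ 2 ≤ 320 * (T * S) := by
  obtain ⟨k, r, pads, hK, hK1, hK2, hr1, hn64, haux, hpads, hne, hlen, hcost⟩ := params2 n hn
  have h2r : 0 < 2 ^ r := by positivity
  set G := (eqMid pads).length with hG
  have hGeq : G = acost pads := rfl
  have hG1 : n ≤ 2 * G := by omega
  have hG2 : G ≤ n := by omega
  have hg : 1 ≤ 2 ^ r * (2 * r + 4) := by nlinarith
  obtain ⟨ι, hι, α, β, hcard, hdec⟩ := decomp M (X := Fin (2 ^ r) → Fin (2 ^ r))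
    (Y := Fin (2 ^ r) → Fin (2 ^ r))
    (2 ^ r * (2 * r + 4) + 1) G T (by omega) (by omega)
    (fun p => Sym.not :: eqU r (2 ^ r) (extF p)) (eqMid pads)
    (fun q => eqV r (2 ^ r) pads (extF q))
    (fun p => by rw [List.length_cons, length_eqU le_rfl _ (extF_lt h2r p)]) rfl
  have hdiag : ∀ p q : Fin (2 ^ r) → Fin (2 ^ r), ∑ i, α i p * β i q ≠ 0 ↔ p = q := by
    intro p q
    have h1 : (Sym.not :: eqU r (2 ^ r) (extF p)) ++ eqMid pads ++ eqV r (2 ^ r) pads (extF q)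
        = (Formula.not (eqFormula r (2 ^ r) pads (extF p) (extF q))).encode := by
      rw [Formula.encode, encode_eqFormula]; rfl
    rw [← hdec, h1, hM _ (by
      rw [Formula.encode, List.length_cons,
        length_eqFormula le_rfl pads _ _ (extF_lt h2r p) (extF_lt h2r q)]; omega),
      taut_not_iff, satisfiable_eqFormula hr1 pads hpads hne _ _ (extF_lt h2r p) (extF_lt h2r q),
      exists_extF_ne, not_not]
  have hrank := card_le_of_diag α β hdiag
  have hX : Fintype.card (Fin (2 ^ r) → Fin (2 ^ r)) = 2 ^ (r * 2 ^ r) := by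
    simp [← pow_mul]
  rw [hX] at hrank
  by_cases hT : n ^ 2 ≤ T
  · calc n ^ 2 ≤ T := hT
      _ ≤ T * S := Nat.le_mul_of_pos_right _ (by omega)
      _ ≤ 320 * (T * S) := Nat.le_mul_of_pos_left _ (by norm_num)
  push Not at hT
  have hq : (Fintype.card Q + 1) ^ (T / G) ≤ 2 ^ (2 * S * (T / G)) := by
    rw [pow_mul]
    refine Nat.pow_le_pow_left ?_ _
    calc Fintype.card Q + 1 ≤ 2 ^ S + 2 ^ S := by
          have : 1 ≤ 2 ^ S := Nat.one_le_two_pow
          omega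
      _ = 2 ^ (S + 1) := by rw [pow_succ]; ring
      _ ≤ 2 ^ (2 * S) := Nat.pow_le_pow_right (by norm_num) (by omega)
  have hc1 : 2 ^ (r * 2 ^ r) ≤ 2 ^ (3 * k + 3 + 2 * S * (T / G)) := by
    have h1 : G * (T + 1) ≤ 2 ^ (3 * k + 3) := by
      calc G * (T + 1) ≤ n * n ^ 2 := Nat.mul_le_mul hG2 (by omega)
        _ = n ^ 3 := by ring
        _ ≤ (2 ^ (k + 1)) ^ 3 := Nat.pow_le_pow_left hK2.le 3
        _ = 2 ^ (3 * k + 3) := by rw [← pow_mul]; congr 1; ring
    calc 2 ^ (r * 2 ^ r) ≤ Fintype.card ι := hrank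
      _ ≤ G * (T + 1) * (Fintype.card Q + 1) ^ (T / G) := hcard
      _ ≤ 2 ^ (3 * k + 3) * 2 ^ (2 * S * (T / G)) := Nat.mul_le_mul h1 hq
      _ = _ := by rw [← pow_add]
  have hexp : r * 2 ^ r ≤ 3 * k + 3 + 2 * S * (T / G) :=
    (Nat.pow_le_pow_iff_right (by norm_num)).1 hc1
  have h2 : (T / G) * n ≤ 2 * T := by
    calc (T / G) * n ≤ (T / G) * (2 * G) := Nat.mul_le_mul_left _ hG1
      _ = 2 * (T / G * G) := by ring
      _ ≤ 2 * T := Nat.mul_le_mul_left _ (Nat.div_mul_le_self T G)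
  -- n ≤ 160 * S * (T / G)
  have h3 : n ≤ 160 * (S * (T / G)) := by
    have : 2 * S * (T / G) = 2 * (S * (T / G)) := by ring
    omega
  calc n ^ 2 = n * n := sq n
    _ ≤ 160 * (S * (T / G)) * n := Nat.mul_le_mul_right n h3
    _ = 160 * S * ((T / G) * n) := by ring
    _ ≤ 160 * S * (2 * T) := Nat.mul_le_mul_left _ h2
    _ = 320 * (T * S) := by ring

/-- **Lower bound for tautologies, in the nonzero-weight mode over a field.** -/
theorem nonzero_taut (n : ℕ) (hn : 2 ^ 23 ≤ n) (K Q Γ : Type) [Field K] [Fintype Q] [Fintype Γ]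
    (M : Machine K Sym Q Γ) (T S : ℕ) (hS : 1 ≤ S) (hQ : Fintype.card Q ≤ 2 ^ S)
    (hM : ∀ φ : Formula, φ.encode.length = n → (M.run T φ.encode ≠ 0 ↔ φ.Tautology)) :
    n ^ 2 ≤ 321 * (T * S) := by
  obtain ⟨N, rfl⟩ : ∃ N, n = N + 1 := ⟨n - 1, by
    have : 0 < 2 ^ 23 := by positivity
    omega⟩
  have h23 : (2 : ℕ) ^ 23 = 8388608 := by norm_num
  rw [h23] at hn
  have hN : 2 ^ 22 ≤ N := by
    have : (2 : ℕ) ^ 22 = 4194304 := by norm_num
    omega
  have h1 := nonzero_taut_aux N hN K Q Γ M T S hS hQ hM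
  have h2 : 640 * (2 * N + 1) ≤ N ^ 2 := by nlinarith
  have h3 : 320 * (N + 1) ^ 2 ≤ 321 * N ^ 2 := by nlinarith
  have h4 : 320 * (N + 1) ^ 2 ≤ 320 * (321 * (T * S)) := by
    calc 320 * (N + 1) ^ 2 ≤ 321 * N ^ 2 := h3
      _ ≤ 321 * (320 * (T * S)) := Nat.mul_le_mul_left _ h1
      _ = 320 * (321 * (T * S)) := by ring
  omega

end Pool.Agent.H524R2
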