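import Pool.Agent.H524R2.Machine

/-! # The factorisation of the computations at a boundary -/

namespace Pool.Agent.H524R2

open Finset Function

section

variable {K A Q Γ : Type} [Fintype Q] [Fintype Γ] [CommSemiring K]

/-! ### Lists of length at most `k` -/

open Classical in
/-- lists of length at most `k` -/
noncomputable def lists (Q : Type) [Fintype Q] : ℕ → Finset (List Q)
  | 0 => {[]}
  | k + 1 => insert [] ((univ ×ˢ lists Q k).image (fun p : Q × List Q => p.1 :: p.2))

theorem card_lists_le (k : ℕ) : (lists Q k).card ≤ (Fintype.card Q + 1) ^ k := by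
  classical
  induction k with
  | zero => simp [lists]
  | succ k ih =>
    unfold lists
    refine (Finset.card_insert_le _ _).trans ?_
    have h1 := Finset.card_image_le (s := (univ ×ˢ lists Q k)) (f := fun p : Q × List Q => p.1 :: p.2)
    rw [Finset.card_product, Finset.card_univ] at h1
    have h2 : 1 ≤ (Fintype.card Q + 1) ^ k := Nat.one_le_pow _ _ (by omega)
    have h3 : Fintype.card Q * (lists Q k).card ≤ Fintype.card Q * (Fintype.card Q + 1) ^ k :=
      Nat.mul_le_mul_left _ ih
    rw [pow_succ, mul_add, mul_one]
    nlinarith

theorem sum_lists_succ (k : ℕ) (f : List Q → K) :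
    ∑ c ∈ lists Q (k + 1), f c = f [] + ∑ p : Q, ∑ c ∈ lists Q k, f (p :: c) := by
  classical
  rw [lists, Finset.sum_insert (by simp), Finset.sum_image, Finset.sum_product]
  intro x _ y _ hxy
  simp only [List.cons.injEq] at hxy
  exact Prod.ext hxy.1 hxy.2

theorem sum_lists_zero (f : List Q → K) : ∑ c ∈ lists Q 0, f c = f [] := by
  classical
  simp [lists]

theorem nil_mem_lists (k : ℕ) : ([] : List Q) ∈ lists Q k := by
  classical
  cases k <;> simp [lists]

/-! ### The two halves of a computation -/

open Classical in
/-- The part of the computations to the left of the boundary `b`, the head being on the left. -/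
noncomputable def lft (M : Machine K A Q Γ) (b : ℤ) (ok : (ℤ → ℕ) → Prop) :
    ℕ → List Q → Q → ℤ → (ℤ → Γ) → (ℤ → ℕ) → K
  | 0, c, q, _, _, cnt => if c = [] ∧ q ∈ M.accepting ∧ ok cnt then 1 else 0
  | t + 1, c, q, h, τ, cnt => ∑ o : Q × Γ × Move, M.weight q (τ h) o *
      (if h + o.2.2.delta < b then
        lft M b ok t c o.1 (h + o.2.2.delta) (update τ h o.2.1) (bump cnt h (h + o.2.2.delta))
      else match c with
        | [] => 0
        | p :: c' => if p = o.1 then
            (match c' with
              | [] => if t = 0 ∧ ok cnt then 1 else 0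
              | p' :: c'' => lft M b ok t c'' p' (b - 1) (update τ h o.2.1) cnt)
            else 0)

open Classical in
/-- The part of the computations to the left of the boundary `b`, the head being on the right. -/
noncomputable def lftW (M : Machine K A Q Γ) (b : ℤ) (ok : (ℤ → ℕ) → Prop)
    (t : ℕ) (c : List Q) (τ : ℤ → Γ) (cnt : ℤ → ℕ) : K :=
  match c with
  | [] => if t = 0 ∧ ok cnt then 1 else 0
  | p :: c' => lft M b ok t c' p (b - 1) τ cnt

open Classical in
theorem lft_succ (M : Machine K A Q Γ) (b : ℤ) (ok : (ℤ → ℕ) → Prop)
    (t : ℕ) (c : List Q) (q : Q) (h : ℤ) (τ : ℤ → Γ) (cnt : ℤ → ℕ) :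
    lft M b ok (t + 1) c q h τ cnt = ∑ o : Q × Γ × Move, M.weight q (τ h) o *
      (if h + o.2.2.delta < b then
        lft M b ok t c o.1 (h + o.2.2.delta) (update τ h o.2.1) (bump cnt h (h + o.2.2.delta))
      else match c with
        | [] => 0
        | p :: c' => if p = o.1 then lftW M b ok t c' (update τ h o.2.1) cnt else 0) := by
  rw [lft]
  refine Finset.sum_congr rfl fun o _ => ?_
  congr 1

open Classical in
/-- The part of the computations to the right of the boundary `b`, the head being on the right. -/
noncomputable def rgt (M : Machine K A Q Γ) (b : ℤ) :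
    ℕ → List Q → Q → ℤ → (ℤ → Γ) → K
  | 0, c, q, _, _ => if c = [] ∧ q ∈ M.accepting then 1 else 0
  | t + 1, c, q, h, τ => ∑ o : Q × Γ × Move, M.weight q (τ h) o *
      (if b ≤ h + o.2.2.delta then
        rgt M b t c o.1 (h + o.2.2.delta) (update τ h o.2.1)
      else match c with
        | [] => 0
        | p :: c' => if p = o.1 then
            (match c' with
              | [] => if t = 0 then 1 else 0
              | p' :: c'' => rgt M b t c'' p' b (update τ h o.2.1))
            else 0)

/-- The part of the computations to the right of the boundary `b`, the head being on the left. -/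
noncomputable def rgtW (M : Machine K A Q Γ) (b : ℤ)
    (t : ℕ) (c : List Q) (τ : ℤ → Γ) : K :=
  match c with
  | [] => if t = 0 then 1 else 0
  | p :: c' => rgt M b t c' p b τ

open Classical in
theorem rgt_succ (M : Machine K A Q Γ) (b : ℤ)
    (t : ℕ) (c : List Q) (q : Q) (h : ℤ) (τ : ℤ → Γ) :
    rgt M b (t + 1) c q h τ = ∑ o : Q × Γ × Move, M.weight q (τ h) o *
      (if b ≤ h + o.2.2.delta then
        rgt M b t c o.1 (h + o.2.2.delta) (update τ h o.2.1)
      else match c with
        | [] => 0
        | p :: c' => if p = o.1 then rgtW M b t c' (update τ h o.2.1) else 0) := by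
  rw [rgt]
  refine Finset.sum_congr rfl fun o _ => ?_
  congr 1

/-! ### Locality -/

theorem update_agree_lt {Γ : Type} {b h : ℤ} {τ τ' : ℤ → Γ} (hτ : ∀ i < b, τ i = τ' i) (a : Γ) :
    ∀ i < b, update τ h a i = update τ' h a i := by
  intro i hi
  by_cases hih : i = h
  · subst hih; simp
  · rw [update_of_ne hih, update_of_ne hih, hτ i hi]

theorem update_agree_ge {Γ : Type} {b h : ℤ} {τ τ' : ℤ → Γ} (hτ : ∀ i, b ≤ i → τ i = τ' i) (a : Γ) :
    ∀ i, b ≤ i → update τ h a i = update τ' h a i := by
  intro i hi
  by_cases hih : i = h
  · subst hih; simp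
  · rw [update_of_ne hih, update_of_ne hih, hτ i hi]

theorem bump_agree_lt {b h h' : ℤ} {cnt cnt' : ℤ → ℕ} (hc : ∀ i < b, cnt i = cnt' i) :
    ∀ i < b, bump cnt h h' i = bump cnt' h h' i := by
  intro i hi
  unfold bump
  split_ifs with hh
  · exact hc i hi
  · by_cases hih : i = max h h'
    · subst hih; simp [hc _ hi]
    · rw [update_of_ne hih, update_of_ne hih, hc i hi]

theorem lft_congr (M : Machine K A Q Γ) (b : ℤ) (ok : (ℤ → ℕ) → Prop)
    (hok : ∀ cnt cnt' : ℤ → ℕ, (∀ i < b, cnt i = cnt' i) → (ok cnt ↔ ok cnt'))
    (t : ℕ) (c : List Q) (q : Q) (h : ℤ) (τ τ' : ℤ → Γ) (cnt cnt' : ℤ → ℕ) (hh : h < b)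
    (hτ : ∀ i < b, τ i = τ' i) (hc : ∀ i < b, cnt i = cnt' i) :
    lft M b ok t c q h τ cnt = lft M b ok t c q h τ' cnt' := by
  classical
  induction t generalizing c q h τ τ' cnt cnt' with
  | zero => simp only [lft, hok cnt cnt' hc]
  | succ t ih =>
    rw [lft_succ, lft_succ, hτ h hh]
    refine Finset.sum_congr rfl fun o _ => ?_
    congr 1
    by_cases h1 : h + o.2.2.delta < b
    · rw [if_pos h1, if_pos h1]
      exact ih _ _ _ _ _ _ _ h1 (update_agree_lt hτ _) (bump_agree_lt hc)
    · rw [if_neg h1, if_neg h1]
      cases c with
      | nil => rfl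
      | cons p c' =>
        dsimp only
        split_ifs with hp
        · cases c' with
          | nil => simp only [lftW, hok cnt cnt' hc]
          | cons p' c'' =>
            exact ih _ _ _ _ _ _ _ (by omega) (update_agree_lt hτ _) hc
        · rfl

theorem lftW_congr (M : Machine K A Q Γ) (b : ℤ) (ok : (ℤ → ℕ) → Prop)
    (hok : ∀ cnt cnt' : ℤ → ℕ, (∀ i < b, cnt i = cnt' i) → (ok cnt ↔ ok cnt'))
    (t : ℕ) (c : List Q) (τ τ' : ℤ → Γ) (cnt cnt' : ℤ → ℕ)
    (hτ : ∀ i < b, τ i = τ' i) (hc : ∀ i < b, cnt i = cnt' i) :
    lftW M b ok t c τ cnt = lftW M b ok t c τ' cnt' := by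
  classical
  cases c with
  | nil => simp only [lftW, hok cnt cnt' hc]
  | cons p c => exact lft_congr M b ok hok _ _ _ _ _ _ _ _ (by omega) hτ hc

theorem rgt_congr (M : Machine K A Q Γ) (b : ℤ)
    (t : ℕ) (c : List Q) (q : Q) (h : ℤ) (τ τ' : ℤ → Γ) (hh : b ≤ h)
    (hτ : ∀ i, b ≤ i → τ i = τ' i) :
    rgt M b t c q h τ = rgt M b t c q h τ' := by
  classical
  induction t generalizing c q h τ τ' with
  | zero => simp only [rgt]
  | succ t ih =>
    rw [rgt_succ, rgt_succ, hτ h hh]
    refine Finset.sum_congr rfl fun o _ => ?_
    congr 1
    by_cases h1 : b ≤ h + o.2.2.delta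
    · rw [if_pos h1, if_pos h1]
      exact ih _ _ _ _ _ h1 (update_agree_ge hτ _)
    · rw [if_neg h1, if_neg h1]
      cases c with
      | nil => rfl
      | cons p c' =>
        dsimp only
        split_ifs with hp
        · cases c' with
          | nil => rfl
          | cons p' c'' =>
            exact ih _ _ _ _ _ le_rfl (update_agree_ge hτ _)
        · rfl

theorem rgtW_congr (M : Machine K A Q Γ) (b : ℤ)
    (t : ℕ) (c : List Q) (τ τ' : ℤ → Γ)
    (hτ : ∀ i, b ≤ i → τ i = τ' i) :
    rgtW M b t c τ = rgtW M b t c τ' := by
  cases c with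
  | nil => rfl
  | cons p c => exact rgt_congr M b _ _ _ _ _ _ le_rfl hτ

/-! ### The factorisation -/

theorem delta_le_one (d : Move) : d.delta ≤ 1 := by cases d <;> simp [Move.delta]
theorem neg_one_le_delta (d : Move) : -1 ≤ d.delta := by cases d <;> simp [Move.delta]

open Classical in
/-- the final weight of the monitored computations -/
noncomputable def fin (M : Machine K A Q Γ) (b : ℤ) (ℓ : ℕ) (ok : (ℤ → ℕ) → Prop) :
    Q → (ℤ → ℕ) → K :=
  fun q cnt => if q ∈ M.accepting ∧ cnt b ≤ ℓ ∧ ok cnt then 1 else 0

theorem bump_le_apply (cnt : ℤ → ℕ) (h h' b : ℤ) : cnt b ≤ bump cnt h h' b := by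
  unfold bump
  split_ifs with hh
  · exact le_rfl
  · by_cases hb : b = max h h'
    · rw [← hb]; simp
    · rw [update_of_ne hb]

theorem mval_eq_zero (M : Machine K A Q Γ) (b : ℤ) (ℓ : ℕ) (ok : (ℤ → ℕ) → Prop)
    (t : ℕ) (q : Q) (h : ℤ) (τ : ℤ → Γ) (cnt : ℤ → ℕ) (hc : ℓ < cnt b) :
    mval M (fin M b ℓ ok) t q h τ cnt = 0 := by
  induction t generalizing q h τ cnt with
  | zero =>
    simp only [mval, fin]
    rw [if_neg]
    rintro ⟨_, h1, _⟩
    omega
  | succ t ih =>
    simp only [mval]
    refine Finset.sum_eq_zero fun o _ => ?_
    rw [ih, mul_zero]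
    exact lt_of_lt_of_le hc (bump_le_apply _ _ _ _)

theorem factor (M : Machine K A Q Γ) (b : ℤ) (ℓ : ℕ) (ok : (ℤ → ℕ) → Prop)
    (hok : ∀ cnt cnt' : ℤ → ℕ, (∀ i < b, cnt i = cnt' i) → (ok cnt ↔ ok cnt')) (t : ℕ) :
    (∀ (q : Q) (h : ℤ) (τ : ℤ → Γ) (cnt : ℤ → ℕ) (k : ℕ), h < b → cnt b + k = ℓ →
      mval M (fin M b ℓ ok) t q h τ cnt =
        ∑ c ∈ lists Q k, ∑ p ∈ antidiagonal t, lft M b ok p.1 c q h τ cnt * rgtW M b p.2 c τ) ∧
    (∀ (q : Q) (h : ℤ) (τ : ℤ → Γ) (cnt : ℤ → ℕ) (k : ℕ), b ≤ h → cnt b + k = ℓ →
      mval M (fin M b ℓ ok) t q h τ cnt =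
        ∑ c ∈ lists Q k, ∑ p ∈ antidiagonal t, lftW M b ok p.1 c τ cnt * rgt M b p.2 c q h τ) := by
  classical
  induction t with
  | zero =>
    constructor
    · intro q h τ cnt k hh hk
      simp only [Finset.Nat.antidiagonal_zero, sum_singleton]
      rw [Finset.sum_eq_single []]
      · simp only [mval, fin, lft, rgtW, true_and, if_true, mul_one]
        have : cnt b ≤ ℓ := by omega
        simp [this]
      · intro c _ hc
        simp [lft, hc]
      · intro hn; exact absurd (nil_mem_lists k) hn
    · intro q h τ cnt k hh hk
      simp only [Finset.Nat.antidiagonal_zero, sum_singleton]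
      rw [Finset.sum_eq_single []]
      · simp only [mval, fin, rgt, lftW, true_and]
        have : cnt b ≤ ℓ := by omega
        by_cases h1 : q ∈ M.accepting <;> by_cases h2 : ok cnt <;> simp [this, h1, h2]
      · intro c _ hc
        simp [rgt, hc]
      · intro hn; exact absurd (nil_mem_lists k) hn
  | succ t ih =>
    obtain ⟨ihL, ihR⟩ := ih
    constructor
    · intro q h τ cnt k hh hk
      -- the terms without a left step vanish
      have key : ∀ c : List Q, ∑ p ∈ antidiagonal (t + 1),
          lft M b ok p.1 c q h τ cnt * rgtW M b p.2 c τ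
          = ∑ p ∈ antidiagonal t, lft M b ok (p.1 + 1) c q h τ cnt * rgtW M b p.2 c τ := by
        intro c
        rw [Finset.Nat.sum_antidiagonal_succ]
        have : lft M b ok 0 c q h τ cnt * rgtW M b (t + 1) c τ = 0 := by
          cases c with
          | nil => simp [rgtW]
          | cons p c => simp [lft]
        simp only [this, zero_add]
      simp only [key]
      simp only [mval]
      simp only [lft_succ, Finset.sum_mul]
      -- move the sum over `o` outside
      have swap : ∀ F : List Q → ℕ × ℕ → Q × Γ × Move → K,
          ∑ c ∈ lists Q k, ∑ p ∈ antidiagonal t, ∑ o, F c p o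
          = ∑ o, ∑ c ∈ lists Q k, ∑ p ∈ antidiagonal t, F c p o := by
        intro F
        rw [Finset.sum_comm' (s := univ) (t := fun _ => lists Q k) (t' := lists Q k)
          (s' := fun _ => univ) (by simp)]
        refine Finset.sum_congr rfl fun c _ => ?_
        rw [Finset.sum_comm]
      rw [swap]
      refine Finset.sum_congr rfl fun o _ => ?_
      set h' := h + o.2.2.delta with hh'
      have hd1 := delta_le_one o.2.2
      by_cases h1 : h' < b
      · have hcb : bump cnt h h' b = cnt b := by
          unfold bump
          split_ifs with hq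
          · rfl
          · rw [update_of_ne]
            have : max h h' < b := max_lt hh h1
            omega
        rw [ihL o.1 h' _ (bump cnt h h') k h1 (by rw [hcb]; exact hk), Finset.mul_sum]
        refine Finset.sum_congr rfl fun c _ => ?_
        rw [Finset.mul_sum]
        refine Finset.sum_congr rfl fun p _ => ?_
        rw [if_pos h1, mul_assoc]
        congr 2
        refine rgtW_congr M b _ _ _ _ fun i hi => ?_
        rw [update_of_ne]
        omega
      · have hb : h' = b := by omega
        have hh1 : h = b - 1 := by omega
        have hne : h ≠ h' := by omega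
        have hmax : max h h' = b := by rw [max_eq_right (by omega)]; exact hb
        have hcnt : bump cnt h h' = update cnt b (cnt b + 1) := by
          unfold bump
          rw [if_neg hne, hmax]
        cases k with
        | zero =>
          rw [mval_eq_zero, mul_zero, sum_lists_zero]
          · symm
            refine Finset.sum_eq_zero fun p _ => ?_
            rw [if_neg h1]
            simp
          · rw [hcnt]; simp; omega
        | succ k =>
          rw [ihR o.1 h' _ (bump cnt h h') k (by omega) (by rw [hcnt]; simp; omega),
            sum_lists_succ]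
          have e0 : ∑ p ∈ antidiagonal t, M.weight q (τ h) o *
              (if h' < b then lft M b ok p.1 [] o.1 h' (update τ h o.2.1) (bump cnt h h')
                else match ([] : List Q) with
                | [] => 0
                | p_1 :: c' => if p_1 = o.1 then lftW M b ok p.1 c' (update τ h o.2.1) cnt else 0)
                * rgtW M b p.2 [] τ = 0 := by
            refine Finset.sum_eq_zero fun p _ => ?_
            rw [if_neg h1]
            simp
          rw [e0, zero_add, Finset.sum_eq_single o.1]
          · rw [Finset.mul_sum]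
            refine Finset.sum_congr rfl fun c _ => ?_
            rw [Finset.mul_sum]
            refine Finset.sum_congr rfl fun p _ => ?_
            rw [if_neg h1]
            dsimp only
            rw [if_pos rfl, mul_assoc]
            congr 1
            congr 1
            · refine lftW_congr M b ok hok _ _ _ _ _ _ (fun i _ => rfl) fun i hi => ?_
              rw [hcnt, update_of_ne (by omega)]
            · rw [rgtW, hb]
              refine rgt_congr M b _ _ _ _ _ _ le_rfl fun i hi => ?_
              rw [update_of_ne]
              omega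
          · intro p _ hp
            refine Finset.sum_eq_zero fun c _ => Finset.sum_eq_zero fun x _ => ?_
            rw [if_neg h1]
            dsimp only
            rw [if_neg hp]
            simp
          · simp
    · intro q h τ cnt k hh hk
      have key : ∀ c : List Q, ∑ p ∈ antidiagonal (t + 1),
          lftW M b ok p.1 c τ cnt * rgt M b p.2 c q h τ
          = ∑ p ∈ antidiagonal t, lftW M b ok p.1 c τ cnt * rgt M b (p.2 + 1) c q h τ := by
        intro c
        rw [Finset.Nat.sum_antidiagonal_succ']
        have : lftW M b ok (t + 1) c τ cnt * rgt M b 0 c q h τ = 0 := by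
          cases c with
          | nil => simp [lftW]
          | cons p c => simp [rgt]
        simp only [this, zero_add]
      simp only [key]
      simp only [mval]
      simp only [rgt_succ, Finset.mul_sum]
      have swap : ∀ F : List Q → ℕ × ℕ → Q × Γ × Move → K,
          ∑ c ∈ lists Q k, ∑ p ∈ antidiagonal t, ∑ o, F c p o
          = ∑ o, ∑ c ∈ lists Q k, ∑ p ∈ antidiagonal t, F c p o := by
        intro F
        rw [Finset.sum_comm' (s := univ) (t := fun _ => lists Q k) (t' := lists Q k)
          (s' := fun _ => univ) (by simp)]
        refine Finset.sum_congr rfl fun c _ => ?_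
        rw [Finset.sum_comm]
      rw [swap]
      refine Finset.sum_congr rfl fun o _ => ?_
      set h' := h + o.2.2.delta with hh'
      have hd1 := neg_one_le_delta o.2.2
      by_cases h1 : b ≤ h'
      · have hcb : bump cnt h h' b = cnt b := by
          unfold bump
          split_ifs with hq
          · rfl
          · rw [update_of_ne]
            intro hb
            rcases lt_or_gt_of_ne hq with h2 | h2
            · rw [max_eq_right h2.le] at hb; omega
            · rw [max_eq_left h2.le] at hb; omega
        rw [ihR o.1 h' _ (bump cnt h h') k h1 (by rw [hcb]; exact hk), Finset.mul_sum]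
        refine Finset.sum_congr rfl fun c _ => ?_
        rw [Finset.mul_sum]
        refine Finset.sum_congr rfl fun p _ => ?_
        rw [if_pos h1]
        have e1 : lftW M b ok p.1 c (update τ h o.2.1) (bump cnt h h') = lftW M b ok p.1 c τ cnt := by
          refine lftW_congr M b ok hok _ _ _ _ _ _ (fun i hi => ?_) fun i hi => ?_
          · rw [update_of_ne]; omega
          · unfold bump
            split_ifs with hq
            · rfl
            · rw [update_of_ne]
              intro hb
              have := le_max_left h h'
              omega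
        rw [e1]
        ring
      · have hb : h' = b - 1 := by omega
        have hh1 : h = b := by omega
        have hne : h ≠ h' := by omega
        have hmax : max h h' = b := by rw [max_eq_left (by omega)]; exact hh1
        have hcnt : bump cnt h h' = update cnt b (cnt b + 1) := by
          unfold bump
          rw [if_neg hne, hmax]
        cases k with
        | zero =>
          rw [mval_eq_zero, mul_zero, sum_lists_zero]
          · symm
            refine Finset.sum_eq_zero fun p _ => ?_
            rw [if_neg h1]
            simp
          · rw [hcnt]; simp; omega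
        | succ k =>
          rw [ihL o.1 h' _ (bump cnt h h') k (by omega) (by rw [hcnt]; simp; omega),
            sum_lists_succ]
          have e0 : ∑ p ∈ antidiagonal t, lftW M b ok p.1 [] τ cnt * (M.weight q (τ h) o *
              (if b ≤ h' then rgt M b p.2 [] o.1 h' (update τ h o.2.1)
                else match ([] : List Q) with
                | [] => 0
                | p_1 :: c' => if p_1 = o.1 then rgtW M b p.2 c' (update τ h o.2.1) else 0))
                = 0 := by
            refine Finset.sum_eq_zero fun p _ => ?_
            rw [if_neg h1]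
            simp
          rw [e0, zero_add, Finset.sum_eq_single o.1]
          · rw [Finset.mul_sum]
            refine Finset.sum_congr rfl fun c _ => ?_
            rw [Finset.mul_sum]
            refine Finset.sum_congr rfl fun p _ => ?_
            rw [if_neg h1]
            dsimp only
            rw [if_pos rfl]
            have e1 : lft M b ok p.1 c o.1 h' (update τ h o.2.1) (bump cnt h h')
                = lftW M b ok p.1 (o.1 :: c) τ cnt := by
              rw [lftW, hb]
              refine lft_congr M b ok hok _ _ _ _ _ _ _ _ (by omega) (fun i hi => ?_) fun i hi => ?_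
              · rw [update_of_ne]; omega
              · rw [← hb, hcnt, update_of_ne (by omega)]
            rw [e1]
            ring
          · intro p _ hp
            refine Finset.sum_eq_zero fun c _ => Finset.sum_eq_zero fun x _ => ?_
            rw [if_neg h1]
            dsimp only
            rw [if_neg hp]
            simp
          · simp

end

end Pool.Agent.H524R2
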