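import Pool.Agent.H524R2.Factor

/-! # The factorisation at a boundary, with a final weight that depends on the tape -/

namespace Pool.Agent.H524R2.G2

open Finset Function Pool.Agent.H524R2

section

variable {K A Q Γ : Type} [Fintype Q] [Fintype Γ] [CommSemiring K]

/-- Like `Machine.value`, with crossing counts and with a final weight that
may depend on the whole final configuration and on the counts. -/
noncomputable def mval (M : Machine K A Q Γ) (Φ : Q → ℤ → (ℤ → Γ) → (ℤ → ℕ) → K) :
    ℕ → Q → ℤ → (ℤ → Γ) → (ℤ → ℕ) → K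
  | 0, q, h, τ, cnt => Φ q h τ cnt
  | t + 1, q, h, τ, cnt => ∑ o : Q × Γ × Move,
      M.weight q (τ h) o * mval M Φ t o.1 (h + o.2.2.delta) (update τ h o.2.1)
        (bump cnt h (h + o.2.2.delta))

theorem mval_sum {ι : Type} (s : Finset ι) (M : Machine K A Q Γ)
    (Φ : ι → Q → ℤ → (ℤ → Γ) → (ℤ → ℕ) → K)
    (t : ℕ) (q : Q) (h : ℤ) (τ : ℤ → Γ) (cnt : ℤ → ℕ) :
    mval M (fun q h τ cnt => ∑ i ∈ s, Φ i q h τ cnt) t q h τ cnt
      = ∑ i ∈ s, mval M (Φ i) t q h τ cnt := by
  induction t generalizing q h τ cnt with
  | zero => simp [mval]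
  | succ t ih =>
    simp only [mval, ih]
    rw [Finset.sum_comm]
    refine Finset.sum_congr rfl fun o _ => ?_
    rw [Finset.mul_sum]

theorem mval_congr_tot (g : ℤ) (G : ℕ) (M : Machine K A Q Γ)
    (Φ Ψ : Q → ℤ → (ℤ → Γ) → (ℤ → ℕ) → K) (N : ℕ)
    (hΦ : ∀ q h τ cnt, tot g G cnt ≤ N → Φ q h τ cnt = Ψ q h τ cnt)
    (t : ℕ) (q : Q) (h : ℤ) (τ : ℤ → Γ) (cnt : ℤ → ℕ) (hc : tot g G cnt + t ≤ N) :
    mval M Φ t q h τ cnt = mval M Ψ t q h τ cnt := by
  induction t generalizing q h τ cnt with
  | zero => simpa [mval] using hΦ q h τ cnt (by simpa using hc)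
  | succ t ih =>
    simp only [mval]
    refine Finset.sum_congr rfl fun o _ => ?_
    rw [ih]
    have := tot_bump_le g G cnt h (h + o.2.2.delta)
    omega

/-! ### The two halves of a computation -/

open Classical in
/-- The part of the computations to the left of the boundary `b`, the head being on the left. -/
noncomputable def lft (M : Machine K A Q Γ) (b : ℤ) (ok : (ℤ → ℕ) → Prop) (ac : Q → ℤ → K) (fL : (ℤ → Γ) → K) :
    ℕ → List Q → Q → ℤ → (ℤ → Γ) → (ℤ → ℕ) → K
  | 0, c, q, h, τ, cnt => if c = [] ∧ ok cnt then ac q h * fL τ else 0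
  | t + 1, c, q, h, τ, cnt => ∑ o : Q × Γ × Move, M.weight q (τ h) o *
      (if h + o.2.2.delta < b then
        lft M b ok ac fL t c o.1 (h + o.2.2.delta) (update τ h o.2.1) (bump cnt h (h + o.2.2.delta))
      else match c with
        | [] => 0
        | p :: c' => if p = o.1 then
            (match c' with
              | [] => if t = 0 ∧ ok cnt then fL (update τ h o.2.1) else 0
              | p' :: c'' => lft M b ok ac fL t c'' p' (b - 1) (update τ h o.2.1) cnt)
            else 0)

open Classical in
/-- The part of the computations to the left of the boundary `b`, the head being on the right. -/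
noncomputable def lftW (M : Machine K A Q Γ) (b : ℤ) (ok : (ℤ → ℕ) → Prop) (ac : Q → ℤ → K) (fL : (ℤ → Γ) → K)
    (t : ℕ) (c : List Q) (τ : ℤ → Γ) (cnt : ℤ → ℕ) : K :=
  match c with
  | [] => if t = 0 ∧ ok cnt then fL τ else 0
  | p :: c' => lft M b ok ac fL t c' p (b - 1) τ cnt

open Classical in
theorem lft_succ (M : Machine K A Q Γ) (b : ℤ) (ok : (ℤ → ℕ) → Prop) (ac : Q → ℤ → K) (fL : (ℤ → Γ) → K)
    (t : ℕ) (c : List Q) (q : Q) (h : ℤ) (τ : ℤ → Γ) (cnt : ℤ → ℕ) :
    lft M b ok ac fL (t + 1) c q h τ cnt = ∑ o : Q × Γ × Move, M.weight q (τ h) o *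
      (if h + o.2.2.delta < b then
        lft M b ok ac fL t c o.1 (h + o.2.2.delta) (update τ h o.2.1) (bump cnt h (h + o.2.2.delta))
      else match c with
        | [] => 0
        | p :: c' => if p = o.1 then lftW M b ok ac fL t c' (update τ h o.2.1) cnt else 0) := by
  rw [lft]
  refine Finset.sum_congr rfl fun o _ => ?_
  congr 1

open Classical in
/-- The part of the computations to the right of the boundary `b`, the head being on the right. -/
noncomputable def rgt (M : Machine K A Q Γ) (b : ℤ) (ac : Q → ℤ → K) (fR : (ℤ → Γ) → K) :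
    ℕ → List Q → Q → ℤ → (ℤ → Γ) → K
  | 0, c, q, h, τ => if c = [] then ac q h * fR τ else 0
  | t + 1, c, q, h, τ => ∑ o : Q × Γ × Move, M.weight q (τ h) o *
      (if b ≤ h + o.2.2.delta then
        rgt M b ac fR t c o.1 (h + o.2.2.delta) (update τ h o.2.1)
      else match c with
        | [] => 0
        | p :: c' => if p = o.1 then
            (match c' with
              | [] => if t = 0 then fR (update τ h o.2.1) else 0
              | p' :: c'' => rgt M b ac fR t c'' p' b (update τ h o.2.1))
            else 0)

/-- The part of the computations to the right of the boundary `b`, the head being on the left. -/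
noncomputable def rgtW (M : Machine K A Q Γ) (b : ℤ) (ac : Q → ℤ → K) (fR : (ℤ → Γ) → K)
    (t : ℕ) (c : List Q) (τ : ℤ → Γ) : K :=
  match c with
  | [] => if t = 0 then fR τ else 0
  | p :: c' => rgt M b ac fR t c' p b τ

open Classical in
theorem rgt_succ (M : Machine K A Q Γ) (b : ℤ) (ac : Q → ℤ → K) (fR : (ℤ → Γ) → K)
    (t : ℕ) (c : List Q) (q : Q) (h : ℤ) (τ : ℤ → Γ) :
    rgt M b ac fR (t + 1) c q h τ = ∑ o : Q × Γ × Move, M.weight q (τ h) o *
      (if b ≤ h + o.2.2.delta then
        rgt M b ac fR t c o.1 (h + o.2.2.delta) (update τ h o.2.1)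
      else match c with
        | [] => 0
        | p :: c' => if p = o.1 then rgtW M b ac fR t c' (update τ h o.2.1) else 0) := by
  rw [rgt]
  refine Finset.sum_congr rfl fun o _ => ?_
  congr 1

/-! ### Locality -/

theorem lft_congr (M : Machine K A Q Γ) (b : ℤ) (ok : (ℤ → ℕ) → Prop) (ac : Q → ℤ → K)
    (fL : (ℤ → Γ) → K)
    (hok : ∀ cnt cnt' : ℤ → ℕ, (∀ i < b, cnt i = cnt' i) → (ok cnt ↔ ok cnt'))
    (hfL : ∀ τ τ' : ℤ → Γ, (∀ i < b, τ i = τ' i) → fL τ = fL τ')
    (t : ℕ) (c : List Q) (q : Q) (h : ℤ) (τ τ' : ℤ → Γ) (cnt cnt' : ℤ → ℕ) (hh : h < b)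
    (hτ : ∀ i < b, τ i = τ' i) (hc : ∀ i < b, cnt i = cnt' i) :
    lft M b ok ac fL t c q h τ cnt = lft M b ok ac fL t c q h τ' cnt' := by
  classical
  induction t generalizing c q h τ τ' cnt cnt' with
  | zero => simp only [lft, hok cnt cnt' hc, hfL τ τ' hτ]
  | succ t ih =>
    rw [lft_succ, lft_succ, hτ h hh]
    refine Finset.sum_congr rfl fun o _ => ?_
    congr 1
    by_cases h1 : h + o.2.2.delta < b
    · rw [if_pos h1, if_pos h1]
      exact ih _ _ _ _ _ _ _ h1 (update_agree_lt hτ _) (bump_agree_lt hc)
    · rw [if_neg h1, if_neg h1]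
      cases c with
      | nil => rfl
      | cons p c' =>
        dsimp only
        split_ifs with hp
        · cases c' with
          | nil => simp only [lftW, hok cnt cnt' hc, hfL _ _ (update_agree_lt hτ o.2.1)]
          | cons p' c'' =>
            exact ih _ _ _ _ _ _ _ (by omega) (update_agree_lt hτ _) hc
        · rfl

theorem lftW_congr (M : Machine K A Q Γ) (b : ℤ) (ok : (ℤ → ℕ) → Prop) (ac : Q → ℤ → K)
    (fL : (ℤ → Γ) → K)
    (hok : ∀ cnt cnt' : ℤ → ℕ, (∀ i < b, cnt i = cnt' i) → (ok cnt ↔ ok cnt'))
    (hfL : ∀ τ τ' : ℤ → Γ, (∀ i < b, τ i = τ' i) → fL τ = fL τ')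
    (t : ℕ) (c : List Q) (τ τ' : ℤ → Γ) (cnt cnt' : ℤ → ℕ)
    (hτ : ∀ i < b, τ i = τ' i) (hc : ∀ i < b, cnt i = cnt' i) :
    lftW M b ok ac fL t c τ cnt = lftW M b ok ac fL t c τ' cnt' := by
  classical
  cases c with
  | nil => simp only [lftW, hok cnt cnt' hc, hfL τ τ' hτ]
  | cons p c => exact lft_congr M b ok ac fL hok hfL _ _ _ _ _ _ _ _ (by omega) hτ hc

theorem rgt_congr (M : Machine K A Q Γ) (b : ℤ) (ac : Q → ℤ → K) (fR : (ℤ → Γ) → K)
    (hfR : ∀ τ τ' : ℤ → Γ, (∀ i, b ≤ i → τ i = τ' i) → fR τ = fR τ')
    (t : ℕ) (c : List Q) (q : Q) (h : ℤ) (τ τ' : ℤ → Γ) (hh : b ≤ h)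
    (hτ : ∀ i, b ≤ i → τ i = τ' i) :
    rgt M b ac fR t c q h τ = rgt M b ac fR t c q h τ' := by
  classical
  induction t generalizing c q h τ τ' with
  | zero => simp only [rgt, hfR τ τ' hτ]
  | succ t ih =>
    rw [rgt_succ, rgt_succ, hτ h hh]
    refine Finset.sum_congr rfl fun o _ => ?_
    congr 1
    by_cases h1 : b ≤ h + o.2.2.delta
    · rw [if_pos h1, if_pos h1]
      exact ih _ _ _ _ _ h1 (update_agree_ge hτ _)
    · rw [if_neg h1, if_neg h1]
      cases c with
      | nil => rfl
      | cons p c' =>
        dsimp only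
        split_ifs with hp
        · cases c' with
          | nil => simp only [rgtW, hfR _ _ (update_agree_ge hτ o.2.1)]
          | cons p' c'' =>
            exact ih _ _ _ _ _ le_rfl (update_agree_ge hτ _)
        · rfl

theorem rgtW_congr (M : Machine K A Q Γ) (b : ℤ) (ac : Q → ℤ → K) (fR : (ℤ → Γ) → K)
    (hfR : ∀ τ τ' : ℤ → Γ, (∀ i, b ≤ i → τ i = τ' i) → fR τ = fR τ')
    (t : ℕ) (c : List Q) (τ τ' : ℤ → Γ)
    (hτ : ∀ i, b ≤ i → τ i = τ' i) :
    rgtW M b ac fR t c τ = rgtW M b ac fR t c τ' := by
  cases c with
  | nil => simp only [rgtW, hfR τ τ' hτ]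
  | cons p c => exact rgt_congr M b ac fR hfR _ _ _ _ _ _ le_rfl hτ

/-! ### The factorisation -/

open Classical in
/-- the final weight of the monitored computations -/
noncomputable def fin (b : ℤ) (ℓ : ℕ) (ok : (ℤ → ℕ) → Prop) (ac : Q → ℤ → K)
    (fL fR : (ℤ → Γ) → K) : Q → ℤ → (ℤ → Γ) → (ℤ → ℕ) → K :=
  fun q h τ cnt => if cnt b ≤ ℓ ∧ ok cnt then ac q h * fL τ * fR τ else 0

theorem mval_eq_zero (M : Machine K A Q Γ) (b : ℤ) (ℓ : ℕ) (ok : (ℤ → ℕ) → Prop) (ac : Q → ℤ → K)
    (fL fR : (ℤ → Γ) → K)
    (t : ℕ) (q : Q) (h : ℤ) (τ : ℤ → Γ) (cnt : ℤ → ℕ) (hc : ℓ < cnt b) :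
    mval M (fin b ℓ ok ac fL fR) t q h τ cnt = 0 := by
  induction t generalizing q h τ cnt with
  | zero =>
    simp only [mval, fin]
    rw [if_neg]
    rintro ⟨h1, _⟩
    omega
  | succ t ih =>
    simp only [mval]
    refine Finset.sum_eq_zero fun o _ => ?_
    rw [ih, mul_zero]
    exact lt_of_lt_of_le hc (bump_le_apply _ _ _ _)

theorem factor (M : Machine K A Q Γ) (b : ℤ) (ℓ : ℕ) (ok : (ℤ → ℕ) → Prop) (ac : Q → ℤ → K)
    (fL fR : (ℤ → Γ) → K)
    (hok : ∀ cnt cnt' : ℤ → ℕ, (∀ i < b, cnt i = cnt' i) → (ok cnt ↔ ok cnt'))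
    (hfL : ∀ τ τ' : ℤ → Γ, (∀ i < b, τ i = τ' i) → fL τ = fL τ')
    (hfR : ∀ τ τ' : ℤ → Γ, (∀ i, b ≤ i → τ i = τ' i) → fR τ = fR τ') (t : ℕ) :
    (∀ (q : Q) (h : ℤ) (τ : ℤ → Γ) (cnt : ℤ → ℕ) (k : ℕ), h < b → cnt b + k = ℓ →
      mval M (fin b ℓ ok ac fL fR) t q h τ cnt =
        ∑ c ∈ lists Q k, ∑ p ∈ antidiagonal t, lft M b ok ac fL p.1 c q h τ cnt * rgtW M b ac fR p.2 c τ) ∧
    (∀ (q : Q) (h : ℤ) (τ : ℤ → Γ) (cnt : ℤ → ℕ) (k : ℕ), b ≤ h → cnt b + k = ℓ →
      mval M (fin b ℓ ok ac fL fR) t q h τ cnt =
        ∑ c ∈ lists Q k, ∑ p ∈ antidiagonal t, lftW M b ok ac fL p.1 c τ cnt * rgt M b ac fR p.2 c q h τ) := by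
  classical
  induction t with
  | zero =>
    constructor
    · intro q h τ cnt k hh hk
      simp only [Finset.Nat.antidiagonal_zero, sum_singleton]
      rw [Finset.sum_eq_single []]
      · have h1 : cnt b ≤ ℓ := by omega
        by_cases h2 : ok cnt <;> simp [mval, fin, lft, rgtW, h1, h2]
      · intro c _ hc
        simp [lft, hc]
      · intro hn; exact absurd (nil_mem_lists k) hn
    · intro q h τ cnt k hh hk
      simp only [Finset.Nat.antidiagonal_zero, sum_singleton]
      rw [Finset.sum_eq_single []]
      · have h1 : cnt b ≤ ℓ := by omega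
        by_cases h2 : ok cnt
        · simp [mval, fin, rgt, lftW, h1, h2]
          ring
        · simp [mval, fin, rgt, lftW, h1, h2]
      · intro c _ hc
        simp [rgt, hc]
      · intro hn; exact absurd (nil_mem_lists k) hn
  | succ t ih =>
    obtain ⟨ihL, ihR⟩ := ih
    constructor
    · intro q h τ cnt k hh hk
      -- the terms without a left step vanish
      have key : ∀ c : List Q, ∑ p ∈ antidiagonal (t + 1),
          lft M b ok ac fL p.1 c q h τ cnt * rgtW M b ac fR p.2 c τ
          = ∑ p ∈ antidiagonal t, lft M b ok ac fL (p.1 + 1) c q h τ cnt * rgtW M b ac fR p.2 c τ := by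
        intro c
        rw [Finset.Nat.sum_antidiagonal_succ]
        have : lft M b ok ac fL 0 c q h τ cnt * rgtW M b ac fR (t + 1) c τ = 0 := by
          cases c with
          | nil => simp [rgtW]
          | cons p c => simp [lft]
        simp only [this, zero_add]
      simp only [key]
      simp only [mval]
      simp only [lft_succ, Finset.sum_mul]
      -- move the sum over `o` outside
      have swap : ∀ F : List Q → ℕ × ℕ → Q × Γ × Move → K,
          ∑ c ∈ lists Q k, ∑ p ∈ antidiagonal t, ∑ o, F c p o
          = ∑ o, ∑ c ∈ lists Q k, ∑ p ∈ antidiagonal t, F c p o := by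
        intro F
        rw [Finset.sum_comm' (s := univ) (t := fun _ => lists Q k) (t' := lists Q k)
          (s' := fun _ => univ) (by simp)]
        refine Finset.sum_congr rfl fun c _ => ?_
        rw [Finset.sum_comm]
      rw [swap]
      refine Finset.sum_congr rfl fun o _ => ?_
      set h' := h + o.2.2.delta with hh'
      have hd1 := delta_le_one o.2.2
      by_cases h1 : h' < b
      · have hcb : bump cnt h h' b = cnt b := by
          unfold bump
          split_ifs with hq
          · rfl
          · rw [update_of_ne]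
            have : max h h' < b := max_lt hh h1
            omega
        rw [ihL o.1 h' _ (bump cnt h h') k h1 (by rw [hcb]; exact hk), Finset.mul_sum]
        refine Finset.sum_congr rfl fun c _ => ?_
        rw [Finset.mul_sum]
        refine Finset.sum_congr rfl fun p _ => ?_
        rw [if_pos h1, mul_assoc]
        congr 2
        refine rgtW_congr M b ac fR hfR _ _ _ _ fun i hi => ?_
        rw [update_of_ne]
        omega
      · have hb : h' = b := by omega
        have hh1 : h = b - 1 := by omega
        have hne : h ≠ h' := by omega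
        have hmax : max h h' = b := by rw [max_eq_right (by omega)]; exact hb
        have hcnt : bump cnt h h' = update cnt b (cnt b + 1) := by
          unfold bump
          rw [if_neg hne, hmax]
        cases k with
        | zero =>
          rw [mval_eq_zero, mul_zero, sum_lists_zero]
          · symm
            refine Finset.sum_eq_zero fun p _ => ?_
            rw [if_neg h1]
            simp
          · rw [hcnt]; simp; omega
        | succ k =>
          rw [ihR o.1 h' _ (bump cnt h h') k (by omega) (by rw [hcnt]; simp; omega),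
            sum_lists_succ]
          have e0 : ∑ p ∈ antidiagonal t, M.weight q (τ h) o *
              (if h' < b then lft M b ok ac fL p.1 [] o.1 h' (update τ h o.2.1) (bump cnt h h')
                else match ([] : List Q) with
                | [] => 0
                | p_1 :: c' => if p_1 = o.1 then lftW M b ok ac fL p.1 c' (update τ h o.2.1) cnt else 0)
                * rgtW M b ac fR p.2 [] τ = 0 := by
            refine Finset.sum_eq_zero fun p _ => ?_
            rw [if_neg h1]
            simp
          rw [e0, zero_add, Finset.sum_eq_single o.1]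
          · rw [Finset.mul_sum]
            refine Finset.sum_congr rfl fun c _ => ?_
            rw [Finset.mul_sum]
            refine Finset.sum_congr rfl fun p _ => ?_
            rw [if_neg h1]
            dsimp only
            rw [if_pos rfl, mul_assoc]
            congr 1
            congr 1
            · refine lftW_congr M b ok ac fL hok hfL _ _ _ _ _ _ (fun i _ => rfl) fun i hi => ?_
              rw [hcnt, update_of_ne (by omega)]
            · rw [rgtW, hb]
              refine rgt_congr M b ac fR hfR _ _ _ _ _ _ le_rfl fun i hi => ?_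
              rw [update_of_ne]
              omega
          · intro p _ hp
            refine Finset.sum_eq_zero fun c _ => Finset.sum_eq_zero fun x _ => ?_
            rw [if_neg h1]
            dsimp only
            rw [if_neg hp]
            simp
          · simp
    · intro q h τ cnt k hh hk
      have key : ∀ c : List Q, ∑ p ∈ antidiagonal (t + 1),
          lftW M b ok ac fL p.1 c τ cnt * rgt M b ac fR p.2 c q h τ
          = ∑ p ∈ antidiagonal t, lftW M b ok ac fL p.1 c τ cnt * rgt M b ac fR (p.2 + 1) c q h τ := by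
        intro c
        rw [Finset.Nat.sum_antidiagonal_succ']
        have : lftW M b ok ac fL (t + 1) c τ cnt * rgt M b ac fR 0 c q h τ = 0 := by
          cases c with
          | nil => simp [lftW]
          | cons p c => simp [rgt]
        simp only [this, zero_add]
      simp only [key]
      simp only [mval]
      simp only [rgt_succ, Finset.mul_sum]
      have swap : ∀ F : List Q → ℕ × ℕ → Q × Γ × Move → K,
          ∑ c ∈ lists Q k, ∑ p ∈ antidiagonal t, ∑ o, F c p o
          = ∑ o, ∑ c ∈ lists Q k, ∑ p ∈ antidiagonal t, F c p o := by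
        intro F
        rw [Finset.sum_comm' (s := univ) (t := fun _ => lists Q k) (t' := lists Q k)
          (s' := fun _ => univ) (by simp)]
        refine Finset.sum_congr rfl fun c _ => ?_
        rw [Finset.sum_comm]
      rw [swap]
      refine Finset.sum_congr rfl fun o _ => ?_
      set h' := h + o.2.2.delta with hh'
      have hd1 := neg_one_le_delta o.2.2
      by_cases h1 : b ≤ h'
      · have hcb : bump cnt h h' b = cnt b := by
          unfold bump
          split_ifs with hq
          · rfl
          · rw [update_of_ne]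
            intro hb
            rcases lt_or_gt_of_ne hq with h2 | h2
            · rw [max_eq_right h2.le] at hb; omega
            · rw [max_eq_left h2.le] at hb; omega
        rw [ihR o.1 h' _ (bump cnt h h') k h1 (by rw [hcb]; exact hk), Finset.mul_sum]
        refine Finset.sum_congr rfl fun c _ => ?_
        rw [Finset.mul_sum]
        refine Finset.sum_congr rfl fun p _ => ?_
        rw [if_pos h1]
        have e1 : lftW M b ok ac fL p.1 c (update τ h o.2.1) (bump cnt h h') = lftW M b ok ac fL p.1 c τ cnt := by
          refine lftW_congr M b ok ac fL hok hfL _ _ _ _ _ _ (fun i hi => ?_) fun i hi => ?_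
          · rw [update_of_ne]; omega
          · unfold bump
            split_ifs with hq
            · rfl
            · rw [update_of_ne]
              intro hb
              have := le_max_left h h'
              omega
        rw [e1]
        ring
      · have hb : h' = b - 1 := by omega
        have hh1 : h = b := by omega
        have hne : h ≠ h' := by omega
        have hmax : max h h' = b := by rw [max_eq_left (by omega)]; exact hh1
        have hcnt : bump cnt h h' = update cnt b (cnt b + 1) := by
          unfold bump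
          rw [if_neg hne, hmax]
        cases k with
        | zero =>
          rw [mval_eq_zero, mul_zero, sum_lists_zero]
          · symm
            refine Finset.sum_eq_zero fun p _ => ?_
            rw [if_neg h1]
            simp
          · rw [hcnt]; simp; omega
        | succ k =>
          rw [ihL o.1 h' _ (bump cnt h h') k (by omega) (by rw [hcnt]; simp; omega),
            sum_lists_succ]
          have e0 : ∑ p ∈ antidiagonal t, lftW M b ok ac fL p.1 [] τ cnt * (M.weight q (τ h) o *
              (if b ≤ h' then rgt M b ac fR p.2 [] o.1 h' (update τ h o.2.1)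
                else match ([] : List Q) with
                | [] => 0
                | p_1 :: c' => if p_1 = o.1 then rgtW M b ac fR p.2 c' (update τ h o.2.1) else 0))
                = 0 := by
            refine Finset.sum_eq_zero fun p _ => ?_
            rw [if_neg h1]
            simp
          rw [e0, zero_add, Finset.sum_eq_single o.1]
          · rw [Finset.mul_sum]
            refine Finset.sum_congr rfl fun c _ => ?_
            rw [Finset.mul_sum]
            refine Finset.sum_congr rfl fun p _ => ?_
            rw [if_neg h1]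
            dsimp only
            rw [if_pos rfl]
            have e1 : lft M b ok ac fL p.1 c o.1 h' (update τ h o.2.1) (bump cnt h h')
                = lftW M b ok ac fL p.1 (o.1 :: c) τ cnt := by
              rw [lftW, hb]
              refine lft_congr M b ok ac fL hok hfL _ _ _ _ _ _ _ _ (by omega) (fun i hi => ?_) fun i hi => ?_
              · rw [update_of_ne]; omega
              · rw [← hb, hcnt, update_of_ne (by omega)]
            rw [e1]
            ring
          · intro p _ hp
            refine Finset.sum_eq_zero fun c _ => Finset.sum_eq_zero fun x _ => ?_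
            rw [if_neg h1]
            dsimp only
            rw [if_neg hp]
            simp
          · simp

end

end Pool.Agent.H524R2.G2
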