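import Pool.Agent.H524R2.Defs

/-! # Boolean expressions: unique readability, big conjunctions, lengths -/

namespace Pool.Agent.H524R2

/-! ### Unique readability -/

/-- the word does not start with a binary digit -/
def NoDigit (s : List Sym) : Prop := ∀ a ∈ s.head?, a ≠ Sym.zero ∧ a ≠ Sym.one

theorem bin_digit {n : ℕ} {a : Sym} (h : a ∈ bin n) : a = Sym.zero ∨ a = Sym.one := by
  unfold bin at h
  rw [List.mem_map] at h
  obtain ⟨b, -, rfl⟩ := h
  cases b <;> simp

theorem digits_append_inj : ∀ (l l' s s' : List Sym), (∀ a ∈ l, a = Sym.zero ∨ a = Sym.one) →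
    (∀ a ∈ l', a = Sym.zero ∨ a = Sym.one) → NoDigit s → NoDigit s' → l ++ s = l' ++ s' →
    l = l' ∧ s = s'
  | [], [], s, s', _, _, _, _, h => ⟨rfl, by simpa using h⟩
  | [], b :: l', s, s', _, hl', hs, _, h => by
    exfalso
    simp only [List.nil_append] at h
    subst h
    have h1 := hs b (by simp)
    rcases hl' b (by simp) with h2 | h2
    · exact h1.1 h2
    · exact h1.2 h2
  | a :: l, [], s, s', hl, _, _, hs', h => by
    exfalso
    simp only [List.nil_append] at h
    subst h
    have h1 := hs' a (by simp)
    rcases hl a (by simp) with h2 | h2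
    · exact h1.1 h2
    · exact h1.2 h2
  | a :: l, b :: l', s, s', hl, hl', hs, hs', h => by
    simp only [List.cons_append, List.cons.injEq] at h
    obtain ⟨h1, h2⟩ := digits_append_inj l l' s s' (fun c hc => hl c (by simp [hc]))
      (fun c hc => hl' c (by simp [hc])) hs hs' h.2
    exact ⟨by rw [h.1, h1], h2⟩

theorem bin_injective : Function.Injective bin := by
  intro n m h
  unfold bin at h
  have hinj : Function.Injective (fun b : Bool => if b then Sym.one else Sym.zero) := by
    intro a b hab; cases a <;> cases b <;> simp_all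
  have h1 := List.map_injective_iff.2 hinj h
  have h2 := List.reverse_injective h1
  have h3 : Nat.digits 2 n = Nat.digits 2 m := by
    rw [Nat.digits_two_eq_bits, Nat.digits_two_eq_bits, h2]
  have h4 := congrArg (Nat.ofDigits 2) h3
  rwa [Nat.ofDigits_digits, Nat.ofDigits_digits] at h4

theorem encode_append_inj (φ : Formula) : ∀ (ψ : Formula) (s s' : List Sym), NoDigit s → NoDigit s' →
    φ.encode ++ s = ψ.encode ++ s' → φ = ψ ∧ s = s' := by
  induction φ with
  | var i =>
    intro ψ s s' hs hs' h
    cases ψ with
    | var j =>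
      simp only [Formula.encode, List.cons_append, List.cons.injEq, true_and] at h
      obtain ⟨h1, h2⟩ := digits_append_inj _ _ _ _ (fun a ha => bin_digit ha)
        (fun a ha => bin_digit ha) hs hs' h
      have := bin_injective h1
      exact ⟨by congr 1; omega, h2⟩
    | not ψ => simp [Formula.encode] at h
    | and ψ₁ ψ₂ => simp [Formula.encode] at h
    | or ψ₁ ψ₂ => simp [Formula.encode] at h
  | not φ ih =>
    intro ψ s s' hs hs' h
    cases ψ with
    | var j => simp [Formula.encode] at h
    | not ψ =>
      simp only [Formula.encode, List.cons_append, List.cons.injEq, true_and] at h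
      obtain ⟨h1, h2⟩ := ih ψ s s' hs hs' h
      exact ⟨by rw [h1], h2⟩
    | and ψ₁ ψ₂ => simp [Formula.encode] at h
    | or ψ₁ ψ₂ => simp [Formula.encode] at h
  | and φ₁ φ₂ ih₁ ih₂ =>
    intro ψ s s' hs hs' h
    cases ψ with
    | var j => simp [Formula.encode] at h
    | not ψ => simp [Formula.encode] at h
    | and ψ₁ ψ₂ =>
      simp only [Formula.encode, List.cons_append, List.cons.injEq, true_and, List.append_assoc] at h
      obtain ⟨h1, h2⟩ := ih₁ ψ₁ _ _ (by simp [NoDigit]) (by simp [NoDigit]) h
      simp only [List.cons.injEq, true_and] at h2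
      obtain ⟨h3, h4⟩ := ih₂ ψ₂ _ _ (by simp [NoDigit]) (by simp [NoDigit]) h2
      simp only [List.nil_append, List.cons.injEq, true_and] at h4
      exact ⟨by rw [h1, h3], h4⟩
    | or ψ₁ ψ₂ =>
      simp only [Formula.encode, List.cons_append, List.cons.injEq, true_and, List.append_assoc] at h
      obtain ⟨h1, h2⟩ := ih₁ ψ₁ _ _ (by simp [NoDigit]) (by simp [NoDigit]) h
      simp at h2
  | or φ₁ φ₂ ih₁ ih₂ =>
    intro ψ s s' hs hs' h
    cases ψ with
    | var j => simp [Formula.encode] at h
    | not ψ => simp [Formula.encode] at h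
    | and ψ₁ ψ₂ =>
      simp only [Formula.encode, List.cons_append, List.cons.injEq, true_and, List.append_assoc] at h
      obtain ⟨h1, h2⟩ := ih₁ ψ₁ _ _ (by simp [NoDigit]) (by simp [NoDigit]) h
      simp at h2
    | or ψ₁ ψ₂ =>
      simp only [Formula.encode, List.cons_append, List.cons.injEq, true_and, List.append_assoc] at h
      obtain ⟨h1, h2⟩ := ih₁ ψ₁ _ _ (by simp [NoDigit]) (by simp [NoDigit]) h
      simp only [List.cons.injEq, true_and] at h2
      obtain ⟨h3, h4⟩ := ih₂ ψ₂ _ _ (by simp [NoDigit]) (by simp [NoDigit]) h2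
      simp only [List.nil_append, List.cons.injEq, true_and] at h4
      exact ⟨by rw [h1, h3], h4⟩

/-- The encoding is injective. -/
theorem encode_injective : Function.Injective Formula.encode := by
  intro φ ψ h
  exact (encode_append_inj φ ψ [] [] (by simp [NoDigit]) (by simp [NoDigit]) (by simpa using h)).1

/-! ### Big conjunctions and disjunctions -/

/-- `(f₁ ∧ (f₂ ∧ … (f_r ∧ base)…))` -/
def bigAnd (l : List Formula) (base : Formula) : Formula := l.foldr Formula.and base

/-- `(f₁ ∨ (f₂ ∨ … (f_r ∨ base)…))` -/
def bigOr (l : List Formula) (base : Formula) : Formula := l.foldr Formula.or base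

theorem encode_bigAnd (l : List Formula) (base : Formula) :
    (bigAnd l base).encode = l.flatMap (fun f => Sym.lpar :: (f.encode ++ [Sym.and]))
      ++ (base.encode ++ List.replicate l.length Sym.rpar) := by
  induction l with
  | nil => simp [bigAnd]
  | cons f l ih =>
    show (Formula.and f (bigAnd l base)).encode = _
    rw [Formula.encode, ih]
    simp only [List.flatMap_cons, List.length_cons, List.cons_append, List.append_assoc,
      List.replicate_succ', List.nil_append]

theorem encode_bigOr (l : List Formula) (base : Formula) :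
    (bigOr l base).encode = l.flatMap (fun f => Sym.lpar :: (f.encode ++ [Sym.or]))
      ++ (base.encode ++ List.replicate l.length Sym.rpar) := by
  induction l with
  | nil => simp [bigOr]
  | cons f l ih =>
    show (Formula.or f (bigOr l base)).encode = _
    rw [Formula.encode, ih]
    simp only [List.flatMap_cons, List.length_cons, List.cons_append, List.append_assoc,
      List.replicate_succ', List.nil_append]

theorem eval_bigAnd (v : ℕ → Bool) (l : List Formula) (base : Formula) :
    (bigAnd l base).eval v = true ↔ (∀ f ∈ l, f.eval v = true) ∧ base.eval v = true := by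
  induction l with
  | nil => simp [bigAnd]
  | cons f l ih =>
    show (Formula.and f (bigAnd l base)).eval v = true ↔ _
    rw [Formula.eval, Bool.and_eq_true, ih]
    simp [and_assoc]

theorem eval_bigOr (v : ℕ → Bool) (l : List Formula) (base : Formula) :
    (bigOr l base).eval v = true ↔ (∃ f ∈ l, f.eval v = true) ∨ base.eval v = true := by
  induction l with
  | nil => simp [bigOr]
  | cons f l ih =>
    show (Formula.or f (bigOr l base)).eval v = true ↔ _
    rw [Formula.eval, Bool.or_eq_true, ih]
    simp [or_assoc]

/-! ### Variable names of a fixed length -/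

theorem length_bin (n : ℕ) : (bin n).length = n.size := by
  unfold bin
  simp [Nat.size_eq_bits_len]

theorem length_bin_eq {k j : ℕ} (h1 : 2 ^ k ≤ j) (h2 : j < 2 ^ (k + 1)) : (bin j).length = k + 1 := by
  rw [length_bin]
  apply le_antisymm
  · exact Nat.size_le.2 h2
  · exact Nat.lt_size.2 h1

/-- the variable whose index is `2 ^ k + o` -/
def nm (k o : ℕ) : Formula := Formula.var (2 ^ k + o - 1)

theorem length_nm {k o : ℕ} (h : o < 2 ^ k) : (nm k o).encode.length = k + 2 := by
  have h0 : 0 < 2 ^ k := by positivity
  unfold nm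
  rw [Formula.encode, List.length_cons, length_bin_eq (k := k)]
  · omega
  · rw [pow_succ]; omega

theorem eval_nm (v : ℕ → Bool) (k o : ℕ) : (nm k o).eval v = v (2 ^ k + o - 1) := rfl

/-- an even number of negations in front of `x₁` -/
def pad : ℕ → Formula
  | 0 => Formula.var 0
  | j + 1 => Formula.not (Formula.not (pad j))

theorem length_pad (j : ℕ) : (pad j).encode.length = 2 * j + 2 := by
  induction j with
  | zero => simp [pad, Formula.encode, bin]
  | succ j ih => simp [pad, Formula.encode, ih]; omega

theorem eval_pad (v : ℕ → Bool) (j : ℕ) : (pad j).eval v = v 0 := by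
  induction j with
  | zero => rfl
  | succ j ih => simp [pad, Formula.eval, ih]

/-- padding items with total cost `s` (closing parentheses included) -/
theorem exists_pads (s : ℕ) (hs : 10 ≤ s) : ∃ l : List Formula,
    (l.flatMap (fun f => Sym.lpar :: (f.encode ++ [Sym.and]))).length + l.length = s ∧
    (∀ f ∈ l, ∃ j, f = pad j) ∧ 5 * l.length ≤ s ∧ l.length ≤ 2 := by
  rcases Nat.even_or_odd s with h | h
  · refine ⟨[pad 0, pad ((s - 10) / 2)], ?_, ?_, ?_, ?_⟩
    · obtain ⟨r, hr⟩ := h
      simp [length_pad]
      omega
    · simp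
    · simp; omega
    · simp
  · refine ⟨[pad ((s - 5) / 2)], ?_, ?_, ?_, ?_⟩
    · obtain ⟨r, hr⟩ := h
      simp [length_pad]
      omega
    · simp
    · simp; omega
    · simp

end Pool.Agent.H524R2
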