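import Mathlib

/-! # Forster's lower bound for the sign rank of orthogonal sign matrices -/

namespace Pool.Agent.H524R2

open Matrix Finset

/-- Hadamard's inequality. -/
theorem hadamard_ineq {d : ℕ} (M : Matrix (Fin d) (Fin d) ℝ) :
    M.det ^ 2 ≤ ∏ i, (M i ⬝ᵥ M i) := by
  let E := EuclideanSpace ℝ (Fin d)
  have : Fact (Module.finrank ℝ E = d) := ⟨by simp [E]⟩
  let b := EuclideanSpace.basisFun (Fin d) ℝ
  let o : Orientation ℝ E (Fin d) := b.toBasis.orientation
  let v : Fin d → E := fun i => WithLp.toLp 2 (M i)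
  have h1 := o.abs_volumeForm_apply_le v
  rw [o.volumeForm_robust' b v] at h1
  have h2 : b.toBasis.det v = M.det := by
    rw [Module.Basis.det_apply, ← Matrix.det_transpose]
    congr 1
  rw [h2] at h1
  have h3 : ∀ i, ‖v i‖ ^ 2 = M i ⬝ᵥ M i := by
    intro i
    rw [EuclideanSpace.norm_sq_eq]
    simp [v, dotProduct, sq]
  calc M.det ^ 2 = |M.det| ^ 2 := (sq_abs _).symm
    _ ≤ (∏ i, ‖v i‖) ^ 2 := by gcongr
    _ = ∏ i, ‖v i‖ ^ 2 := (Finset.prod_pow _ _ _).symm
    _ = _ := by simp_rw [h3]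

section

variable {X : Type*} [Fintype X] {d : ℕ}

/-- squared length of `A u` -/
noncomputable def nrm (u : X → Fin d → ℝ) (A : Matrix (Fin d) (Fin d) ℝ) (x : X) : ℝ :=
  (A *ᵥ u x) ⬝ᵥ (A *ᵥ u x)

/-- potential function -/
noncomputable def pot (u : X → Fin d → ℝ) (A : Matrix (Fin d) (Fin d) ℝ) : ℝ :=
  d * ∑ x, Real.log (nrm u A x) - Fintype.card X * Real.log (A.det ^ 2)

theorem dot_self_pos {v : Fin d → ℝ} (hv : v ≠ 0) : 0 < v ⬝ᵥ v := by
  have h0 : 0 ≤ v ⬝ᵥ v := Finset.sum_nonneg fun i _ => mul_self_nonneg _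
  rcases h0.lt_or_eq with h | h
  · exact h
  · exact absurd (dotProduct_self_eq_zero.1 h.symm) hv

theorem mulVec_ne_zero {A : Matrix (Fin d) (Fin d) ℝ} (hA : A.det ≠ 0) {v : Fin d → ℝ} (hv : v ≠ 0) :
    A *ᵥ v ≠ 0 := by
  intro h
  exact hv (Matrix.eq_zero_of_mulVec_eq_zero hA h)

/-- The potential function is bounded below, when there is a balanced family of bases. -/
theorem pot_bdd (u : X → Fin d → ℝ) (hu : ∀ x, u x ≠ 0) (σ : Fin d → Equiv.Perm X)
    (hσ : ∀ w, Matrix.det (Matrix.of fun j => u (σ j w)) ≠ 0) :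
    ∃ C : ℝ, ∀ A : Matrix (Fin d) (Fin d) ℝ, A.det ≠ 0 → C ≤ pot u A := by
  refine ⟨∑ w, Real.log (Matrix.det (Matrix.of fun j => u (σ j w)) ^ 2), fun A hA => ?_⟩
  have key : ∀ w, Real.log (A.det ^ 2) + Real.log (Matrix.det (Matrix.of fun j => u (σ j w)) ^ 2)
      ≤ ∑ j, Real.log (nrm u A (σ j w)) := by
    intro w
    have h1 := hadamard_ineq ((Matrix.of fun j => u (σ j w)) * Aᵀ)
    have h2 : ∀ j, ((Matrix.of fun j => u (σ j w)) * Aᵀ) j ⬝ᵥ
        ((Matrix.of fun j => u (σ j w)) * Aᵀ) j = nrm u A (σ j w) := by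
      intro j
      have : ((Matrix.of fun j => u (σ j w)) * Aᵀ) j = A *ᵥ u (σ j w) := by
        ext k
        simp [Matrix.mul_apply, Matrix.mulVec, dotProduct, mul_comm]
      rw [this]; rfl
    simp_rw [h2] at h1
    rw [Matrix.det_mul, Matrix.det_transpose, mul_pow] at h1
    have hd1 : 0 < Matrix.det (Matrix.of fun j => u (σ j w)) ^ 2 := by
      have := hσ w; positivity
    have hd2 : 0 < A.det ^ 2 := by positivity
    rw [add_comm, ← Real.log_mul hd1.ne' hd2.ne', ← Real.log_prod]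
    · exact Real.log_le_log (by positivity) h1
    · intro j _
      exact (dot_self_pos (mulVec_ne_zero hA (hu _))).ne'
  have h3 := Finset.sum_le_sum (fun w (_ : w ∈ (univ : Finset X)) => key w)
  rw [Finset.sum_add_distrib, Finset.sum_const, Finset.card_univ, nsmul_eq_mul,
    Finset.sum_comm] at h3
  have h4 : ∀ j : Fin d, ∑ w, Real.log (nrm u A (σ j w)) = ∑ x, Real.log (nrm u A x) :=
    fun j => Equiv.sum_comp (σ j) (fun x => Real.log (nrm u A x))
  simp_rw [h4] at h3
  rw [Finset.sum_const, Finset.card_univ, Fintype.card_fin, nsmul_eq_mul] at h3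
  unfold pot
  linarith

/-- Approximate isotropy. -/
theorem exists_isotropic (u : X → Fin d → ℝ) (hu : ∀ x, u x ≠ 0) (σ : Fin d → Equiv.Perm X)
    (hσ : ∀ w, Matrix.det (Matrix.of fun j => u (σ j w)) ≠ 0) (hX : 0 < Fintype.card X)
    (ε : ℝ) (hε : 0 < ε) :
    ∃ A : Matrix (Fin d) (Fin d) ℝ, A.det ≠ 0 ∧ ∀ v : Fin d → ℝ, v ⬝ᵥ v = 1 →
      (1 - ε) * Fintype.card X ≤ d * ∑ x, ((A *ᵥ u x) ⬝ᵥ v) ^ 2 / nrm u A x := by
  obtain ⟨C, hC⟩ := pot_bdd u hu σ hσ
  set N : ℝ := (Fintype.card X : ℝ) with hN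
  have hNpos : 0 < N := by rw [hN]; exact_mod_cast hX
  let S : Set ℝ := {r | ∃ A : Matrix (Fin d) (Fin d) ℝ, A.det ≠ 0 ∧ pot u A = r}
  have hSne : S.Nonempty := ⟨pot u 1, 1, by simp, rfl⟩
  have hSbdd : BddBelow S := ⟨C, by rintro r ⟨A, hA, rfl⟩; exact hC A hA⟩
  obtain ⟨r, ⟨A, hA, hAr⟩, hr⟩ := Real.lt_sInf_add_pos hSne (ε := N * ε ^ 2 / 3) (by positivity)
  refine ⟨A, hA, fun v hv => ?_⟩
  by_contra hcon
  push Not at hcon
  set q := ∑ x, ((A *ᵥ u x) ⬝ᵥ v) ^ 2 / nrm u A x with hq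
  set s := ε / 3 with hs
  have hs0 : 0 < s := by positivity
  let B : Matrix (Fin d) (Fin d) ℝ :=
    (1 + replicateCol Unit (s • v) * replicateRow Unit v) * A
  have hBdet : B.det = (1 + s) * A.det := by
    show Matrix.det ((1 + replicateCol Unit (s • v) * replicateRow Unit v) * A) = _
    rw [Matrix.det_mul, det_one_add_replicateCol_mul_replicateRow]
    simp [hv]
  have hB0 : B.det ≠ 0 := by
    rw [hBdet]; exact mul_ne_zero (by positivity) hA
  have hnA : ∀ x, 0 < nrm u A x := fun x => dot_self_pos (mulVec_ne_zero hA (hu x))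
  have hBn : ∀ x, nrm u B x = nrm u A x *
      (1 + (2 * s + s ^ 2) * (((A *ᵥ u x) ⬝ᵥ v) ^ 2 / nrm u A x)) := by
    intro x
    have h1 : B *ᵥ u x = A *ᵥ u x + (s * ((A *ᵥ u x) ⬝ᵥ v)) • v := by
      show ((1 + replicateCol Unit (s • v) * replicateRow Unit v) * A) *ᵥ u x = _
      rw [← Matrix.mulVec_mulVec, Matrix.add_mulVec, Matrix.one_mulVec]
      congr 1
      ext i
      simp only [Matrix.mulVec, dotProduct, Matrix.mul_apply, replicateCol_apply,
        replicateRow_apply, Finset.univ_unique, Finset.sum_singleton, Pi.smul_apply, smul_eq_mul]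
      rw [Finset.mul_sum, Finset.sum_mul]
      refine Finset.sum_congr rfl fun j _ => ?_
      ring
    unfold nrm
    rw [h1, add_dotProduct, dotProduct_add, dotProduct_add, smul_dotProduct, smul_dotProduct,
      dotProduct_smul, dotProduct_smul, hv, dotProduct_comm v]
    have h2 : (A *ᵥ u x) ⬝ᵥ (A *ᵥ u x) ≠ 0 := (hnA x).ne'
    field_simp
    simp only [smul_eq_mul]
    ring
  have hpB : pot u B ≤ pot u A + (d * ((2 * s + s ^ 2) * q) - N * (2 * (s - s ^ 2))) := by
    unfold pot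
    have h1 : ∑ x, Real.log (nrm u B x) ≤ ∑ x, Real.log (nrm u A x) + (2 * s + s ^ 2) * q := by
      rw [hq, Finset.mul_sum, ← Finset.sum_add_distrib]
      refine Finset.sum_le_sum fun x _ => ?_
      have hw : 0 ≤ ((A *ᵥ u x) ⬝ᵥ v) ^ 2 / nrm u A x :=
        div_nonneg (sq_nonneg _) (hnA x).le
      have hpos : 0 < 1 + (2 * s + s ^ 2) * (((A *ᵥ u x) ⬝ᵥ v) ^ 2 / nrm u A x) := by positivity
      rw [hBn, Real.log_mul (hnA x).ne' hpos.ne']
      have := Real.log_le_sub_one_of_pos hpos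
      linarith
    have h2 : Real.log (B.det ^ 2) = 2 * Real.log (1 + s) + Real.log (A.det ^ 2) := by
      rw [hBdet, mul_pow, Real.log_mul (by positivity) (by positivity), Real.log_pow]
      simp
    have h3 : s - s ^ 2 ≤ Real.log (1 + s) := by
      have h4 := Real.one_sub_inv_le_log_of_pos (show 0 < 1 + s by positivity)
      have h5 : s - s ^ 2 ≤ 1 - (1 + s)⁻¹ := by
        rw [← sub_nonneg]
        have : 1 - (1 + s)⁻¹ - (s - s ^ 2) = s ^ 3 / (1 + s) := by
          field_simp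
          ring
        rw [this]; positivity
      linarith
    rw [h2]
    have hd : (0 : ℝ) ≤ d := Nat.cast_nonneg d
    have h6 := mul_le_mul_of_nonneg_left h1 hd
    have h7 := mul_le_mul_of_nonneg_left h3 hNpos.le
    nlinarith
  have hge : sInf S ≤ pot u B := csInf_le hSbdd ⟨B, hB0, rfl⟩
  have h8 : (2 * s + s ^ 2) * (d * q) ≤ (2 * s + s ^ 2) * ((1 - ε) * N) :=
    mul_le_mul_of_nonneg_left hcon.le (by positivity)
  have h9 : (2 * s + s ^ 2) * ((1 - ε) * N) - N * (2 * (s - s ^ 2)) ≤ - (N * ε ^ 2 / 3) := by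
    have : ε = 3 * s := by rw [hs]; ring
    rw [this]
    nlinarith [mul_pos hNpos (pow_pos hs0 3), mul_pos hNpos (pow_pos hs0 2)]
  rw [← hAr] at hr
  nlinarith

end

section

variable {X Y : Type*} [Fintype X] [Fintype Y] [DecidableEq Y] {d : ℕ}

theorem sum_sq_of_orth (H : X → Y → ℝ)
    (horth : ∀ y y', ∑ x, H x y * H x y' = if y = y' then (Fintype.card X : ℝ) else 0)
    (c : Y → ℝ) : ∑ x, (∑ y, H x y * c y) ^ 2 = Fintype.card X * ∑ y, c y ^ 2 := by
  calc ∑ x, (∑ y, H x y * c y) ^ 2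
      = ∑ x, ∑ y, ∑ y', (H x y * c y) * (H x y' * c y') := by
        refine Finset.sum_congr rfl fun x _ => ?_
        rw [sq, Finset.sum_mul_sum]
    _ = ∑ y, ∑ y', c y * c y' * ∑ x, H x y * H x y' := by
        rw [Finset.sum_comm]
        refine Finset.sum_congr rfl fun y _ => ?_
        rw [Finset.sum_comm]
        refine Finset.sum_congr rfl fun y' _ => ?_
        rw [Finset.mul_sum]
        refine Finset.sum_congr rfl fun x _ => ?_
        ring
    _ = ∑ y, Fintype.card X * c y ^ 2 := by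
        refine Finset.sum_congr rfl fun y _ => ?_
        rw [Finset.sum_eq_single y]
        · rw [horth, if_pos rfl]; ring
        · intro y' _ hy'
          rw [horth, if_neg (Ne.symm hy'), mul_zero]
        · simp
    _ = _ := by rw [Finset.mul_sum]

/-- Forster's theorem for vectors in general position. -/
theorem forster_general (H : X → Y → ℝ) (hH : ∀ x y, |H x y| = 1)
    (horth : ∀ y y', ∑ x, H x y * H x y' = if y = y' then (Fintype.card X : ℝ) else 0)
    (hX : 0 < Fintype.card X)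
    (u : X → Fin d → ℝ) (v : Y → Fin d → ℝ) (hsign : ∀ x y, 0 < H x y * (u x ⬝ᵥ v y))
    (σ : Fin d → Equiv.Perm X)
    (hσ : ∀ w, Matrix.det (Matrix.of fun j => u (σ j w)) ≠ 0) :
    (Fintype.card Y : ℝ) ≤ d ^ 2 := by
  rcases isEmpty_or_nonempty Y with hY | hY
  · simp
  obtain ⟨y0⟩ := hY
  obtain ⟨x0⟩ := Fintype.card_pos_iff.1 hX
  have hu : ∀ x, u x ≠ 0 := by
    intro x h
    have := hsign x y0
    rw [h, zero_dotProduct, mul_zero] at this
    exact lt_irrefl _ this
  have hv : ∀ y, v y ≠ 0 := by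
    intro y h
    have := hsign x0 y
    rw [h, dotProduct_zero, mul_zero] at this
    exact lt_irrefl _ this
  have hXr : (0 : ℝ) < Fintype.card X := by exact_mod_cast hX
  have hYr : (0 : ℝ) < Fintype.card Y := by exact_mod_cast Fintype.card_pos_iff.2 ⟨y0⟩
  -- the bound with a loss of `ε`
  have main : ∀ ε : ℝ, 0 < ε → ε ≤ 1 → (1 - ε) ^ 2 * Fintype.card Y ≤ d ^ 2 := by
    intro ε hε hε1
    obtain ⟨A, hA, hiso⟩ := exists_isotropic u hu σ hσ hX ε hε
    have hnA : ∀ x, 0 < nrm u A x := fun x => dot_self_pos (mulVec_ne_zero hA (hu x))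
    -- the transformed vectors
    let v' : Y → Fin d → ℝ := fun y => (A⁻¹)ᵀ *ᵥ v y
    have hdu : IsUnit A.det := isUnit_iff_ne_zero.2 hA
    have hv'0 : ∀ y, v' y ≠ 0 := by
      intro y
      refine mulVec_ne_zero ?_ (hv y)
      rw [Matrix.det_transpose]
      exact (Matrix.isUnit_nonsing_inv_det A hdu).ne_zero
    have hdot : ∀ x y, (A *ᵥ u x) ⬝ᵥ v' y = u x ⬝ᵥ v y := by
      intro x y
      show (A *ᵥ u x) ⬝ᵥ ((A⁻¹)ᵀ *ᵥ v y) = _
      rw [Matrix.dotProduct_mulVec, Matrix.vecMul_transpose, Matrix.mulVec_mulVec,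
        Matrix.nonsing_inv_mul A hdu, Matrix.one_mulVec]
    let a : X → ℝ := fun x => Real.sqrt (nrm u A x)
    let b : Y → ℝ := fun y => Real.sqrt (v' y ⬝ᵥ v' y)
    have ha : ∀ x, 0 < a x := fun x => Real.sqrt_pos.2 (hnA x)
    have hb : ∀ y, 0 < b y := fun y => Real.sqrt_pos.2 (dot_self_pos (hv'0 y))
    have ha2 : ∀ x, a x ^ 2 = nrm u A x := fun x => Real.sq_sqrt (hnA x).le
    have hb2 : ∀ y, b y ^ 2 = v' y ⬝ᵥ v' y := fun y => Real.sq_sqrt (dot_self_pos (hv'0 y)).le
    -- normalised vectors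
    let U : X → Fin d → ℝ := fun x => (a x)⁻¹ • (A *ᵥ u x)
    let V : Y → Fin d → ℝ := fun y => (b y)⁻¹ • v' y
    have hU1 : ∀ x, U x ⬝ᵥ U x = 1 := by
      intro x
      show ((a x)⁻¹ • (A *ᵥ u x)) ⬝ᵥ ((a x)⁻¹ • (A *ᵥ u x)) = 1
      rw [smul_dotProduct, dotProduct_smul]
      have : (A *ᵥ u x) ⬝ᵥ (A *ᵥ u x) = a x ^ 2 := (ha2 x).symm
      rw [this]
      have := (ha x).ne'
      simp only [smul_eq_mul]
      field_simp
    have hV1 : ∀ y, V y ⬝ᵥ V y = 1 := by
      intro y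
      show ((b y)⁻¹ • v' y) ⬝ᵥ ((b y)⁻¹ • v' y) = 1
      rw [smul_dotProduct, dotProduct_smul, ← hb2]
      have := (hb y).ne'
      simp only [smul_eq_mul]
      field_simp
    have hUV : ∀ x y, U x ⬝ᵥ V y = (a x)⁻¹ * (b y)⁻¹ * (u x ⬝ᵥ v y) := by
      intro x y
      show ((a x)⁻¹ • (A *ᵥ u x)) ⬝ᵥ ((b y)⁻¹ • v' y) = _
      rw [smul_dotProduct, dotProduct_smul, hdot]
      simp only [smul_eq_mul]
      ring
    have hCS : ∀ x y, (U x ⬝ᵥ V y) ^ 2 ≤ 1 := by
      intro x y
      have := Finset.sum_mul_sq_le_sq_mul_sq univ (U x) (V y)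
      have e1 : ∑ i, U x i ^ 2 = 1 := by
        rw [← hU1 x]; exact Finset.sum_congr rfl fun i _ => by ring
      have e2 : ∑ i, V y i ^ 2 = 1 := by
        rw [← hV1 y]; exact Finset.sum_congr rfl fun i _ => by ring
      rw [e1, e2, one_mul] at this
      exact this
    have hpos : ∀ x y, 0 < H x y * (U x ⬝ᵥ V y) := by
      intro x y
      rw [hUV]
      have h1 := hsign x y
      have h2 := inv_pos.2 (ha x)
      have h3 := inv_pos.2 (hb y)
      have : H x y * ((a x)⁻¹ * (b y)⁻¹ * (u x ⬝ᵥ v y))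
          = (a x)⁻¹ * (b y)⁻¹ * (H x y * (u x ⬝ᵥ v y)) := by ring
      rw [this]
      positivity
    have hge : ∀ x y, (U x ⬝ᵥ V y) ^ 2 ≤ H x y * (U x ⬝ᵥ V y) := by
      intro x y
      have h1 : (H x y * (U x ⬝ᵥ V y)) ^ 2 = (U x ⬝ᵥ V y) ^ 2 := by
        rw [mul_pow, ← sq_abs (H x y), hH, one_pow, one_mul]
      have h2 := hCS x y
      rw [← h1] at h2 ⊢
      have h3 := hpos x y
      have h4 : H x y * (U x ⬝ᵥ V y) ≤ 1 := by
        by_contra h5
        push Not at h5
        nlinarith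
      nlinarith
    -- lower bound
    have hlow : ∀ y, (1 - ε) * Fintype.card X ≤ d * ∑ x, H x y * (U x ⬝ᵥ V y) := by
      intro y
      refine (hiso (V y) (hV1 y)).trans ?_
      refine mul_le_mul_of_nonneg_left ?_ (Nat.cast_nonneg d)
      refine Finset.sum_le_sum fun x _ => ?_
      refine le_trans (le_of_eq ?_) (hge x y)
      have h1 : U x ⬝ᵥ V y = (a x)⁻¹ * ((A *ᵥ u x) ⬝ᵥ V y) := by
        show ((a x)⁻¹ • (A *ᵥ u x)) ⬝ᵥ V y = _
        rw [smul_dotProduct, smul_eq_mul]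
      rw [h1, mul_pow, inv_pow, ha2]
      ring
    have hlow2 : (1 - ε) * (Fintype.card X * Fintype.card Y)
        ≤ d * ∑ y, ∑ x, H x y * (U x ⬝ᵥ V y) := by
      have := Finset.sum_le_sum (fun y (_ : y ∈ (univ : Finset Y)) => hlow y)
      rw [Finset.sum_const, Finset.card_univ, nsmul_eq_mul, ← Finset.mul_sum] at this
      linarith
    -- upper bound
    have hup : (∑ y, ∑ x, H x y * (U x ⬝ᵥ V y)) ^ 2
        ≤ Fintype.card X * (Fintype.card X * Fintype.card Y) := by
      have e1 : ∑ y, ∑ x, H x y * (U x ⬝ᵥ V y)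
          = ∑ p : X × Fin d, U p.1 p.2 * ∑ y, H p.1 y * V y p.2 := by
        rw [Fintype.sum_prod_type, Finset.sum_comm]
        refine Finset.sum_congr rfl fun x _ => ?_
        simp only [dotProduct, Finset.mul_sum]
        rw [Finset.sum_comm]
        refine Finset.sum_congr rfl fun k _ => ?_
        refine Finset.sum_congr rfl fun y _ => ?_
        ring
      rw [e1]
      refine (Finset.sum_mul_sq_le_sq_mul_sq univ _ _).trans ?_
      have e2 : ∑ p : X × Fin d, U p.1 p.2 ^ 2 = Fintype.card X := by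
        rw [Fintype.sum_prod_type]
        have : ∀ x, ∑ k, U x k ^ 2 = 1 := by
          intro x
          rw [← hU1 x]; exact Finset.sum_congr rfl fun i _ => by ring
        simp [this]
      have e3 : ∑ p : X × Fin d, (∑ y, H p.1 y * V y p.2) ^ 2
          = Fintype.card X * Fintype.card Y := by
        rw [Fintype.sum_prod_type, Finset.sum_comm]
        simp only [sum_sq_of_orth H horth]
        rw [← Finset.mul_sum, Finset.sum_comm]
        have : ∀ y, ∑ k, V y k ^ 2 = 1 := by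
          intro y
          rw [← hV1 y]; exact Finset.sum_congr rfl fun i _ => by ring
        simp [this]
      rw [e2, e3]
    have h1 : ((1 - ε) * (Fintype.card X * Fintype.card Y)) ^ 2
        ≤ (d * ∑ y, ∑ x, H x y * (U x ⬝ᵥ V y)) ^ 2 := by
      have : 0 ≤ (1 - ε) * ((Fintype.card X : ℝ) * Fintype.card Y) :=
        mul_nonneg (by linarith) (by positivity)
      gcongr
    rw [mul_pow (d : ℝ)] at h1
    have h2 : (d : ℝ) ^ 2 * (∑ y, ∑ x, H x y * (U x ⬝ᵥ V y)) ^ 2
        ≤ d ^ 2 * (Fintype.card X * (Fintype.card X * Fintype.card Y)) := by gcongr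
    have h3 := h1.trans h2
    have h4 : 0 < (Fintype.card X : ℝ) ^ 2 * Fintype.card Y := by positivity
    have h5 : ((1 - ε) ^ 2 * Fintype.card Y) * ((Fintype.card X : ℝ) ^ 2 * Fintype.card Y)
        ≤ d ^ 2 * ((Fintype.card X : ℝ) ^ 2 * Fintype.card Y) := by
      calc _ = ((1 - ε) * (Fintype.card X * Fintype.card Y)) ^ 2 := by ring
        _ ≤ _ := h3
        _ = _ := by ring
    exact le_of_mul_le_mul_right h5 h4
  -- let `ε → 0`
  by_contra hcon
  push Not at hcon
  have h1 : Filter.Tendsto (fun ε : ℝ => (1 - ε) ^ 2 * (Fintype.card Y : ℝ)) (nhdsWithin 0 (Set.Ioi 0))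
      (nhds ((1 - 0) ^ 2 * (Fintype.card Y : ℝ))) := by
    refine Filter.Tendsto.mono_left ?_ nhdsWithin_le_nhds
    exact (Continuous.tendsto (by fun_prop) 0)
  have h2 : (1 - 0) ^ 2 * (Fintype.card Y : ℝ) ≤ d ^ 2 := by
    refine le_of_tendsto h1 ?_
    filter_upwards [Ioc_mem_nhdsGT (show (0 : ℝ) < 1 by norm_num)] with ε hε
    exact main ε hε.1 hε.2
  linarith

end

section

open Polynomial in
/-- A small perturbation puts the vectors in general position. -/
theorem forster {N d : ℕ} {Y : Type*} [Fintype Y] [DecidableEq Y] (H : Fin N → Y → ℝ)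
    (hH : ∀ x y, |H x y| = 1)
    (horth : ∀ y y', ∑ x, H x y * H x y' = if y = y' then (N : ℝ) else 0)
    (hN : 0 < N) (hd : d ≤ N)
    (u : Fin N → Fin d → ℝ) (v : Y → Fin d → ℝ) (hsign : ∀ x y, 0 < H x y * (u x ⬝ᵥ v y)) :
    (Fintype.card Y : ℝ) ≤ d ^ 2 := by
  have : NeZero N := ⟨hN.ne'⟩
  -- cyclic shifts
  let σ : Fin d → Equiv.Perm (Fin N) := fun j => Equiv.addRight (Fin.castLE hd j)
  have hσinj : ∀ w, Function.Injective fun j => σ j w := by
    intro w j j' hjj
    simp only [σ, Equiv.coe_addRight] at hjj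
    exact Fin.castLE_injective hd (add_left_cancel hjj)
  -- points on the moment curve
  let p : Fin N → Fin d → ℝ := fun x i => ((x : ℕ) : ℝ) ^ (i : ℕ)
  have hp : ∀ w, Matrix.det (Matrix.of fun j => p (σ j w)) ≠ 0 := by
    intro w
    have : (Matrix.of fun j => p (σ j w)) = Matrix.vandermonde fun j => (((σ j w : Fin N) : ℕ) : ℝ) := by
      ext i j; simp [p, Matrix.vandermonde]
    rw [this, Matrix.det_vandermonde_ne_zero_iff]
    intro j j' hjj
    have h1 : ((σ j w : Fin N) : ℕ) = ((σ j' w : Fin N) : ℕ) := by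
      have h2 : (((σ j w : Fin N) : ℕ) : ℝ) = (((σ j' w : Fin N) : ℕ) : ℝ) := hjj
      exact_mod_cast h2
    exact hσinj w (Fin.ext h1)
  -- the determinants are nonzero polynomials in `t`
  let P : Fin N → ℝ[X] := fun w =>
    Matrix.det ((X : ℝ[X]) • (Matrix.of fun j => p (σ j w)).map C + (Matrix.of fun j => u (σ j w)).map C)
  have hP : ∀ w, P w ≠ 0 := by
    intro w h
    have := Polynomial.coeff_det_X_add_C_card (Matrix.of fun j => p (σ j w))
      (Matrix.of fun j => u (σ j w))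
    change (P w).coeff _ = _ at this
    rw [h, Polynomial.coeff_zero] at this
    exact hp w this.symm
  have hPeval : ∀ w t, (P w).eval t = Matrix.det (Matrix.of fun j => (u (σ j w) + t • p (σ j w))) := by
    intro w t
    have := RingHom.map_det (Polynomial.evalRingHom t)
      ((X : ℝ[X]) • (Matrix.of fun j => p (σ j w)).map C + (Matrix.of fun j => u (σ j w)).map C)
    rw [Polynomial.coe_evalRingHom] at this
    rw [this]
    congr 1
    ext i j
    simp
    ring
  have hev1 : ∀ᶠ t : ℝ in nhdsWithin 0 (Set.Ioi 0), ∀ w, (P w).eval t ≠ 0 := by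
    rw [Filter.eventually_all]
    intro w
    have hfin : ((P w).roots.toFinset : Set ℝ).Finite := Finset.finite_toSet _
    have h1 : (((P w).roots.toFinset : Set ℝ) \ {0})ᶜ ∈ nhds (0 : ℝ) := by
      refine (hfin.subset Set.sdiff_subset).isClosed.isOpen_compl.mem_nhds ?_
      simp
    filter_upwards [nhdsWithin_le_nhds h1, self_mem_nhdsWithin] with t ht ht0 hroot
    refine ht ⟨?_, ne_of_gt ht0⟩
    simp only [Finset.mem_coe, Multiset.mem_toFinset]
    exact (Polynomial.mem_roots (hP w)).2 hroot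
  have hev2 : ∀ᶠ t : ℝ in nhdsWithin 0 (Set.Ioi 0),
      ∀ x y, 0 < H x y * ((u x + t • p x) ⬝ᵥ v y) := by
    rw [Filter.eventually_all]
    intro x
    rw [Filter.eventually_all]
    intro y
    have hc : Filter.Tendsto (fun t : ℝ => H x y * ((u x + t • p x) ⬝ᵥ v y)) (nhdsWithin 0 (Set.Ioi 0))
        (nhds (H x y * ((u x + (0 : ℝ) • p x) ⬝ᵥ v y))) := by
      refine Filter.Tendsto.mono_left ?_ nhdsWithin_le_nhds
      refine Continuous.tendsto ?_ 0
      simp only [add_dotProduct, smul_dotProduct, smul_eq_mul]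
      fun_prop
    refine hc.eventually (lt_mem_nhds ?_)
    simpa using hsign x y
  obtain ⟨t, h1, h2⟩ := (hev1.and hev2).exists
  refine forster_general H hH (by simpa using horth) (by simpa using hN) (fun x => u x + t • p x) v h2 σ ?_
  intro w
  rw [← hPeval]
  exact h1 w

end

end Pool.Agent.H524R2
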