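import Pool.Agent.H524R2.Defs

/-! # A nondeterministic one-tape machine for the intersection of two sets -/

namespace Pool.Agent.H524R2

open Finset Function

/-- States of the guessing machine: searching, accepting, and counters. -/
abbrev GQ (n : ℕ) : Type := Option (Option (Fin n))

/-- The guessing machine: it moves to the right, may choose any cell which contains `1`, then moves
`n` cells to the right and accepts if that cell also contains `1`. -/
def guess (n : ℕ) (hn : 1 ≤ n) : Machine ℕ Bool (GQ n) Bool where
  start := none
  accepting := {some none}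
  blank := false
  input := id
  weight q a o := match q with
    | none => (if o = (none, a, Move.right) then 1 else 0) +
        (if a = true ∧ o = (some (some ⟨n - 1, by omega⟩), a, Move.right) then 1 else 0)
    | some none => if o = (some none, a, Move.stay) then 1 else 0
    | some (some c) =>
        if (c : ℕ) = 0 then (if a = true ∧ o = (some none, a, Move.stay) then 1 else 0)
        else (if o = (some (some ⟨c - 1, by omega⟩), a, Move.right) then 1 else 0)

theorem guess_weight_le (n : ℕ) (hn : 1 ≤ n) (q : GQ n) (a : Bool) (o : GQ n × Bool × Move) :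
    (guess n hn).weight q a o ≤ 1 := by
  rcases q with _ | _ | c
  · show (if o = (none, a, Move.right) then 1 else 0) +
        (if a = true ∧ o = (some (some ⟨n - 1, _⟩), a, Move.right) then 1 else 0) ≤ 1
    by_cases h : o = (none, a, Move.right)
    · rw [if_pos h, if_neg]
      rintro ⟨-, h2⟩
      rw [h] at h2
      exact absurd (congrArg Prod.fst h2) (by simp)
    · rw [if_neg h]
      split_ifs <;> omega
  · show (if o = (some none, a, Move.stay) then 1 else 0) ≤ 1
    split_ifs <;> omega
  · show (if (c : ℕ) = 0 then (if a = true ∧ o = (some none, a, Move.stay) then 1 else 0)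
        else (if o = (some (some ⟨c - 1, _⟩), a, Move.right) then 1 else 0)) ≤ 1
    split_ifs <;> omega

section

variable (n : ℕ) (hn : 1 ≤ n)

/-- one if the bit is set -/
def bt (b : Bool) : ℕ := if b = true then 1 else 0

theorem guess_acc (t : ℕ) (h : ℤ) (τ : ℤ → Bool) :
    (guess n hn).value t (some none) h τ = 1 := by
  classical
  induction t generalizing h τ with
  | zero => simp [Machine.value, guess]
  | succ t ih =>
    rw [Machine.value, Finset.sum_eq_single (some none, τ h, Move.stay)]
    · rw [ih]
      simp [guess]
    · intro o _ ho
      have : (guess n hn).weight (some none) (τ h) o = 0 := if_neg ho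
      rw [this, zero_mul]
    · simp

theorem guess_cnt (t : ℕ) (c : Fin n) (h : ℤ) (τ : ℤ → Bool) :
    (guess n hn).value t (some (some c)) h τ = if (c : ℕ) < t then bt (τ (h + c)) else 0 := by
  classical
  induction t generalizing c h τ with
  | zero => simp [Machine.value, guess]
  | succ t ih =>
    rw [Machine.value]
    by_cases hc : (c : ℕ) = 0
    · have hw : ∀ o, (guess n hn).weight (some (some c)) (τ h) o
          = if τ h = true ∧ o = (some none, τ h, Move.stay) then 1 else 0 := by
        intro o
        show (if (c : ℕ) = 0 then (if τ h = true ∧ o = (some none, τ h, Move.stay) then 1 else 0)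
          else (if o = (some (some ⟨c - 1, _⟩), τ h, Move.right) then 1 else 0)) = _
        rw [if_pos hc]
      rw [Finset.sum_eq_single (some none, τ h, Move.stay)]
      · rw [guess_acc, hw]
        simp [hc, bt]
      · intro o _ ho
        rw [hw, if_neg (fun h2 => ho h2.2), zero_mul]
      · simp
    · have hw : ∀ o, (guess n hn).weight (some (some c)) (τ h) o
          = if o = (some (some ⟨c - 1, by omega⟩), τ h, Move.right) then 1 else 0 := by
        intro o
        show (if (c : ℕ) = 0 then (if τ h = true ∧ o = (some none, τ h, Move.stay) then 1 else 0)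
          else (if o = (some (some ⟨c - 1, _⟩), τ h, Move.right) then 1 else 0)) = _
        rw [if_neg hc]
      rw [Finset.sum_eq_single (some (some ⟨c - 1, by omega⟩), τ h, Move.right)]
      · rw [hw, if_pos rfl, one_mul]
        show (guess n hn).value t (some (some ⟨c - 1, _⟩)) (h + 1) (update τ h (τ h)) = _
        rw [ih, update_eq_self]
        have e1 : h + 1 + (((c : ℕ) - 1 : ℕ) : ℤ) = h + (c : ℕ) := by
          have : (1 : ℕ) ≤ c := by omega
          push_cast [this]
          ring
        show (if (c : ℕ) - 1 < t then bt (τ (h + 1 + (((c : ℕ) - 1 : ℕ) : ℤ))) else 0) = _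
        rw [e1]
        by_cases h2 : (c : ℕ) < t + 1
        · rw [if_pos (by omega), if_pos h2]
        · rw [if_neg (by omega), if_neg h2]
      · intro o _ ho
        rw [hw, if_neg ho, zero_mul]
      · simp

theorem guess_search (t : ℕ) (h : ℤ) (τ : ℤ → Bool) :
    (guess n hn).value t none h τ = ∑ j ∈ range t, bt (τ (h + j)) *
      (if n + j < t then bt (τ (h + j + n)) else 0) := by
  classical
  induction t generalizing h τ with
  | zero => simp [Machine.value, guess]
  | succ t ih =>
    rw [Machine.value]
    have hw : ∀ o, (guess n hn).weight none (τ h) o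
        = (if o = (none, τ h, Move.right) then 1 else 0) +
        (if τ h = true ∧ o = (some (some ⟨n - 1, by omega⟩), τ h, Move.right) then 1 else 0) :=
      fun o => rfl
    simp only [hw, add_mul, Finset.sum_add_distrib]
    rw [Finset.sum_eq_single (none, τ h, Move.right), Finset.sum_eq_single
      (some (some ⟨n - 1, by omega⟩), τ h, Move.right)]
    · rw [if_pos rfl, one_mul, Finset.sum_range_succ']
      show (guess n hn).value t none (h + 1) (update τ h (τ h)) +
        _ * (guess n hn).value t (some (some ⟨n - 1, _⟩)) (h + 1) (update τ h (τ h)) = _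
      rw [update_eq_self, ih, guess_cnt]
      congr 1
      · refine Finset.sum_congr rfl fun j _ => ?_
        have e1 : h + 1 + (j : ℤ) = h + ((j + 1 : ℕ) : ℤ) := by push_cast; ring
        rw [e1]
        by_cases h2 : n + j < t
        · rw [if_pos h2, if_pos (by omega)]
        · rw [if_neg h2, if_neg (by omega)]
      · have e1 : h + 1 + (((n - 1 : ℕ) : ℕ) : ℤ) = h + ((0 : ℕ) : ℤ) + n := by
          push_cast [hn]; ring
        show _ * (if n - 1 < t then bt (τ (h + 1 + (((n - 1 : ℕ) : ℕ) : ℤ))) else 0) = _
        rw [e1]
        have e2 : (n - 1 < t) = (n + 0 < t + 1) := by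
          apply propext; omega
        simp only [e2, Nat.cast_zero, add_zero, and_true, bt]
    · intro o _ ho
      rw [if_neg (fun h2 => ho h2.2), zero_mul]
    · simp
    · intro o _ ho
      rw [if_neg ho, zero_mul]
    · simp

/-- The number of accepting computations of `2 n` steps of the guessing machine on the word `x y`
is the size of the intersection of `x` and `y`. -/
theorem guess_run (x y : Fin n → Bool) :
    (guess n hn).run (2 * n) (List.ofFn x ++ List.ofFn y)
      = (univ.filter (fun i => x i = true ∧ y i = true)).card := by
  unfold Machine.run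
  show (guess n hn).value (2 * n) none 0 _ = _
  rw [guess_search]
  have hτ1 : ∀ j : ℕ, (hj : j < n) → (guess n hn).tape (List.ofFn x ++ List.ofFn y) (0 + (j : ℤ))
      = x ⟨j, hj⟩ := by
    intro j hj
    unfold Machine.tape
    rw [if_pos (by positivity)]
    have : (0 + (j : ℤ)).toNat = j := by simp
    rw [this, List.getElem?_append_left (by simpa using hj)]
    simp [hj, guess]
  have hτ2 : ∀ j : ℕ, (hj : j < n) → (guess n hn).tape (List.ofFn x ++ List.ofFn y) (0 + (j : ℤ) + n)
      = y ⟨j, hj⟩ := by
    intro j hj
    unfold Machine.tape
    rw [if_pos (by positivity)]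
    have : (0 + (j : ℤ) + n).toNat = n + j := by omega
    rw [this, List.getElem?_append_right (by simp)]
    simp [hj, guess]
  rw [Finset.card_filter, two_mul, Finset.sum_range_add, Finset.sum_eq_zero (s := range n)
    (f := fun j => bt _ * (if n + (n + j) < n + n then _ else 0)), add_zero,
    ← Fin.sum_univ_eq_sum_range (fun j => bt ((guess n hn).tape (List.ofFn x ++ List.ofFn y) (0 + (j : ℤ))) *
      if n + j < n + n then bt ((guess n hn).tape (List.ofFn x ++ List.ofFn y) (0 + (j : ℤ) + n)) else 0) n]
  · refine Finset.sum_congr rfl fun i _ => ?_
    rw [hτ1 i i.2, hτ2 i i.2, if_pos (by omega)]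
    cases x i <;> cases y i <;> simp [bt]
  · intro j _
    rw [if_neg (by omega), mul_zero]

end

end Pool.Agent.H524R2
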