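import Pool.Agent.H524R2.Forster

/-! # The sign rank of the inner product matrix -/

namespace Pool.Agent.H524R2

open Matrix Finset

/-- the sign `-∏ (-1)^(x_i y_i)` -/
def ipSign {m : ℕ} (x y : Fin m → Bool) : ℝ := -∏ i, (if x i && y i then (-1 : ℝ) else 1)

theorem abs_ipSign {m : ℕ} (x y : Fin m → Bool) : |ipSign x y| = 1 := by
  unfold ipSign
  rw [abs_neg, Finset.abs_prod]
  refine Finset.prod_eq_one fun i _ => ?_
  split_ifs <;> simp

theorem ipSign_orth {m : ℕ} (y y' : Fin m → Bool) :
    ∑ x : Fin m → Bool, ipSign x y * ipSign x y' = if y = y' then (2 : ℝ) ^ m else 0 := by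
  unfold ipSign
  have h1 : ∀ x : Fin m → Bool, (-∏ i, (if x i && y i then (-1 : ℝ) else 1)) *
      (-∏ i, (if x i && y' i then (-1 : ℝ) else 1))
      = ∏ i, ((if x i && y i then (-1 : ℝ) else 1) * (if x i && y' i then (-1 : ℝ) else 1)) := by
    intro x
    rw [neg_mul_neg, Finset.prod_mul_distrib]
  simp_rw [h1]
  have h2 := Finset.prod_univ_sum (fun _ : Fin m => (univ : Finset Bool))
    (fun i b => (if b && y i then (-1 : ℝ) else 1) * (if b && y' i then (-1 : ℝ) else 1))
  rw [Fintype.piFinset_univ] at h2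
  rw [← h2]
  split_ifs with h
  · subst h
    have : ∀ i, ∑ b : Bool, (if b && y i then (-1 : ℝ) else 1) * (if b && y i then (-1 : ℝ) else 1)
        = 2 := by
      intro i
      cases y i <;> norm_num
    rw [Finset.prod_congr rfl (fun i _ => this i)]
    simp
  · obtain ⟨i, hi⟩ : ∃ i, y i ≠ y' i := by
      by_contra hcon
      push Not at hcon
      exact h (funext hcon)
    refine Finset.prod_eq_zero (Finset.mem_univ i) ?_
    cases h3 : y i <;> cases h4 : y' i <;> simp_all

/-- Every matrix with the sign pattern of the inner product matrix of order `2 ^ m`, after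
subtraction of a constant, has rank at least `2 ^ (m / 2) - 1`. -/
theorem sign_rank_bound {m : ℕ} {ι : Type} [Fintype ι] (α : ι → (Fin m → Bool) → ℝ)
    (β : ι → (Fin m → Bool) → ℝ) (θ : ℝ)
    (h : ∀ x y, θ < ∑ i, α i x * β i y ↔ 0 < ipSign x y) :
    (2 : ℝ) ^ m ≤ (Fintype.card ι + 1) ^ 2 := by
  classical
  -- a strict threshold
  obtain ⟨θ', hθ1, hθ2⟩ : ∃ θ' : ℝ, θ < θ' ∧ ∀ x y, θ < ∑ i, α i x * β i y →
      θ' < ∑ i, α i x * β i y := by
    let S : Finset ((Fin m → Bool) × (Fin m → Bool)) :=
      univ.filter fun p => θ < ∑ i, α i p.1 * β i p.2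
    by_cases hS : S.Nonempty
    · obtain ⟨p, hp, hmin⟩ := S.exists_min_image (fun p => ∑ i, α i p.1 * β i p.2) hS
      have hp' : θ < ∑ i, α i p.1 * β i p.2 := (Finset.mem_filter.1 hp).2
      obtain ⟨θ', h1, h2⟩ := exists_between hp'
      refine ⟨θ', h1, fun x y hxy => ?_⟩
      exact lt_of_lt_of_le h2 (hmin (x, y) (Finset.mem_filter.2 ⟨Finset.mem_univ _, hxy⟩))
    · refine ⟨θ + 1, by linarith, fun x y hxy => ?_⟩
      exact absurd ⟨(x, y), Finset.mem_filter.2 ⟨Finset.mem_univ _, hxy⟩⟩ hS
  set D := Fintype.card ι + 1 with hD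
  have hcardN : Fintype.card (Fin m → Bool) = 2 ^ m := by simp
  rcases le_or_gt D (2 ^ m) with hle | hgt
  · have hcardO : Fintype.card (Option ι) = D := Fintype.card_option
    let eI : Option ι ≃ Fin D := Fintype.equivFinOfCardEq hcardO
    let eX : (Fin m → Bool) ≃ Fin (2 ^ m) := Fintype.equivFinOfCardEq hcardN
    let a : Option ι → (Fin m → Bool) → ℝ := fun o x => o.elim (-θ') (fun i => α i x)
    let b : Option ι → (Fin m → Bool) → ℝ := fun o y => o.elim 1 (fun i => β i y)
    have hab : ∀ x y, ∑ o, a o x * b o y = ∑ i, α i x * β i y - θ' := by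
      intro x y
      rw [Fintype.sum_option]
      simp [a, b]
      ring
    have key := forster (fun (x : Fin (2 ^ m)) (y : Fin m → Bool) => ipSign (eX.symm x) y)
      (fun x y => abs_ipSign _ _)
      (fun y y' => by
        rw [Equiv.sum_comp eX.symm (fun x => ipSign x y * ipSign x y'), ipSign_orth]
        push_cast
        rfl)
      (by positivity) hle (fun x j => a (eI.symm j) (eX.symm x)) (fun y j => b (eI.symm j) y)
      (fun x y => by
        have e1 : (fun j => a (eI.symm j) (eX.symm x)) ⬝ᵥ (fun j => b (eI.symm j) y)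
            = ∑ i, α i (eX.symm x) * β i y - θ' := by
          rw [← hab]
          exact Equiv.sum_comp eI.symm (fun o => a o (eX.symm x) * b o y)
        rw [e1]
        by_cases hpos : 0 < ipSign (eX.symm x) y
        · have := hθ2 _ _ ((h _ _).2 hpos)
          exact mul_pos hpos (by linarith)
        · have h1 := abs_ipSign (eX.symm x) y
          have h2 : ipSign (eX.symm x) y < 0 := by
            rcases lt_trichotomy (ipSign (eX.symm x) y) 0 with h3 | h3 | h3
            · exact h3
            · rw [h3] at h1; simp at h1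
            · exact absurd h3 hpos
          have h3 : ∑ i, α i (eX.symm x) * β i y ≤ θ := not_lt.1 fun h4 => hpos ((h _ _).1 h4)
          exact mul_pos_of_neg_of_neg h2 (by linarith))
    rw [hcardN] at key
    push_cast at key
    rw [hD] at key
    push_cast at key
    exact key
  · have h1 : (2 : ℝ) ^ m ≤ D := by exact_mod_cast hgt.le
    have h2 : (1 : ℝ) ≤ D := by rw [hD]; push_cast; have : (0 : ℝ) ≤ Fintype.card ι := Nat.cast_nonneg _; linarith
    have h3 : (2 : ℝ) ^ m ≤ (D : ℝ) ^ 2 := by nlinarith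
    rw [hD] at h3
    push_cast at h3
    exact h3

end Pool.Agent.H524R2
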