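import Pool.Agent.H524R2.Formula
import Pool.Agent.H524R2.SignRank

/-! # Expressions which compute the inner product modulo two -/

namespace Pool.Agent.H524R2

open Finset

/-- `p ↔ q` -/
def iffF (p q : Formula) : Formula :=
  Formula.or (Formula.and p q) (Formula.and (Formula.not p) (Formula.not q))

theorem eval_iffF (v : ℕ → Bool) (p q : Formula) :
    (iffF p q).eval v = (p.eval v == q.eval v) := by
  simp only [iffF, Formula.eval]
  cases p.eval v <;> cases q.eval v <;> rfl

theorem length_iffF (p q : Formula) :
    (iffF p q).encode.length = 2 * p.encode.length + 2 * q.encode.length + 11 := by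
  simp only [iffF, Formula.encode, List.length_cons, List.length_append, List.length_nil]
  omega

/-- one link of the parity chain: `z_{i+1} ↔ ¬ (z_i ↔ (a_i ∧ b_i))` -/
def gate (k i : ℕ) : Formula :=
  iffF (nm k (8 * (i + 1) + 4))
    (Formula.not (iffF (nm k (8 * i + 4)) (Formula.and (nm k (8 * i + 1)) (nm k (8 * i + 3)))))

/-- not both -/
def notBoth (p q : Formula) : Formula := Formula.or (Formula.not p) (Formula.not q)

/-- the fixed items of block `i` -/
def blockItems (k i : ℕ) : List Formula :=
  [notBoth (nm k (8 * i)) (nm k (8 * i + 1)), notBoth (nm k (8 * i + 2)) (nm k (8 * i + 3)), gate k i]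

/-- the items which do not depend on the two inputs -/
def midItems (k m : ℕ) (pads : List Formula) : List Formula :=
  (List.range m).flatMap (blockItems k) ++ ([Formula.not (nm k 4), nm k (8 * m + 4)] ++ pads)

/-- the items which depend on the left input -/
def leftItems (k m : ℕ) (x : ℕ → Bool) : List Formula :=
  (List.range m).map fun i => nm k (8 * i + if x i then 1 else 0)

/-- the items which depend on the right input -/
def rightItems (k m : ℕ) (y : ℕ → Bool) : List Formula :=
  (List.range m).map fun i => nm k (8 * i + if y i then 3 else 2)

/-- the expression which is satisfiable if and only if the inner product of `x` and `y` is odd -/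
def ipFormula (k m : ℕ) (pads : List Formula) (x y : ℕ → Bool) : Formula :=
  bigAnd (leftItems k m x ++ (midItems k m pads ++ rightItems k m y)) (Formula.var 0)

/-- the parity of the inner product of the first `j` bits -/
def par (x y : ℕ → Bool) : ℕ → Bool
  | 0 => false
  | j + 1 => xor (par x y j) (x j && y j)

/-! ### Lengths -/

/-- the cost of an item list inside a big conjunction, without closing parentheses -/
def cost (l : List Formula) : ℕ := (l.flatMap (fun f => Sym.lpar :: (f.encode ++ [Sym.and]))).length

theorem cost_nil : cost [] = 0 := rfl

theorem cost_cons (f : Formula) (l : List Formula) : cost (f :: l) = f.encode.length + 2 + cost l := by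
  simp [cost]; omega

theorem cost_append (l l' : List Formula) : cost (l ++ l') = cost l + cost l' := by
  simp [cost]

theorem cost_leftItems {k m : ℕ} (hk : 8 * (m + 1) ≤ 2 ^ k) (x : ℕ → Bool) :
    cost (leftItems k m x) = m * (k + 4) := by
  unfold leftItems
  have : ∀ l : List ℕ, (∀ i ∈ l, i < m) →
      cost (l.map fun i => nm k (8 * i + if x i then 1 else 0)) = l.length * (k + 4) := by
    intro l
    induction l with
    | nil => simp [cost_nil]
    | cons i l ih =>
      intro hl
      rw [List.map_cons, cost_cons, ih (fun j hj => hl j (by simp [hj])), length_nm]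
      · simp only [List.length_cons]; ring
      · have := hl i (by simp)
        split_ifs <;> omega
  rw [this _ (by simp)]
  simp

theorem cost_rightItems {k m : ℕ} (hk : 8 * (m + 1) ≤ 2 ^ k) (y : ℕ → Bool) :
    cost (rightItems k m y) = m * (k + 4) := by
  unfold rightItems
  have : ∀ l : List ℕ, (∀ i ∈ l, i < m) →
      cost (l.map fun i => nm k (8 * i + if y i then 3 else 2)) = l.length * (k + 4) := by
    intro l
    induction l with
    | nil => simp [cost_nil]
    | cons i l ih =>
      intro hl
      rw [List.map_cons, cost_cons, ih (fun j hj => hl j (by simp [hj])), length_nm]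
      · simp only [List.length_cons]; ring
      · have := hl i (by simp)
        split_ifs <;> omega
  rw [this _ (by simp)]
  simp

theorem cost_blocks {k m : ℕ} (hk : 8 * (m + 1) ≤ 2 ^ k) :
    cost ((List.range m).flatMap (blockItems k)) = m * (18 * (k + 2) + 63) := by
  have : ∀ l : List ℕ, (∀ i ∈ l, i < m) →
      cost (l.flatMap (blockItems k)) = l.length * (18 * (k + 2) + 63) := by
    intro l
    induction l with
    | nil => simp [cost_nil]
    | cons i l ih =>
      intro hl
      have him := hl i (by simp)
      have h0 : (nm k (8 * i)).encode.length = k + 2 := length_nm (by omega)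
      have h1 : (nm k (8 * i + 1)).encode.length = k + 2 := length_nm (by omega)
      have h2 : (nm k (8 * i + 2)).encode.length = k + 2 := length_nm (by omega)
      have h3 : (nm k (8 * i + 3)).encode.length = k + 2 := length_nm (by omega)
      have h4 : (nm k (8 * i + 4)).encode.length = k + 2 := length_nm (by omega)
      have h5 : (nm k (8 * (i + 1) + 4)).encode.length = k + 2 := length_nm (by omega)
      rw [List.flatMap_cons, cost_append, ih (fun j hj => hl j (by simp [hj]))]
      have : cost (blockItems k i) = 18 * (k + 2) + 63 := by
        simp only [blockItems, cost_cons, cost_nil, notBoth, gate, length_iffF, Formula.encode,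
          List.length_cons, List.length_append, List.length_nil, h0, h1, h2, h3, h4, h5]
        omega
      rw [this]
      simp only [List.length_cons]; ring
  rw [this _ (by simp)]
  simp

theorem length_blocks (k m : ℕ) : ((List.range m).flatMap (blockItems k)).length = 3 * m := by
  simp [blockItems, mul_comm]

theorem cost_midItems {k m : ℕ} (hk : 8 * (m + 1) ≤ 2 ^ k) (pads : List Formula) :
    cost (midItems k m pads) = m * (18 * (k + 2) + 63) + (2 * (k + 2) + 5) + cost pads := by
  have h4 : (nm k 4).encode.length = k + 2 := length_nm (by omega)
  have h5 : (nm k (8 * m + 4)).encode.length = k + 2 := length_nm (by omega)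
  rw [midItems, cost_append, cost_append, cost_blocks hk]
  simp only [cost_cons, cost_nil, Formula.encode, List.length_cons, h4, h5]
  omega

theorem length_midItems (k m : ℕ) (pads : List Formula) :
    (midItems k m pads).length = 3 * m + 2 + pads.length := by
  rw [midItems, List.length_append, length_blocks, List.length_append]
  simp only [List.length_cons, List.length_nil]
  omega

/-- the word of the left part -/
def uWord (k m : ℕ) (x : ℕ → Bool) : List Sym :=
  (leftItems k m x).flatMap (fun f => Sym.lpar :: (f.encode ++ [Sym.and]))

/-- the word of the middle part -/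
def midWord (k m : ℕ) (pads : List Formula) : List Sym :=
  (midItems k m pads).flatMap (fun f => Sym.lpar :: (f.encode ++ [Sym.and]))

/-- the word of the right part -/
def vWord (k m : ℕ) (pads : List Formula) (y : ℕ → Bool) : List Sym :=
  (rightItems k m y).flatMap (fun f => Sym.lpar :: (f.encode ++ [Sym.and])) ++
    ((Formula.var 0).encode ++ List.replicate (m + (3 * m + 2 + pads.length) + m) Sym.rpar)

theorem encode_ipFormula (k m : ℕ) (pads : List Formula) (x y : ℕ → Bool) :
    (ipFormula k m pads x y).encode = uWord k m x ++ midWord k m pads ++ vWord k m pads y := by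
  rw [ipFormula, encode_bigAnd]
  have hl : (leftItems k m x ++ (midItems k m pads ++ rightItems k m y)).length
      = m + (3 * m + 2 + pads.length) + m := by
    rw [List.length_append, List.length_append, length_midItems]
    simp [leftItems, rightItems]
    omega
  rw [hl, List.flatMap_append, List.flatMap_append, uWord, midWord, vWord]
  simp only [List.append_assoc]

theorem length_uWord {k m : ℕ} (hk : 8 * (m + 1) ≤ 2 ^ k) (x : ℕ → Bool) :
    (uWord k m x).length = m * (k + 4) := cost_leftItems hk x

theorem length_midWord {k m : ℕ} (hk : 8 * (m + 1) ≤ 2 ^ k) (pads : List Formula) :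
    (midWord k m pads).length = m * (18 * (k + 2) + 63) + (2 * (k + 2) + 5) + cost pads :=
  cost_midItems hk pads

theorem length_vWord {k m : ℕ} (hk : 8 * (m + 1) ≤ 2 ^ k) (pads : List Formula) (y : ℕ → Bool) :
    (vWord k m pads y).length = m * (k + 4) + (5 * m + pads.length + 4) := by
  rw [vWord, List.length_append, List.length_append, List.length_replicate]
  have := cost_rightItems hk y
  unfold cost at this
  rw [this]
  have : ((Formula.var 0).encode).length = 2 := by simp [Formula.encode, bin]
  rw [this]
  omega

theorem length_ipFormula {k m : ℕ} (hk : 8 * (m + 1) ≤ 2 ^ k) (pads : List Formula) (x y : ℕ → Bool) :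
    (ipFormula k m pads x y).encode.length
      = m * (20 * k + 112) + (2 * k + 13) + (cost pads + pads.length) := by
  rw [encode_ipFormula, List.length_append, List.length_append, length_uWord hk, length_midWord hk,
    length_vWord hk]
  ring

/-! ### Satisfiability -/

/-- the intended value of the variable number `2 ^ k + 8 i + t` -/
def val (x y : ℕ → Bool) (i t : ℕ) : Bool :=
  if t = 0 then !(x i) else if t = 1 then x i else if t = 2 then !(y i) else if t = 3 then y i
  else par x y i

/-- the intended assignment -/
def asg (k : ℕ) (x y : ℕ → Bool) (j : ℕ) : Bool :=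
  if j = 0 then true else val x y ((j + 1 - 2 ^ k) / 8) ((j + 1 - 2 ^ k) % 8)

theorem asg_nm (k : ℕ) (hk : 1 ≤ k) (x y : ℕ → Bool) (i t : ℕ) (ht : t < 8) :
    (nm k (8 * i + t)).eval (asg k x y) = val x y i t := by
  have h0 : 2 ≤ 2 ^ k := by
    calc 2 = 2 ^ 1 := rfl
      _ ≤ 2 ^ k := Nat.pow_le_pow_right (by norm_num) hk
  rw [eval_nm, asg, if_neg (by omega)]
  have h1 : 2 ^ k + (8 * i + t) - 1 + 1 - 2 ^ k = 8 * i + t := by omega
  rw [h1]
  have h2 : (8 * i + t) / 8 = i := by omega
  have h3 : (8 * i + t) % 8 = t := by omega
  rw [h2, h3]

theorem satisfiable_ipFormula (k m : ℕ) (hk : 1 ≤ k) (pads : List Formula)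
    (hp : ∀ f ∈ pads, ∃ j, f = pad j) (x y : ℕ → Bool) :
    (ipFormula k m pads x y).Satisfiable ↔ par x y m = true := by
  constructor
  · rintro ⟨v, hv⟩
    rw [ipFormula, eval_bigAnd] at hv
    obtain ⟨hv, -⟩ := hv
    have hmem : ∀ f ∈ midItems k m pads, f.eval v = true := fun f hf => hv f (by simp [hf])
    have hblk : ∀ i < m, ∀ f ∈ blockItems k i, f.eval v = true := by
      intro i hi f hf
      refine hmem f ?_
      rw [midItems, List.mem_append]
      left
      exact List.mem_flatMap.2 ⟨i, List.mem_range.2 hi, hf⟩
    have hz0 : (Formula.not (nm k 4)).eval v = true := hmem _ (by simp [midItems])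
    have hzm : (nm k (8 * m + 4)).eval v = true := hmem _ (by simp [midItems])
    have hx : ∀ i < m, (nm k (8 * i + if x i then 1 else 0)).eval v = true := by
      intro i hi
      refine hv _ ?_
      simp only [List.mem_append]
      left
      exact List.mem_map.2 ⟨i, List.mem_range.2 hi, rfl⟩
    have hy : ∀ i < m, (nm k (8 * i + if y i then 3 else 2)).eval v = true := by
      intro i hi
      refine hv _ ?_
      simp only [List.mem_append]
      right; right
      exact List.mem_map.2 ⟨i, List.mem_range.2 hi, rfl⟩
    have ha : ∀ i < m, (nm k (8 * i + 1)).eval v = x i := by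
      intro i hi
      have h1 := hblk i hi _ (List.mem_cons_self)
      have h2 := hx i hi
      simp only [notBoth, Formula.eval] at h1
      cases hxi : x i
      · simp only [hxi, Bool.false_eq_true, if_false, add_zero] at h2
        rw [h2] at h1
        simpa using h1
      · simpa [hxi] using h2
    have hb : ∀ i < m, (nm k (8 * i + 3)).eval v = y i := by
      intro i hi
      have h1 := hblk i hi (notBoth (nm k (8 * i + 2)) (nm k (8 * i + 3))) (by simp [blockItems])
      have h2 := hy i hi
      simp only [notBoth, Formula.eval] at h1
      cases hyi : y i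
      · simp only [hyi, Bool.false_eq_true, if_false] at h2
        rw [h2] at h1
        simpa using h1
      · simpa [hyi] using h2
    have hz : ∀ j ≤ m, (nm k (8 * j + 4)).eval v = par x y j := by
      intro j
      induction j with
      | zero =>
        intro _
        simp only [Formula.eval] at hz0
        simpa [par] using hz0
      | succ j ih =>
        intro hj
        have h1 := hblk j (by omega) (gate k j) (by simp [blockItems])
        rw [gate, eval_iffF] at h1
        simp only [Formula.eval, eval_iffF, ha j (by omega), hb j (by omega), ih (by omega)] at h1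
        rw [par]
        rw [beq_iff_eq] at h1
        rw [h1]
        cases par x y j <;> cases (x j && y j) <;> rfl
    rw [← hz m le_rfl, hzm]
  · intro hpar
    refine ⟨asg k x y, ?_⟩
    have hA := asg_nm k hk x y
    rw [ipFormula, eval_bigAnd]
    refine ⟨?_, by simp [Formula.eval, asg]⟩
    intro f hf
    simp only [List.mem_append] at hf
    rcases hf with hf | hf | hf
    · obtain ⟨i, -, rfl⟩ := List.mem_map.1 hf
      rw [hA i _ (by split_ifs <;> omega)]
      cases hxi : x i <;> simp [val, hxi]
    · rw [midItems] at hf
      simp only [List.mem_append, List.mem_cons, List.not_mem_nil, or_false] at hf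
      rcases hf with hf | (rfl | rfl) | hf
      · obtain ⟨i, -, hf⟩ := List.mem_flatMap.1 hf
        simp only [blockItems, List.mem_cons, List.not_mem_nil, or_false] at hf
        rcases hf with rfl | rfl | rfl
        · have h0 := hA i 0 (by omega)
          simp only [add_zero] at h0
          simp only [notBoth, Formula.eval, h0, hA i 1 (by omega), val]
          cases x i <;> simp
        · simp only [notBoth, Formula.eval, hA i 2 (by omega), hA i 3 (by omega), val]
          cases y i <;> simp
        · rw [gate, eval_iffF]
          simp only [Formula.eval, eval_iffF, hA i 4 (by omega), hA i 1 (by omega),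
            hA i 3 (by omega), hA (i + 1) 4 (by omega)]
          simp only [val]
          simp only [show ¬ (4 = 0) by omega, show ¬ (4 = 1) by omega, show ¬ (4 = 2) by omega,
            show ¬ (4 = 3) by omega, show ¬ (1 = 0) by omega, show ¬ (3 = 0) by omega,
            show ¬ (3 = 1) by omega, show ¬ (3 = 2) by omega, if_false, if_true, par]
          cases par x y i <;> cases x i <;> cases y i <;> rfl
      · have := hA 0 4 (by omega)
        simp only [mul_zero, zero_add] at this
        simp only [Formula.eval, this, val]
        simp [par]
      · rw [hA m 4 (by omega)]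
        simp [val, hpar]
      · obtain ⟨j, rfl⟩ := hp f hf
        rw [eval_pad]
        simp [asg]
    · obtain ⟨i, -, rfl⟩ := List.mem_map.1 hf
      rw [hA i _ (by split_ifs <;> omega)]
      cases hyi : y i <;> simp [val, hyi]

/-- extension of a bit vector by zeros -/
def ext {m : ℕ} (x : Fin m → Bool) (i : ℕ) : Bool := if h : i < m then x ⟨i, h⟩ else false

theorem ipSign_pos_iff {m : ℕ} (x y : Fin m → Bool) :
    0 < ipSign x y ↔ par (ext x) (ext y) m = true := by
  have key : ∀ j ≤ m, ∏ i ∈ range j, (if ext x i && ext y i then (-1 : ℝ) else 1)
      = if par (ext x) (ext y) j then -1 else 1 := by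
    intro j
    induction j with
    | zero => intro _; simp [par]
    | succ j ih =>
      intro hj
      rw [Finset.prod_range_succ, ih (by omega), par]
      cases par (ext x) (ext y) j <;> cases (ext x j && ext y j) <;> simp
  have h1 : ipSign x y = -∏ i ∈ range m, (if ext x i && ext y i then (-1 : ℝ) else 1) := by
    unfold ipSign
    rw [Finset.prod_range]
    congr 1
    refine Finset.prod_congr rfl fun i _ => ?_
    simp [ext]
  rw [h1, key m le_rfl]
  cases par (ext x) (ext y) m <;> simp

end Pool.Agent.H524R2
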