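import Pool.Agent.H524R2.Defs

/-! # Weighted one-tape machines: crossing counts -/

namespace Pool.Agent.H524R2

open Finset Function

/-! ## Crossing counts -/

/-- update of the crossing counts when the head moves from `h` to `h'`; the boundary between
the cells `b - 1` and `b` has number `b`. -/
def bump (cnt : ℤ → ℕ) (h h' : ℤ) : ℤ → ℕ :=
  if h = h' then cnt else update cnt (max h h') (cnt (max h h') + 1)

section

variable {K A Q Γ : Type} [Fintype Q] [Fintype Γ] [CommSemiring K]

/-- Like `Machine.value`, but with crossing counts carried along and a final weight that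
may depend on them. -/
noncomputable def mval (M : Machine K A Q Γ) (Φ : Q → (ℤ → ℕ) → K) :
    ℕ → Q → ℤ → (ℤ → Γ) → (ℤ → ℕ) → K
  | 0, q, _, _, cnt => Φ q cnt
  | t + 1, q, h, τ, cnt => ∑ o : Q × Γ × Move,
      M.weight q (τ h) o * mval M Φ t o.1 (h + o.2.2.delta) (update τ h o.2.1)
        (bump cnt h (h + o.2.2.delta))

open Classical in
theorem mval_eq_value (M : Machine K A Q Γ) (t : ℕ) (q : Q) (h : ℤ) (τ : ℤ → Γ) (cnt : ℤ → ℕ) :
    mval M (fun q _ => if q ∈ M.accepting then 1 else 0) t q h τ cnt = M.value t q h τ := by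
  induction t generalizing q h τ cnt with
  | zero => simp [mval, Machine.value]
  | succ t ih => simp only [mval, Machine.value, ih]

theorem mval_sum {ι : Type} (s : Finset ι) (M : Machine K A Q Γ) (Φ : ι → Q → (ℤ → ℕ) → K)
    (t : ℕ) (q : Q) (h : ℤ) (τ : ℤ → Γ) (cnt : ℤ → ℕ) :
    mval M (fun q cnt => ∑ i ∈ s, Φ i q cnt) t q h τ cnt = ∑ i ∈ s, mval M (Φ i) t q h τ cnt := by
  induction t generalizing q h τ cnt with
  | zero => simp [mval]
  | succ t ih =>
    simp only [mval, ih]
    rw [Finset.sum_comm]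
    refine Finset.sum_congr rfl fun o _ => ?_
    rw [Finset.mul_sum]

/-- total crossing count over the boundaries `g, …, g + G - 1` -/
def tot (g : ℤ) (G : ℕ) (cnt : ℤ → ℕ) : ℕ := ∑ j ∈ range G, cnt (g + j)

theorem tot_bump_le (g : ℤ) (G : ℕ) (cnt : ℤ → ℕ) (h h' : ℤ) :
    tot g G (bump cnt h h') ≤ tot g G cnt + 1 := by
  unfold tot bump
  split_ifs with hh
  · omega
  · set m := max h h' with hm
    by_cases hmem : ∃ j ∈ range G, g + (j : ℤ) = m
    · obtain ⟨j, hj, hjm⟩ := hmem
      rw [← Finset.add_sum_erase _ _ hj, ← Finset.add_sum_erase (range G) (fun j => cnt (g + j)) hj]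
      have : ∑ x ∈ (range G).erase j, update cnt m (cnt m + 1) (g + (x : ℤ))
          = ∑ x ∈ (range G).erase j, cnt (g + (x : ℤ)) := by
        refine Finset.sum_congr rfl fun x hx => ?_
        rw [Function.update_of_ne]
        intro hxm
        have : (x : ℤ) = j := by omega
        have : x = j := by exact_mod_cast this
        exact (Finset.mem_erase.1 hx).1 this
      rw [this, hjm]
      simp
      omega
    · have : ∑ x ∈ range G, update cnt m (cnt m + 1) (g + (x : ℤ))
          = ∑ x ∈ range G, cnt (g + (x : ℤ)) := by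
        refine Finset.sum_congr rfl fun x hx => ?_
        rw [Function.update_of_ne]
        intro hxm
        exact hmem ⟨x, hx, hxm⟩
      rw [this]
      omega

theorem mval_congr_tot (g : ℤ) (G : ℕ) (M : Machine K A Q Γ) (Φ Ψ : Q → (ℤ → ℕ) → K) (N : ℕ)
    (hΦ : ∀ q cnt, tot g G cnt ≤ N → Φ q cnt = Ψ q cnt)
    (t : ℕ) (q : Q) (h : ℤ) (τ : ℤ → Γ) (cnt : ℤ → ℕ) (hc : tot g G cnt + t ≤ N) :
    mval M Φ t q h τ cnt = mval M Ψ t q h τ cnt := by
  induction t generalizing q h τ cnt with
  | zero => simpa [mval] using hΦ q cnt (by simpa using hc)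
  | succ t ih =>
    simp only [mval]
    refine Finset.sum_congr rfl fun o _ => ?_
    rw [ih]
    have := tot_bump_le g G cnt h (h + o.2.2.delta)
    omega

end

end Pool.Agent.H524R2
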