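import Mathlib

/-! # A dual polynomial for the OR function -/

namespace Pool.Agent.H524R2.OrDual

open Finset Polynomial

theorem prod_diff (i m : ℕ) (h : i ≤ m) :
    ∏ j ∈ (range (m + 1)).erase i, |(i : ℝ) - j| = i.factorial * (m - i).factorial := by
  induction m, h using Nat.le_induction with
  | base =>
    have h1 : (range (i + 1)).erase i = range i := by
      ext j; simp; omega
    rw [h1, Nat.sub_self, Nat.factorial_zero, Nat.cast_one, mul_one,
      ← Finset.prod_range_add_one_eq_factorial, ← Finset.prod_range_reflect]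
    push_cast
    refine Finset.prod_congr rfl fun j hj => ?_
    have hj' := Finset.mem_range.1 hj
    have : ((i - 1 - j : ℕ) : ℝ) = i - 1 - j := by
      rw [Nat.cast_sub (by omega), Nat.cast_sub (by omega)]; simp
    rw [this]
    have : (i : ℝ) - (i - 1 - j) = j + 1 := by ring
    rw [this, abs_of_nonneg (by positivity)]
  | succ m hm ih =>
    have h1 : (range (m + 1 + 1)).erase i = insert (m + 1) ((range (m + 1)).erase i) := by
      ext j; simp; omega
    rw [h1, Finset.prod_insert (by simp), ih, Nat.succ_sub hm, Nat.factorial_succ]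
    have h2 : |(i : ℝ) - ((m + 1 : ℕ) : ℝ)| = ((m - i : ℕ) : ℝ) + 1 := by
      rw [Nat.cast_sub hm, abs_sub_comm]
      have : (i : ℝ) ≤ m := by exact_mod_cast hm
      rw [abs_of_nonneg (by push_cast; linarith)]
      push_cast; ring
    rw [h2]
    push_cast
    ring

theorem prod_add (i m : ℕ) (hi : 1 ≤ i) (h : i ≤ m) :
    (∏ j ∈ (range (m + 1)).erase i, ((i : ℝ) + j)) * (2 * i.factorial) = (m + i).factorial := by
  have h1 : ∏ j ∈ range (m + 1), ((i : ℝ) + j) = ((i : ℝ) + i) *
      ∏ j ∈ (range (m + 1)).erase i, ((i : ℝ) + j) :=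
    (Finset.mul_prod_erase _ _ (Finset.mem_range.2 (by omega))).symm
  obtain ⟨i', rfl⟩ : ∃ i', i = i' + 1 := ⟨i - 1, by omega⟩
  have h2 := Nat.factorial_mul_ascFactorial i' (m + 1)
  rw [Nat.ascFactorial_eq_prod_range] at h2
  have h3 : ((i'.factorial : ℝ)) * ∏ j ∈ range (m + 1), (((i' + 1 : ℕ) : ℝ) + j)
      = ((i' + (m + 1)).factorial : ℝ) := by
    rw [← h2]; push_cast; rfl
  rw [h1] at h3
  rw [show m + (i' + 1) = i' + (m + 1) by ring, ← h3, Nat.factorial_succ]
  push_cast
  ring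

theorem fact_sq_le (i m : ℕ) (h : i ≤ m) :
    (m.factorial : ℝ) ^ 2 ≤ (m - i).factorial * (m + i).factorial := by
  have h1 : (2 * m).choose (m - i) ≤ (2 * m).choose m := by
    have := Nat.choose_le_centralBinom (m - i) m
    rw [Nat.centralBinom] at this
    exact this
  have h2 := Nat.choose_mul_factorial_mul_factorial (show m - i ≤ 2 * m by omega)
  have h3 := Nat.choose_mul_factorial_mul_factorial (show m ≤ 2 * m by omega)
  rw [show 2 * m - (m - i) = m + i by omega] at h2
  rw [show 2 * m - m = m by omega] at h3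
  have hpos : 0 < (2 * m).choose (m - i) := Nat.choose_pos (by omega)
  have h4 : (2 * m).choose (m - i) * (m.factorial ^ 2) ≤
      (2 * m).choose (m - i) * ((m - i).factorial * (m + i).factorial) := by
    calc (2 * m).choose (m - i) * (m.factorial ^ 2) ≤ (2 * m).choose m * m.factorial ^ 2 :=
          Nat.mul_le_mul_right _ h1
      _ = (2 * m).factorial := by rw [← h3]; ring
      _ = _ := by rw [← h2]; ring
  exact_mod_cast Nat.le_of_mul_le_mul_left h4 hpos

/-- the nodes -/
def nd (o : Option ℕ) : ℕ := o.elim 1 (fun i => 16 * i ^ 2)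

theorem nd_inj : Function.Injective nd := by
  intro a b h
  cases a with
  | none =>
    cases b with
    | none => rfl
    | some b => simp only [nd, Option.elim] at h; omega
  | some a =>
    cases b with
    | none => simp only [nd, Option.elim] at h; omega
    | some b =>
      simp only [nd, Option.elim] at h
      have h1 : a ^ 2 = b ^ 2 := by omega
      rw [Nat.pow_left_injective (by norm_num : 2 ≠ 0) h1]

/-- the index set -/
def ix (m : ℕ) : Finset (Option ℕ) := insertNone (range (m + 1))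

/-- the modulus of the denominators -/
noncomputable def dn (m : ℕ) (o : Option ℕ) : ℝ := ∏ l ∈ (ix m).erase o, |(nd o : ℝ) - nd l|

theorem ix_erase_some (m i : ℕ) :
    (ix m).erase (some i) = insertNone ((range (m + 1)).erase i) := by
  ext o
  cases o with
  | none => simp [ix]
  | some j => simp [ix]

theorem ix_erase_none (m : ℕ) : (ix m).erase none = (range (m + 1)).map Function.Embedding.some := by
  ext o
  cases o with
  | none => simp [ix]
  | some j => simp [ix]

theorem prod_insertNone' (s : Finset ℕ) (f : Option ℕ → ℝ) :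
    ∏ o ∈ insertNone s, f o = f none * ∏ j ∈ s, f (some j) := by
  rw [Finset.prod_insertNone]

theorem card_erase_range (m i : ℕ) (h : i ≤ m) : ((range (m + 1)).erase i).card = m := by
  rw [Finset.card_erase_of_mem (Finset.mem_range.2 (by omega)), Finset.card_range]; simp

theorem dn_some (m i : ℕ) (hi : 1 ≤ i) (h : i ≤ m) :
    dn m (some i) = (16 * (i : ℝ) ^ 2 - 1) * (16 ^ m * ((m - i).factorial * (m + i).factorial / 2)) := by
  unfold dn
  rw [ix_erase_some, prod_insertNone']
  have hi' : (1 : ℝ) ≤ i := by exact_mod_cast hi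
  have h1 : |((nd (some i) : ℕ) : ℝ) - nd none| = 16 * (i : ℝ) ^ 2 - 1 := by
    simp only [nd, Option.elim]
    push_cast
    rw [abs_of_nonneg (by nlinarith)]
  have h2 : ∀ j ∈ (range (m + 1)).erase i, |((nd (some i) : ℕ) : ℝ) - nd (some j)|
      = 16 * (|(i : ℝ) - j| * ((i : ℝ) + j)) := by
    intro j _
    simp only [nd, Option.elim]
    push_cast
    rw [show (16 : ℝ) * i ^ 2 - 16 * j ^ 2 = 16 * ((i - j) * (i + j)) by ring, abs_mul, abs_mul,
      abs_of_nonneg (show (0 : ℝ) ≤ 16 by norm_num), abs_of_nonneg (show (0 : ℝ) ≤ i + j by positivity)]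
  rw [h1, Finset.prod_congr rfl h2, Finset.prod_mul_distrib, Finset.prod_const, card_erase_range m i h,
    Finset.prod_mul_distrib, prod_diff i m h]
  have h3 := prod_add i m hi h
  have h4 : (i.factorial : ℝ) ≠ 0 := by positivity
  have h5 : ∏ j ∈ (range (m + 1)).erase i, ((i : ℝ) + j) = (m + i).factorial / (2 * i.factorial) := by
    rw [eq_div_iff (by positivity)]; exact h3
  rw [h5]
  field_simp

theorem dn_zero (m : ℕ) : dn m (some 0) = 16 ^ m * (m.factorial : ℝ) ^ 2 := by
  unfold dn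
  rw [ix_erase_some, prod_insertNone']
  have h1 : |((nd (some 0) : ℕ) : ℝ) - nd none| = 1 := by
    simp [nd]
  have h2 : ∀ j ∈ (range (m + 1)).erase 0, |((nd (some 0) : ℕ) : ℝ) - nd (some j)|
      = 16 * (|((0 : ℕ) : ℝ) - j| * |((0 : ℕ) : ℝ) - j|) := by
    intro j _
    simp only [nd, Option.elim]
    push_cast
    have hj : (0 : ℝ) ≤ j := Nat.cast_nonneg j
    rw [show (0 : ℝ) - 16 * (j : ℝ) ^ 2 = -(16 * (j * j)) by ring, abs_neg, zero_sub, abs_neg,
      abs_of_nonneg hj, abs_of_nonneg (by positivity)]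
  rw [h1, Finset.prod_congr rfl h2, Finset.prod_mul_distrib, Finset.prod_const, card_erase_range m 0 (by omega),
    Finset.prod_mul_distrib, prod_diff 0 m (by omega)]
  simp
  ring

theorem aux_prod (m : ℕ) : 7 / 8 + 1 / (8 * ((m : ℝ) + 1)) ≤
    ∏ j ∈ range m, (1 - 1 / (16 * ((j : ℝ) + 1) ^ 2)) := by
  induction m with
  | zero => norm_num
  | succ m ih =>
    rw [Finset.prod_range_succ]
    have hm : (0 : ℝ) ≤ m := Nat.cast_nonneg m
    have h1 : 0 ≤ 1 - 1 / (16 * ((m : ℝ) + 1) ^ 2) := by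
      rw [sub_nonneg, div_le_one (by positivity)]
      nlinarith
    refine le_trans ?_ (mul_le_mul_of_nonneg_right ih h1)
    push_cast
    rw [← sub_nonneg]
    have : (7 / 8 + 1 / (8 * ((m : ℝ) + 1))) * (1 - 1 / (16 * ((m : ℝ) + 1) ^ 2)) -
        (7 / 8 + 1 / (8 * ((m : ℝ) + 1 + 1)))
        = (7 * (m : ℝ) ^ 2 + 5 * m + 0) * 0 + (1 / (8 * ((m : ℝ) + 1)) - 1 / (8 * ((m : ℝ) + 1 + 1)) -
          (7 / 8 + 1 / (8 * ((m : ℝ) + 1))) * (1 / (16 * ((m : ℝ) + 1) ^ 2))) := by ring
    rw [this]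
    have h2 : 1 / (8 * ((m : ℝ) + 1)) - 1 / (8 * ((m : ℝ) + 1 + 1)) = 1 / (8 * ((m : ℝ) + 1) * (m + 2)) := by
      field_simp
      ring
    have h3 : 7 / 8 + 1 / (8 * ((m : ℝ) + 1)) ≤ 1 := by
      have : 1 / (8 * ((m : ℝ) + 1)) ≤ 1 / 8 := by
        apply div_le_div_of_nonneg_left <;> linarith
      linarith
    have h4 : (7 / 8 + 1 / (8 * ((m : ℝ) + 1))) * (1 / (16 * ((m : ℝ) + 1) ^ 2)) ≤
        1 / (16 * ((m : ℝ) + 1) ^ 2) := by
      have h5 : 0 ≤ 1 / (16 * ((m : ℝ) + 1) ^ 2) := by positivity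
      nlinarith
    have h6 : 1 / (16 * ((m : ℝ) + 1) ^ 2) ≤ 1 / (8 * ((m : ℝ) + 1) * (m + 2)) := by
      apply div_le_div_of_nonneg_left (by norm_num) (by positivity)
      nlinarith
    rw [h2]
    linarith

theorem dn_none (m : ℕ) : 7 / 8 * dn m (some 0) ≤ dn m none := by
  rw [dn_zero]
  unfold dn
  rw [ix_erase_none, Finset.prod_map, Finset.prod_range_succ']
  have h0 : |((nd none : ℕ) : ℝ) - nd (Function.Embedding.some 0)| = 1 := by
    simp [nd]
  rw [h0, mul_one]
  have h1 : ∀ j ∈ range m, |((nd none : ℕ) : ℝ) - nd (Function.Embedding.some (j + 1))|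
      = (16 * ((j : ℝ) + 1) ^ 2) * (1 - 1 / (16 * ((j : ℝ) + 1) ^ 2)) := by
    intro j _
    have hj : (0 : ℝ) ≤ j := Nat.cast_nonneg j
    simp only [nd, Option.elim, Function.Embedding.some_apply]
    push_cast
    rw [abs_sub_comm, abs_of_nonneg (by nlinarith)]
    field_simp
  rw [Finset.prod_congr rfl h1, Finset.prod_mul_distrib, Finset.prod_mul_distrib, Finset.prod_const,
    Finset.card_range, Finset.prod_pow]
  have h2 : ∏ j ∈ range m, ((j : ℝ) + 1) = m.factorial := by
    rw [← Finset.prod_range_add_one_eq_factorial]; push_cast; rfl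
  rw [h2]
  have h3 := aux_prod m
  have h4 : (0 : ℝ) ≤ 1 / (8 * ((m : ℝ) + 1)) := by positivity
  have h5 : (0 : ℝ) ≤ 16 ^ m * (m.factorial : ℝ) ^ 2 := by positivity
  nlinarith

theorem aux_sum (m : ℕ) : ∑ j ∈ range m, 2 / (16 * ((j : ℝ) + 1) ^ 2 - 1) ≤
    4 / 15 * (1 - 1 / ((m : ℝ) + 1)) := by
  induction m with
  | zero => norm_num
  | succ m ih =>
    rw [Finset.sum_range_succ]
    have hm : (0 : ℝ) ≤ m := Nat.cast_nonneg m
    have h1 : 2 / (16 * ((m : ℝ) + 1) ^ 2 - 1) ≤ 4 / 15 * (1 / (((m : ℝ) + 1) * (m + 2))) := by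
      rw [← mul_div_assoc, mul_one, div_div, div_le_div_iff₀ (by nlinarith) (by positivity)]
      nlinarith
    have h2 : (1 - 1 / ((m : ℝ) + 1)) + 1 / (((m : ℝ) + 1) * (m + 2)) = 1 - 1 / ((m : ℝ) + 1 + 1) := by
      field_simp
      ring
    push_cast
    rw [← h2]
    linarith

theorem dn_pos (m : ℕ) (o : Option ℕ) : 0 < dn m o := by
  refine Finset.prod_pos fun l hl => abs_pos.2 (sub_ne_zero.2 fun h => ?_)
  exact (Finset.ne_of_mem_erase hl) (nd_inj (by exact_mod_cast h)).symm

theorem sum_inv_dn (m : ℕ) : ∑ o ∈ ix m, 1 / dn m o ≤ 5 / 2 * (1 / dn m (some 0)) := by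
  have hix : ix m = insertNone (range (m + 1)) := rfl
  rw [hix, Finset.sum_insertNone, Finset.sum_range_succ']
  have h0 : 0 < dn m (some 0) := dn_pos _ _
  have h1 : 1 / dn m none ≤ 8 / 7 * (1 / dn m (some 0)) := by
    have := dn_none m
    rw [div_mul_div_comm, div_le_div_iff₀ (dn_pos _ _) (by positivity)]
    linarith
  have h2 : ∀ j ∈ range m, 1 / dn m (some (j + 1)) ≤
      2 / (16 * ((j : ℝ) + 1) ^ 2 - 1) * (1 / dn m (some 0)) := by
    intro j hj
    have hj' := Finset.mem_range.1 hj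
    have hj0 : (0 : ℝ) ≤ j := Nat.cast_nonneg j
    rw [dn_some m (j + 1) (by omega) (by omega), dn_zero]
    have h3 := fact_sq_le (j + 1) m (by omega)
    have h4 : (0 : ℝ) < 16 * ((j : ℝ) + 1) ^ 2 - 1 := by nlinarith
    push_cast
    rw [div_mul_div_comm, mul_one, div_le_div_iff₀ (by positivity) (by positivity)]
    have h5 : (0 : ℝ) < 16 ^ m := by positivity
    have h6 := mul_le_mul_of_nonneg_left h3 (mul_pos h4 h5).le
    nlinarith
  have h3 := Finset.sum_le_sum h2
  rw [← Finset.sum_mul] at h3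
  have h4 := aux_sum m
  have h5 : (0 : ℝ) ≤ 1 / ((m : ℝ) + 1) := by positivity
  have h6 : 0 < 1 / dn m (some 0) := by positivity
  have h7 : (∑ j ∈ range m, 2 / (16 * ((j : ℝ) + 1) ^ 2 - 1)) * (1 / dn m (some 0)) ≤
      4 / 15 * (1 / dn m (some 0)) := by
    apply mul_le_mul_of_nonneg_right _ h6.le
    linarith
  linarith

/-- **Dual polynomial for OR**, one variable. -/
theorem exists_weights (m : ℕ) : ∃ W : Option ℕ → ℝ, ∑ o ∈ ix m, |W o| = 1 ∧
    W (some 0) ≤ - (2 / 5) ∧
    ∀ P : ℝ[X], P.natDegree ≤ m → ∑ o ∈ ix m, W o * P.eval (nd o : ℝ) = 0 := by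
  classical
  let D : Option ℕ → ℝ := fun o => ∏ l ∈ (ix m).erase o, ((nd o : ℝ) - nd l)
  have hD : ∀ o, |D o| = dn m o := fun o => Finset.abs_prod _ _
  have hD0 : ∀ o, D o ≠ 0 := by
    intro o h
    have := dn_pos m o
    rw [← hD, h] at this
    simp at this
  set N := ∑ o ∈ ix m, 1 / dn m o with hN
  have hmem0 : some 0 ∈ ix m := by simp [ix]
  have hNpos : 0 < N := Finset.sum_pos (fun o _ => by have := dn_pos m o; positivity) ⟨_, hmem0⟩
  obtain ⟨s, hs1, hs2⟩ : ∃ s : ℝ, |s| = 1 ∧ s * (1 / D (some 0)) = - (1 / dn m (some 0)) := by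
    rw [← hD]
    rcases lt_or_gt_of_ne (hD0 (some 0)) with h | h
    · refine ⟨1, by simp, ?_⟩
      rw [abs_of_neg h, one_mul]; rw [one_div, one_div, neg_inv, neg_neg]
    · refine ⟨-1, by simp, ?_⟩
      rw [abs_of_pos h]; ring
  refine ⟨fun o => s * (1 / D o) / N, ?_, ?_, ?_⟩
  · have h1 : ∀ o, |s * (1 / D o) / N| = (1 / dn m o) / N := by
      intro o
      rw [abs_div, abs_mul, hs1, one_mul, abs_div, abs_one, hD, abs_of_pos hNpos]
    rw [Finset.sum_congr rfl (fun o _ => h1 o), ← Finset.sum_div]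
    exact div_self hNpos.ne'
  · show s * (1 / D (some 0)) / N ≤ _
    rw [hs2, neg_div, neg_le_neg_iff, le_div_iff₀ hNpos]
    have := sum_inv_dn m
    linarith
  · intro P hP
    have hinj : Set.InjOn (fun o : Option ℕ => (nd o : ℝ)) (ix m : Set (Option ℕ)) := by
      intro a _ b _ h
      have h' : (nd a : ℝ) = nd b := h
      exact nd_inj (by exact_mod_cast h')
    have hcard : (ix m).card = m + 2 := by simp [ix]
    have h1 := Lagrange.coeff_eq_sum (v := fun o : Option ℕ => (nd o : ℝ)) hinj (P := P) (by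
      rw [hcard]
      refine lt_of_le_of_lt Polynomial.degree_le_natDegree ?_
      exact_mod_cast (by omega))
    rw [hcard, show m + 2 - 1 = m + 1 by omega,
      Polynomial.coeff_eq_zero_of_natDegree_lt (by omega)] at h1
    have h2 : ∀ o, s * (1 / D o) / N * P.eval (nd o : ℝ) = (s / N) * (P.eval (nd o : ℝ) / D o) := by
      intro o; ring
    simp only [h2]
    rw [← Finset.mul_sum]
    have h3 : ∑ o ∈ ix m, P.eval (nd o : ℝ) / D o = 0 := h1.symm
    rw [h3, mul_zero]

end Pool.Agent.H524R2.OrDual
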