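import Pool.Agent.H524R2.Disj
import Pool.Agent.H524R2.SignRank
import Pool.Agent.H524R2.Rank

/-! # The parity of an intersection on one-tape machines with unbounded error -/

namespace Pool.Agent.H524R2

open Finset

theorem ipSign_pos_iff_odd {m : ℕ} (x y : Fin m → Bool) :
    0 < ipSign x y ↔ Odd (univ.filter (fun i => x i = true ∧ y i = true)).card := by
  have h1 : ipSign x y = -((-1) ^ (univ.filter (fun i => x i = true ∧ y i = true)).card) := by
    unfold ipSign
    rw [← Finset.prod_const, Finset.prod_filter]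
    congr 1
    refine Finset.prod_congr rfl fun i _ => ?_
    cases x i <;> cases y i <;> simp
  rw [h1]
  rcases Nat.even_or_odd (univ.filter (fun i => x i = true ∧ y i = true)).card with h | h
  · rw [h.neg_one_pow]
    constructor
    · intro h2; norm_num at h2
    · intro h2; exact absurd h (Nat.not_even_iff_odd.2 h2)
  · rw [h.neg_one_pow]
    constructor
    · intro _; exact h
    · intro _; norm_num

theorem card_padF {h n : ℕ} (hn : h ≤ n) (f g : Fin h → Bool) :
    (univ.filter (fun i => padF n f i = true ∧ padF n g i = true)).card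
      = (univ.filter (fun i => f i = true ∧ g i = true)).card := by
  symm
  refine Finset.card_bij (fun i _ => (⟨i, by omega⟩ : Fin n)) ?_ ?_ ?_
  · intro i hi
    have hi' := (Finset.mem_filter.1 hi).2
    refine Finset.mem_filter.2 ⟨Finset.mem_univ _, ?_⟩
    unfold padF
    simpa using hi'
  · intro i _ j _ hij
    exact Fin.ext (Fin.mk.inj_iff.1 hij)
  · intro j hj
    have hj' := (Finset.mem_filter.1 hj).2
    unfold padF at hj'
    by_cases hl : (j : ℕ) < h
    · rw [dif_pos hl, dif_pos hl] at hj'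
      exact ⟨⟨j, hl⟩, Finset.mem_filter.2 ⟨Finset.mem_univ _, hj'⟩, rfl⟩
    · rw [dif_neg hl] at hj'
      exact absurd hj'.1 (by simp)

theorem lin_aux (K : ℕ) (hK : 8 ≤ K) : 24 * K + 34 ≤ 2 ^ K := by
  induction K, hK using Nat.le_induction with
  | base => norm_num
  | succ K hK ih => rw [pow_succ]; omega

/-- **The parity of an intersection needs quadratic `T * S`**, even with unbounded error. -/
theorem parity_bound (n : ℕ) (hn : 2 ^ 8 ≤ n) (Q Γ : Type) [Fintype Q] [Fintype Γ]
    (M : Machine ℝ Bool Q Γ) (θ : ℝ) (T S : ℕ) (hS : 1 ≤ S) (hQ : Fintype.card Q ≤ 2 ^ S)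
    (hM : ∀ x y : Fin n → Bool, θ < M.run T (List.ofFn x ++ List.ofFn y) ↔
      Odd (univ.filter (fun i => x i = true ∧ y i = true)).card) :
    n ^ 2 ≤ 32 * (T * S) := by
  classical
  have hn0 : n ≠ 0 := by
    have : 0 < 2 ^ 8 := by positivity
    omega
  have hn8 : 256 ≤ n := by simpa using hn
  set h := n / 2 with hh
  set G := n - h with hG
  have hG1 : n ≤ 2 * G := by omega
  have hG2 : G ≤ n := Nat.sub_le _ _
  obtain ⟨ι, hι, α, β, hcard, hdec⟩ := decomp M (X := Fin h → Bool) (Y := Fin h → Bool)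
    h G T (by omega) (by omega) (fun x => List.ofFn x) (List.replicate G false)
    (fun y => List.ofFn (padF n y)) (fun x => by simp) (by simp)
  have hword : ∀ x y : Fin h → Bool, List.ofFn x ++ List.replicate G false ++ List.ofFn (padF n y)
      = List.ofFn (padF n x) ++ List.ofFn (padF n y) := by
    intro x y
    rw [ofFn_padF (show h ≤ n by omega) x]
  have hsign : ∀ x y : Fin h → Bool, θ < ∑ i, α i x * β i y ↔ 0 < ipSign x y := by
    intro x y
    rw [← hdec, hword, hM, card_padF (show h ≤ n by omega), ipSign_pos_iff_odd]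
  have hrank := sign_rank_bound α β θ hsign
  have hrank' : 2 ^ h ≤ (Fintype.card ι + 1) ^ 2 := by exact_mod_cast hrank
  by_cases hT : n ^ 2 ≤ T
  · calc n ^ 2 ≤ T := hT
      _ ≤ T * S := Nat.le_mul_of_pos_right _ (by omega)
      _ ≤ 32 * (T * S) := Nat.le_mul_of_pos_left _ (by norm_num)
  push Not at hT
  set K := Nat.log 2 n with hKdef
  have hK1 : 2 ^ K ≤ n := Nat.pow_log_le_self 2 hn0
  have hK2 : n < 2 ^ (K + 1) := Nat.lt_pow_succ_log_self (by norm_num) n
  have hK : 8 ≤ K := (Nat.le_log_iff_pow_le (by norm_num) hn0).2 hn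
  have haux := (lin_aux K hK).trans hK1
  set E := T / G with hE
  have hq : (Fintype.card Q + 1) ^ E ≤ 2 ^ (2 * S * E) := by
    rw [pow_mul]
    refine Nat.pow_le_pow_left ?_ _
    calc Fintype.card Q + 1 ≤ 2 ^ S + 2 ^ S := by
          have : 1 ≤ 2 ^ S := Nat.one_le_two_pow
          omega
      _ = 2 ^ (S + 1) := by rw [pow_succ]; ring
      _ ≤ 2 ^ (2 * S) := Nat.pow_le_pow_right (by norm_num) (by omega)
  have hc1 : Fintype.card ι + 1 ≤ 2 ^ (3 * K + 4 + 2 * S * E) := by
    have hpos : 1 ≤ 2 ^ (2 * S * E) := Nat.one_le_two_pow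
    have h1 : G * (T + 1) ≤ 2 ^ (3 * K + 3) := by
      calc G * (T + 1) ≤ n * n ^ 2 := Nat.mul_le_mul hG2 (by omega)
        _ = n ^ 3 := by ring
        _ ≤ (2 ^ (K + 1)) ^ 3 := Nat.pow_le_pow_left hK2.le 3
        _ = 2 ^ (3 * K + 3) := by rw [← pow_mul]; congr 1; ring
    calc Fintype.card ι + 1 ≤ G * (T + 1) * (Fintype.card Q + 1) ^ E + 1 := by omega
      _ ≤ 2 ^ (3 * K + 3) * 2 ^ (2 * S * E) + 2 ^ (3 * K + 3) * 2 ^ (2 * S * E) := by
          refine Nat.add_le_add (Nat.mul_le_mul h1 hq) ?_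
          exact Nat.one_le_iff_ne_zero.2 (by positivity)
      _ = 2 ^ (3 * K + 4 + 2 * S * E) := by rw [← pow_add, ← two_mul, ← pow_succ']; congr 1; ring
  have hexp : h ≤ 2 * (3 * K + 4 + 2 * S * E) := by
    have h1 : 2 ^ h ≤ 2 ^ (2 * (3 * K + 4 + 2 * S * E)) := by
      calc 2 ^ h ≤ (Fintype.card ι + 1) ^ 2 := hrank'
        _ ≤ (2 ^ (3 * K + 4 + 2 * S * E)) ^ 2 := Nat.pow_le_pow_left hc1 2
        _ = _ := by rw [← pow_mul, mul_comm]
    exact (Nat.pow_le_pow_iff_right (by norm_num)).1 h1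
  have h1 : n ≤ 16 * (S * E) := by
    have : 2 * (3 * K + 4 + 2 * S * E) = 6 * K + 8 + 4 * (S * E) := by ring
    omega
  have h2 : E * n ≤ 2 * T := by
    calc E * n ≤ E * (2 * G) := Nat.mul_le_mul_left _ hG1
      _ = 2 * (E * G) := by ring
      _ ≤ 2 * T := Nat.mul_le_mul_left _ (Nat.div_mul_le_self T G)
  calc n ^ 2 = n * n := sq n
    _ ≤ 16 * (S * E) * n := Nat.mul_le_mul_right n h1
    _ = 16 * S * (E * n) := by ring
    _ ≤ 16 * S * (2 * T) := Nat.mul_le_mul_left _ h2
    _ = 32 * (T * S) := by ring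

end Pool.Agent.H524R2
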