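import Pool.Agent.H524R2.Cube
import Pool.Agent.H524R2.Forster

/-! # Pattern matrices and approximate rank -/

namespace Pool.Agent.H524R2

open Finset

/-- A matrix whose inner product with a matrix of small rank and small entries is small. -/
theorem rank_dual {X Y ι : Type} [Fintype X] [Fintype Y] [Fintype ι] (P Ψ : X → Y → ℝ)
    (α : ι → X → ℝ) (β : ι → Y → ℝ) (hP : ∀ x y, P x y = ∑ i, α i x * β i y)
    (hP1 : ∀ x y, |P x y| ≤ 1) (s : ℝ) (hs0 : 0 ≤ s)
    (hs : ∀ u : X → ℝ, ∑ y, (∑ x, u x * Ψ x y) ^ 2 ≤ s * ∑ x, u x ^ 2) :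
    (∑ x, ∑ y, Ψ x y * P x y) ^ 2 ≤ Fintype.card ι * s * (Fintype.card X * Fintype.card Y) := by
  classical
  let E := EuclideanSpace ℝ X
  let W : Submodule ℝ E := Submodule.span ℝ (Set.range fun i => (WithLp.toLp 2 (α i) : E))
  have hfin : Module.finrank ℝ W ≤ Fintype.card ι := finrank_range_le_card _
  let b := stdOrthonormalBasis ℝ W
  let p : Y → E := fun y => WithLp.toLp 2 (fun x => P x y)
  have hp : ∀ y, p y ∈ W := by
    intro y
    have h1 : p y = ∑ i, β i y • (WithLp.toLp 2 (α i) : E) := by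
      ext x
      simp only [p, hP]
      rw [WithLp.ofLp_sum, Finset.sum_apply]
      refine Finset.sum_congr rfl fun i _ => ?_
      simp [mul_comm]
    rw [h1]
    exact Submodule.sum_mem _ fun i _ => Submodule.smul_mem _ _ (Submodule.subset_span ⟨i, rfl⟩)
  let q : Y → W := fun y => ⟨p y, hp y⟩
  let c : Fin (Module.finrank ℝ W) → Y → ℝ := fun j y => b.repr (q y) j
  let v : Fin (Module.finrank ℝ W) → X → ℝ := fun j x => ((b j : W) : E) x
  have hPc : ∀ x y, P x y = ∑ j, c j y * v j x := by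
    intro x y
    have h1 := congrArg (fun w : W => (w : E) x) (b.sum_repr (q y))
    simp only [Submodule.coe_sum] at h1
    have h2 : ((q y : W) : E) x = P x y := rfl
    rw [← h2, ← h1, WithLp.ofLp_sum, Finset.sum_apply]
    rfl
  have hv : ∀ j, ∑ x, v j x ^ 2 = 1 := by
    intro j
    have h1 : ‖((b j : W) : E)‖ = 1 := by
      exact b.orthonormal.1 j
    have h2 := EuclideanSpace.norm_sq_eq ((b j : W) : E)
    rw [h1] at h2
    simpa [v] using h2.symm
  have hc : ∀ y, ∑ j, c j y ^ 2 ≤ Fintype.card X := by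
    intro y
    have h1 : ∑ j, c j y ^ 2 = ‖q y‖ ^ 2 := by
      rw [← b.sum_sq_norm_inner_right (q y)]
      refine Finset.sum_congr rfl fun j _ => ?_
      rw [← b.repr_apply_apply]
      simp [c]
    rw [h1]
    have h2 : ‖q y‖ ^ 2 = ∑ x, P x y ^ 2 := by
      have : ‖q y‖ = ‖p y‖ := rfl
      rw [this, EuclideanSpace.norm_sq_eq]
      simp [p]
    rw [h2]
    calc ∑ x, P x y ^ 2 ≤ ∑ x : X, (1 : ℝ) := by
          refine Finset.sum_le_sum fun x _ => ?_
          have h3 := hP1 x y
          have h4 := abs_nonneg (P x y)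
          rw [← sq_abs]
          nlinarith
      _ = Fintype.card X := by simp
  have h1 : ∑ x, ∑ y, Ψ x y * P x y = ∑ jy : Fin (Module.finrank ℝ W) × Y,
      c jy.1 jy.2 * (∑ x, v jy.1 x * Ψ x jy.2) := by
    rw [Fintype.sum_prod_type]
    simp only [hPc, Finset.mul_sum]
    calc ∑ x, ∑ y, ∑ j, Ψ x y * (c j y * v j x)
        = ∑ x, ∑ j, ∑ y, Ψ x y * (c j y * v j x) :=
          Finset.sum_congr rfl fun x _ => Finset.sum_comm
      _ = ∑ j, ∑ x, ∑ y, Ψ x y * (c j y * v j x) := Finset.sum_comm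
      _ = ∑ j, ∑ y, ∑ x, Ψ x y * (c j y * v j x) :=
          Finset.sum_congr rfl fun j _ => Finset.sum_comm
      _ = _ := by
          refine Finset.sum_congr rfl fun j _ => Finset.sum_congr rfl fun y _ =>
            Finset.sum_congr rfl fun x _ => ?_
          ring
  rw [h1]
  refine (Finset.sum_mul_sq_le_sq_mul_sq _ _ _).trans ?_
  have h2 : ∑ jy : Fin (Module.finrank ℝ W) × Y, c jy.1 jy.2 ^ 2 ≤ Fintype.card X * Fintype.card Y := by
    rw [Fintype.sum_prod_type_right]
    calc ∑ y, ∑ j, c j y ^ 2 ≤ ∑ y : Y, (Fintype.card X : ℝ) := Finset.sum_le_sum fun y _ => hc y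
      _ = _ := by simp [mul_comm]
  have h3 : ∑ jy : Fin (Module.finrank ℝ W) × Y, (∑ x, v jy.1 x * Ψ x jy.2) ^ 2 ≤ Fintype.card ι * s := by
    rw [Fintype.sum_prod_type]
    calc ∑ j, ∑ y, (∑ x, v j x * Ψ x y) ^ 2 ≤ ∑ j : Fin (Module.finrank ℝ W), s := by
          refine Finset.sum_le_sum fun j _ => (hs (v j)).trans ?_
          rw [hv, mul_one]
      _ = Module.finrank ℝ W * s := by simp
      _ ≤ Fintype.card ι * s := by
          refine mul_le_mul_of_nonneg_right ?_ hs0
          exact_mod_cast hfin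
  have h4 : 0 ≤ ∑ jy : Fin (Module.finrank ℝ W) × Y, (∑ x, v jy.1 x * Ψ x jy.2) ^ 2 :=
    Finset.sum_nonneg fun _ _ => sq_nonneg _
  calc _ ≤ (Fintype.card X * Fintype.card Y : ℝ) * (Fintype.card ι * s) :=
        mul_le_mul h2 h3 h4 (by positivity)
    _ = _ := by ring

section pattern

variable {k : ℕ} {β : Type} [Fintype β] [DecidableEq β]

/-- the selected and shifted point -/
def sel (x : Fin k × β → Bool) (V : Fin k → β) (w : Fin k → Bool) : Fin k → Bool :=
  fun i => xor (x (i, V i)) (w i)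

/-- the frequency `a` moved to the selected positions -/
def emb (a : Fin k → Bool) (V : Fin k → β) : Fin k × β → Bool := fun p => a p.1 && decide (V p.1 = p.2)

theorem chi_sel (a : Fin k → Bool) (x : Fin k × β → Bool) (V : Fin k → β) (w : Fin k → Bool) :
    chi a (sel x V w) = chi a w * chi (emb a V) x := by
  unfold chi
  rw [Fintype.prod_prod_type, ← Finset.prod_mul_distrib]
  refine Finset.prod_congr rfl fun i _ => ?_
  rw [Finset.prod_eq_single (V i)]
  · have h3 : ∀ p q r : Bool, (if p && xor q r then (-1 : ℝ) else 1)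
        = (if p && r then (-1 : ℝ) else 1) * (if p && q then (-1 : ℝ) else 1) := by
      intro p q r
      cases p <;> cases q <;> cases r <;> norm_num
    simp only [sel, emb, decide_true, Bool.and_true]
    exact h3 _ _ _
  · intro b _ hb
    have : decide (V i = b) = false := decide_eq_false (fun h => hb h.symm)
    simp [emb, this]
  · simp

omit [Fintype β] in
theorem emb_eq {a a' : Fin k → Bool} {V V' : Fin k → β} (h : emb a V = emb a' V') :
    a = a' ∧ ∀ i, a i = true → V i = V' i := by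
  have h1 : ∀ i, a i = true → a' i = true ∧ V i = V' i := by
    intro i hi
    have := congrFun h (i, V i)
    simp only [emb, hi, decide_true, Bool.and_true] at this
    have h2 := this.symm
    rw [Bool.and_eq_true, decide_eq_true_eq] at h2
    exact ⟨h2.1, h2.2.symm⟩
  have h2 : ∀ i, a' i = true → a i = true := by
    intro i hi
    have := congrFun h (i, V' i)
    simp only [emb, hi, decide_true, Bool.and_true] at this
    rw [Bool.and_eq_true] at this
    exact this.1
  refine ⟨funext fun i => ?_, fun i hi => (h1 i hi).2⟩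
  cases h3 : a i
  · cases h4 : a' i
    · rfl
    · rw [h2 i h4] at h3; exact absurd h3 (by simp)
  · exact ((h1 i h3).1).symm

theorem fiber_card [Nonempty β] (m : ℕ) (D : Fin k × β → Bool) :
    ((univ.filter (fun p : (Fin k → Bool) × (Fin k → β) => m < wt p.1)).filter
      (fun p => emb p.1 p.2 = D)).card * Fintype.card β ^ (m + 1) ≤ Fintype.card β ^ k := by
  classical
  set S := ((univ.filter (fun p : (Fin k → Bool) × (Fin k → β) => m < wt p.1)).filter
      (fun p => emb p.1 p.2 = D)) with hS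
  rcases S.eq_empty_or_nonempty with h | ⟨⟨a, V⟩, h⟩
  · rw [h]; simp
  have h1 : emb a V = D := (Finset.mem_filter.1 h).2
  have h2 : m < wt a := (Finset.mem_filter.1 (Finset.mem_filter.1 h).1).2
  have hsub : S ⊆ ({a} : Finset (Fin k → Bool)) ×ˢ
      Fintype.piFinset (fun i => if a i then ({V i} : Finset β) else univ) := by
    rintro ⟨a', V'⟩ h'
    have h3 : emb a' V' = D := (Finset.mem_filter.1 h').2
    obtain ⟨h4, h5⟩ := emb_eq (h1.trans h3.symm)
    refine Finset.mem_product.2 ⟨Finset.mem_singleton.2 h4.symm, ?_⟩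
    refine Fintype.mem_piFinset.2 fun i => ?_
    split_ifs with hi
    · exact Finset.mem_singleton.2 (h5 i hi).symm
    · exact Finset.mem_univ _
  have h3 : (Fintype.piFinset (fun i => if a i then ({V i} : Finset β) else univ)).card
      = Fintype.card β ^ (k - wt a) := by
    rw [Fintype.card_piFinset]
    have h4 : ∀ i, (if a i then ({V i} : Finset β) else univ).card
        = if a i = true then 1 else Fintype.card β := by
      intro i
      split_ifs <;> simp
    rw [Finset.prod_congr rfl (fun i _ => h4 i), Finset.prod_ite, Finset.prod_const_one, one_mul,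
      Finset.prod_const]
    congr 1
    have h5 := Finset.card_filter_add_card_filter_not (s := (univ : Finset (Fin k))) (fun i => a i = true)
    rw [Finset.card_univ, Fintype.card_fin] at h5
    unfold wt
    omega
  have h4 : wt a ≤ k := by
    have := Finset.card_filter_le (univ : Finset (Fin k)) (fun i => a i = true)
    rwa [Finset.card_univ, Fintype.card_fin] at this
  calc S.card * Fintype.card β ^ (m + 1)
      ≤ Fintype.card β ^ (k - wt a) * Fintype.card β ^ (m + 1) := by
        refine Nat.mul_le_mul_right _ ((Finset.card_le_card hsub).trans ?_)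
        rw [Finset.card_product, Finset.card_singleton, one_mul, h3]
    _ = Fintype.card β ^ (k - wt a + (m + 1)) := (pow_add _ _ _).symm
    _ ≤ Fintype.card β ^ k := Nat.pow_le_pow_right Fintype.card_pos (by omega)

/-- The spectral norm of a pattern matrix. -/
theorem pattern_bound [Nonempty β] (ψ : (Fin k → Bool) → ℝ) (m : ℕ) (h1 : ∑ z, |ψ z| ≤ 1)
    (h2 : ∀ a : Fin k → Bool, wt a ≤ m → ∑ z, ψ z * chi a z = 0) (u : (Fin k × β → Bool) → ℝ) :
    (Fintype.card β : ℝ) ^ (m + 1) *
      ∑ y : (Fin k → β) × (Fin k → Bool), (∑ x, u x * ψ (sel x y.1 y.2)) ^ 2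
      ≤ (Fintype.card β : ℝ) ^ k * 2 ^ (k * Fintype.card β) / 2 ^ k * ∑ x, u x ^ 2 := by
  classical
  let c : (Fin k → Bool) → ℝ := fun a => (∑ z, ψ z * chi a z) / 2 ^ k
  have hinv : ∀ z, ψ z = ∑ a, c a * chi a z := by
    intro z
    have h3 : ∑ a, c a * chi a z = (∑ z', ψ z' * ∑ a, chi z' a * chi z a) / 2 ^ k := by
      simp only [c, Finset.sum_div, Finset.sum_mul, Finset.mul_sum]
      rw [Finset.sum_comm]
      refine Finset.sum_congr rfl fun z' _ => Finset.sum_congr rfl fun a _ => ?_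
      rw [chi_comm a z', chi_comm a z]
      ring
    rw [h3]
    have h4 : ∀ z', ψ z' * ∑ a, chi z' a * chi z a = if z' = z then ψ z' * 2 ^ k else 0 := by
      intro z'
      rw [chi_orth, Fintype.card_fin]
      split_ifs <;> simp
    rw [Finset.sum_congr rfl (fun z' _ => h4 z'), Finset.sum_ite_eq', if_pos (Finset.mem_univ _)]
    field_simp
  have hc : ∀ a, c a ^ 2 ≤ (1 / 2 ^ k) ^ 2 := by
    intro a
    have h3 : |c a| ≤ 1 / 2 ^ k := by
      simp only [c]
      rw [abs_div, abs_of_pos (show (0 : ℝ) < 2 ^ k by positivity)]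
      refine div_le_div_of_nonneg_right ?_ (by positivity)
      calc |∑ z, ψ z * chi a z| ≤ ∑ z, |ψ z * chi a z| := Finset.abs_sum_le_sum_abs _ _
        _ = ∑ z, |ψ z| := by
            refine Finset.sum_congr rfl fun z _ => ?_
            rw [abs_mul, abs_chi, mul_one]
        _ ≤ 1 := h1
    rw [← sq_abs]
    exact pow_le_pow_left₀ (abs_nonneg _) h3 2
  have hc0 : ∀ a, wt a ≤ m → c a = 0 := by
    intro a ha
    simp only [c]
    rw [h2 a ha, zero_div]
  let U : (Fin k × β → Bool) → ℝ := fun D => ∑ x, u x * chi D x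
  have hparse : ∑ D, U D ^ 2 = 2 ^ (k * Fintype.card β) * ∑ x, u x ^ 2 := by
    have h3 := sum_sq_of_orth (fun (D : Fin k × β → Bool) (x : Fin k × β → Bool) => chi D x)
      (fun x x' => by
        have h4 := chi_orth (I := Fin k × β) x x'
        have h5 : ∑ z, chi z x * chi z x' = ∑ z, chi x z * chi x' z :=
          Finset.sum_congr rfl fun z _ => by rw [chi_comm z x, chi_comm z x']
        rw [h5, h4]
        simp) u
    have h4 : ∀ D, U D = ∑ x, chi D x * u x := fun D =>
      Finset.sum_congr rfl fun x _ => mul_comm _ _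
    simp only [h4]
    rw [h3]
    simp
  have hinner : ∀ (V : Fin k → β) (w : Fin k → Bool), ∑ x, u x * ψ (sel x V w)
      = ∑ a, chi w a * (c a * U (emb a V)) := by
    intro V w
    simp only [hinv, U, Finset.mul_sum]
    rw [Finset.sum_comm]
    refine Finset.sum_congr rfl fun a _ => Finset.sum_congr rfl fun x _ => ?_
    rw [chi_sel, chi_comm w a]
    ring
  have hw : ∀ V : Fin k → β, ∑ w : Fin k → Bool, (∑ x, u x * ψ (sel x V w)) ^ 2
      = 2 ^ k * ∑ a, (c a * U (emb a V)) ^ 2 := by
    intro V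
    simp only [hinner]
    have h3 := sum_sq_of_orth (fun (w : Fin k → Bool) (a : Fin k → Bool) => chi w a)
      (fun a a' => by
        have h4 := chi_orth (I := Fin k) a a'
        have h5 : ∑ z, chi z a * chi z a' = ∑ z, chi a z * chi a' z :=
          Finset.sum_congr rfl fun z _ => by rw [chi_comm z a, chi_comm z a']
        rw [h5, h4]
        simp) (fun a => c a * U (emb a V))
    rw [h3]
    simp
  have h5 : ∑ y : (Fin k → β) × (Fin k → Bool), (∑ x, u x * ψ (sel x y.1 y.2)) ^ 2
      ≤ 2 ^ k * (1 / 2 ^ k) ^ 2 *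
        ∑ p ∈ univ.filter (fun p : (Fin k → Bool) × (Fin k → β) => m < wt p.1), U (emb p.1 p.2) ^ 2 := by
    rw [Fintype.sum_prod_type]
    simp only [hw]
    rw [← Finset.mul_sum, mul_assoc]
    refine mul_le_mul_of_nonneg_left ?_ (by positivity)
    rw [Finset.sum_filter, Fintype.sum_prod_type_right, Finset.mul_sum]
    refine Finset.sum_le_sum fun V _ => ?_
    rw [Finset.mul_sum]
    refine Finset.sum_le_sum fun a _ => ?_
    show _ ≤ (1 / 2 ^ k) ^ 2 * (if m < wt a then U (emb a V) ^ 2 else 0)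
    split_ifs with ha
    · rw [mul_pow]
      exact mul_le_mul_of_nonneg_right (hc a) (sq_nonneg _)
    · rw [hc0 a (not_lt.1 ha)]; simp
  have h6 : (Fintype.card β : ℝ) ^ (m + 1) *
      ∑ p ∈ univ.filter (fun p : (Fin k → Bool) × (Fin k → β) => m < wt p.1), U (emb p.1 p.2) ^ 2
      ≤ (Fintype.card β : ℝ) ^ k * ∑ D, U D ^ 2 := by
    rw [← Finset.sum_fiberwise_of_maps_to (g := fun p : (Fin k → Bool) × (Fin k → β) => emb p.1 p.2)
      (t := univ) (fun _ _ => Finset.mem_univ _), Finset.mul_sum, Finset.mul_sum]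
    refine Finset.sum_le_sum fun D _ => ?_
    have h7 : ∑ p ∈ (univ.filter (fun p : (Fin k → Bool) × (Fin k → β) => m < wt p.1)).filter
        (fun p => emb p.1 p.2 = D), U (emb p.1 p.2) ^ 2
        = ((univ.filter (fun p : (Fin k → Bool) × (Fin k → β) => m < wt p.1)).filter
        (fun p => emb p.1 p.2 = D)).card * U D ^ 2 := by
      rw [Finset.sum_congr rfl (g := fun _ => U D ^ 2), Finset.sum_const, nsmul_eq_mul]
      intro p hp
      rw [(Finset.mem_filter.1 hp).2]
    rw [h7, ← mul_assoc]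
    refine mul_le_mul_of_nonneg_right ?_ (sq_nonneg _)
    have h8 := fiber_card (β := β) m D
    rw [mul_comm]
    exact_mod_cast h8
  rw [hparse] at h6
  have h7 : (2 : ℝ) ^ k * (1 / 2 ^ k) ^ 2 = 1 / 2 ^ k := by
    field_simp
  rw [h7] at h5
  calc _ ≤ (Fintype.card β : ℝ) ^ (m + 1) * (1 / 2 ^ k *
        ∑ p ∈ univ.filter (fun p : (Fin k → Bool) × (Fin k → β) => m < wt p.1), U (emb p.1 p.2) ^ 2) :=
        mul_le_mul_of_nonneg_left h5 (by positivity)
    _ = 1 / 2 ^ k * ((Fintype.card β : ℝ) ^ (m + 1) *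
        ∑ p ∈ univ.filter (fun p : (Fin k → Bool) × (Fin k → β) => m < wt p.1), U (emb p.1 p.2) ^ 2) := by
        ring
    _ ≤ 1 / 2 ^ k * ((Fintype.card β : ℝ) ^ k * (2 ^ (k * Fintype.card β) * ∑ x, u x ^ 2)) :=
        mul_le_mul_of_nonneg_left h6 (by positivity)
    _ = _ := by ring

/-- The approximate rank of the pattern matrix of OR. -/
theorem pattern_rank [Nonempty β] {ι : Type} [Fintype ι] (m : ℕ) (hk1 : 1 ≤ k) (hk : 16 * m ^ 2 ≤ k)
    (α : ι → (Fin k × β → Bool) → ℝ) (γ : ι → (Fin k → β) × (Fin k → Bool) → ℝ)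
    (hb : ∀ x y, |∑ i, α i x * γ i y| ≤ 1)
    (hap : ∀ x y, |∑ i, α i x * γ i y - orSign (sel x y.1 y.2)| ≤ 2 / 3) :
    (4 / 225 : ℝ) * (Fintype.card β : ℝ) ^ (m + 1) ≤ Fintype.card ι := by
  classical
  obtain ⟨ψ, hψ1, hψ2, hψ3⟩ := exists_dual k m hk1 hk
  set b : ℝ := (Fintype.card β : ℝ) with hbdef
  have hbpos : 0 < b := by rw [hbdef]; exact_mod_cast Fintype.card_pos
  let P : (Fin k × β → Bool) → (Fin k → β) × (Fin k → Bool) → ℝ := fun x y => ∑ i, α i x * γ i y
  let Ψ : (Fin k × β → Bool) → (Fin k → β) × (Fin k → Bool) → ℝ := fun x y => ψ (sel x y.1 y.2)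
  set s : ℝ := b ^ k * 2 ^ (k * Fintype.card β) / 2 ^ k / b ^ (m + 1) with hs
  have hkey := rank_dual P Ψ α γ (fun _ _ => rfl) hb s (by positivity) (fun u => by
    have := pattern_bound (β := β) ψ m hψ1 hψ3 u
    rw [hs, div_mul_eq_mul_div, le_div_iff₀ (by positivity), mul_comm]
    exact this)
  have hsum : ∀ (g : (Fin k → Bool) → ℝ), ∑ x : Fin k × β → Bool, ∑ y : (Fin k → β) × (Fin k → Bool),
      g (sel x y.1 y.2) = (2 ^ (k * Fintype.card β) * b ^ k) * ∑ z, g z := by
    intro g
    have h1 : ∀ (x : Fin k × β → Bool) (V : Fin k → β), ∑ w : Fin k → Bool, g (sel x V w) = ∑ z, g z := by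
      intro x V
      have hinv : Function.Involutive (fun w : Fin k → Bool => sel x V w) := by
        intro w
        funext i
        simp [sel]
      exact Equiv.sum_comp (Equiv.ofBijective _ hinv.bijective) g
    calc ∑ x : Fin k × β → Bool, ∑ y : (Fin k → β) × (Fin k → Bool), g (sel x y.1 y.2)
        = ∑ x : Fin k × β → Bool, ∑ V : Fin k → β, ∑ z, g z := by
          refine Finset.sum_congr rfl fun x _ => ?_
          rw [Fintype.sum_prod_type]
          exact Finset.sum_congr rfl fun V _ => h1 x V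
      _ = _ := by
          simp only [Finset.sum_const, Finset.card_univ, nsmul_eq_mul]
          rw [Fintype.card_fun, Fintype.card_fun, Fintype.card_prod, Fintype.card_fin, Fintype.card_bool]
          push_cast
          ring
  set N : ℝ := 2 ^ (k * Fintype.card β) * b ^ k with hN
  have hNpos : 0 < N := by positivity
  have hlow : N * (2 / 15) ≤ ∑ x, ∑ y, Ψ x y * P x y := by
    have h1 : ∀ x y, ψ (sel x y.1 y.2) * orSign (sel x y.1 y.2) - 2 / 3 * |ψ (sel x y.1 y.2)|
        ≤ Ψ x y * P x y := by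
      intro x y
      have h2 := hap x y
      have h3 : |ψ (sel x y.1 y.2) * (P x y - orSign (sel x y.1 y.2))| ≤ |ψ (sel x y.1 y.2)| * (2 / 3) := by
        rw [abs_mul]
        exact mul_le_mul_of_nonneg_left h2 (abs_nonneg _)
      have h4 := (abs_le.1 h3).1
      show _ ≤ ψ (sel x y.1 y.2) * P x y
      linarith
    have h2 := Finset.sum_le_sum (fun x (_ : x ∈ (univ : Finset (Fin k × β → Bool))) =>
      Finset.sum_le_sum (fun y (_ : y ∈ (univ : Finset ((Fin k → β) × (Fin k → Bool)))) => h1 x y))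
    rw [hsum (fun z => ψ z * orSign z - 2 / 3 * |ψ z|)] at h2
    refine le_trans ?_ h2
    refine mul_le_mul_of_nonneg_left ?_ hNpos.le
    rw [Finset.sum_sub_distrib, ← Finset.mul_sum]
    linarith
  have h1 : (N * (2 / 15)) ^ 2 ≤ (∑ x, ∑ y, Ψ x y * P x y) ^ 2 :=
    pow_le_pow_left₀ (by positivity) hlow 2
  have h2 := h1.trans hkey
  have hcX : (Fintype.card (Fin k × β → Bool) : ℝ) = 2 ^ (k * Fintype.card β) := by
    rw [Fintype.card_fun, Fintype.card_prod, Fintype.card_fin, Fintype.card_bool]; push_cast; rfl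
  have hcY : (Fintype.card ((Fin k → β) × (Fin k → Bool)) : ℝ) = b ^ k * 2 ^ k := by
    rw [Fintype.card_prod, Fintype.card_fun, Fintype.card_fun, Fintype.card_fin, Fintype.card_bool]
    push_cast; rfl
  rw [hcX, hcY] at h2
  have h3 : (Fintype.card ι : ℝ) * s * (2 ^ (k * Fintype.card β) * (b ^ k * 2 ^ k))
      = Fintype.card ι * (N ^ 2 / b ^ (m + 1)) := by
    rw [hs, hN]
    field_simp
  rw [h3] at h2
  have h4 : N ^ 2 * (4 / 225) ≤ N ^ 2 * (Fintype.card ι / b ^ (m + 1)) := by
    calc N ^ 2 * (4 / 225) = (N * (2 / 15)) ^ 2 := by ring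
      _ ≤ _ := h2
      _ = _ := by ring
  have h5 := le_of_mul_le_mul_left h4 (by positivity)
  rw [le_div_iff₀ (by positivity)] at h5
  exact h5

end pattern

end Pool.Agent.H524R2
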