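import Pool.Agent.H524R2.Quantum3
import Pool.Agent.H524R2.Bound

/-! # The time-space bound for satisfiability on quantum one-tape machines -/

namespace Pool.Agent.H524R2

open Finset

theorem pow_aux' (K : ℕ) (hK : 22 ≤ K) : 400 * K * (10 * K + 17) ≤ 2 ^ K := by
  induction K, hK using Nat.le_induction with
  | base => norm_num
  | succ K hK ih =>
    have : 400 * (K + 1) * (10 * (K + 1) + 17) ≤ 2 * (400 * K * (10 * K + 17)) := by nlinarith
    calc _ ≤ _ := this
      _ ≤ 2 * 2 ^ K := by omega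
      _ = 2 ^ (K + 1) := by rw [pow_succ]; ring

/-- The parameters of the hard instances of length `n`. -/
theorem params' (n : ℕ) (hn : 2 ^ 22 ≤ n) :
    ∃ K m : ℕ, ∃ pads : List Formula, 22 ≤ K ∧ 2 ^ K ≤ n ∧ n < 2 ^ (K + 1) ∧ 1 ≤ m ∧
      8 * (m + 1) ≤ 2 ^ K ∧ n ≤ 400 * K * (m - 10 * K - 16) ∧ 10 * K + 16 ≤ m ∧
      (∀ f ∈ pads, ∃ j, f = pad j) ∧
      m * (20 * K + 112) + (2 * K + 13) + (cost pads + pads.length) = n ∧
      n ≤ 2 * cost pads := by
  set K := Nat.log 2 n with hKdef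
  have hn0 : n ≠ 0 := by
    have : 0 < 2 ^ 22 := by positivity
    omega
  have hK1 : 2 ^ K ≤ n := Nat.pow_log_le_self 2 hn0
  have hK2 : n < 2 ^ (K + 1) := Nat.lt_pow_succ_log_self (by norm_num) n
  have hK : 22 ≤ K := (Nat.le_log_iff_pow_le (by norm_num) hn0).2 hn
  have haux := pow_aux' K hK
  set m := n / (200 * K) with hm
  have hm1 : 200 * K * m ≤ n := Nat.mul_div_le n (200 * K)
  have hm2 : n < 200 * K * (m + 1) := Nat.lt_mul_div_succ n (by omega)
  rw [pow_succ] at hK2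
  have h8 : 8 * (m + 1) ≤ 2 ^ K := by
    have h1 : 200 * 22 * m ≤ 200 * K * m := by gcongr
    omega
  have hmb : 10 * K + 17 ≤ m := by
    by_contra hcon
    push Not at hcon
    have h1 : 200 * K * (m + 1) ≤ 200 * K * (10 * K + 17) := Nat.mul_le_mul_left _ (by omega)
    have h2 : 200 * K * (10 * K + 17) ≤ 400 * K * (10 * K + 17) := by nlinarith
    omega
  have hbase : m * (20 * K + 112) + (2 * K + 13) ≤ n / 3 := by
    rw [Nat.le_div_iff_mul_le (by norm_num)]
    have h1 : 22 * m ≤ K * m := by gcongr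
    have h2 : 200 * (K * m) ≤ n := by rw [← mul_assoc]; exact hm1
    have h3 : 400 * K * (10 * K + 17) ≤ n := haux.trans hK1
    have h4 : 10 * K + 17 ≤ K * (10 * K + 17) := by nlinarith
    have h5 : (m * (20 * K + 112) + (2 * K + 13)) * 3 = 60 * (K * m) + 336 * m + (6 * K + 39) := by ring
    have h6 : 400 * (K * (10 * K + 17)) ≤ n := by rw [← mul_assoc]; exact h3
    omega
  obtain ⟨pads, hp1, hp2, hp3, hp4⟩ := exists_pads (n - (m * (20 * K + 112) + (2 * K + 13))) (by omega)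
  have hp1' : cost pads + pads.length = n - (m * (20 * K + 112) + (2 * K + 13)) := hp1
  refine ⟨K, m, pads, hK, hK1, by rw [pow_succ]; exact hK2, by omega, h8, ?_, by omega, hp2,
    by omega, by omega⟩
  -- the lower bound for m
  have h1 : n < 200 * K * (m + 1) := hm2
  have h3 : 400 * K * (10 * K + 17) ≤ n := haux.trans hK1
  obtain ⟨r, hr⟩ : ∃ r, m = r + (10 * K + 16) := ⟨m - (10 * K + 16), by omega⟩
  have h4 : m - 10 * K - 16 = r := by omega
  rw [h4]
  rw [hr] at h1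
  have h5 : 200 * K * (r + (10 * K + 16) + 1) = 200 * K * r + 200 * K * (10 * K + 17) := by ring
  have h6 : 400 * K * r = 2 * (200 * K * r) := by ring
  have h7 : 400 * K * (10 * K + 17) = 2 * (200 * K * (10 * K + 17)) := by ring
  omega

/-- **Quantum lower bound.** -/
theorem quantum_bound (n : ℕ) (hn : 2 ^ 22 ≤ n) (Q Γ : Type) [Fintype Q] [Fintype Γ]
    (M : Machine ℂ Sym Q Γ) (θ : ℝ) (T S : ℕ) (hS : 1 ≤ S) (hQ : Fintype.card Q ≤ 2 ^ S)
    (hM : ∀ φ : Formula, φ.encode.length = n → (θ < M.acceptProb T φ.encode ↔ φ.Satisfiable)) :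
    (1 / 38400 : ℝ) * n ^ 2 / Real.log n ≤ T * S := by
  obtain ⟨K, m, pads, hK, hK1, hK2, hm1, hk8, hmn, hm6, hpads, hlen, hcost⟩ := params' n hn
  set G := (midWord K m pads).length with hG
  have hGeq : G = m * (18 * (K + 2) + 63) + (2 * (K + 2) + 5) + cost pads := length_midWord hk8 pads
  have hG1 : n ≤ 2 * G := by omega
  have hG2 : G ≤ n := by
    have h1 : m * (20 * K + 112) = m * (18 * (K + 2) + 63) + m * (2 * K + 13) := by ring
    have h2 : 2 * K + 13 ≤ m * (2 * K + 13) := by nlinarith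
    omega
  have hg : 1 ≤ m * (K + 4) := by nlinarith
  -- the decomposition
  obtain ⟨ι, hι, α, β, hcard, hdec⟩ := QM.decompQ M (X := Fin m → Bool) (Y := Fin m → Bool)
    (m * (K + 4)) G T hg (by omega) (fun x => uWord K m (ext x)) (midWord K m pads)
    (fun y => vWord K m pads (ext y)) (fun x => length_uWord hk8 _) rfl
  have hsign : ∀ x y : Fin m → Bool, θ < ∑ i, α i x * β i y ↔ 0 < ipSign x y := by
    intro x y
    rw [← hdec, ← encode_ipFormula, ipSign_pos_iff,
      ← satisfiable_ipFormula K m (by omega) pads hpads (ext x) (ext y)]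
    exact hM _ (by rw [length_ipFormula hk8]; exact hlen)
  have hrank := sign_rank_bound α β θ hsign
  have hrank' : 2 ^ m ≤ (Fintype.card ι + 1) ^ 2 := by exact_mod_cast hrank
  -- trivial case
  have hn22 : 2 ^ 22 ≤ n := hn
  have hn1 : (1 : ℝ) < n := by
    have : (1 : ℕ) < 2 ^ 22 := by norm_num
    exact_mod_cast lt_of_lt_of_le this hn
  have hnpos : (0 : ℝ) < n := by linarith
  have hlogpos : 0 < Real.log n := Real.log_pos hn1
  have hlog2 : (1 / 2 : ℝ) ≤ Real.log 2 := by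
    have := Real.log_two_gt_d9
    linarith
  have hKlog : (K : ℝ) * Real.log 2 ≤ Real.log n := by
    rw [← Real.log_pow]
    refine Real.log_le_log (by positivity) ?_
    exact_mod_cast hK1
  have hlogK : (K : ℝ) ≤ 2 * Real.log n := by
    have : (0 : ℝ) ≤ K := Nat.cast_nonneg K
    nlinarith
  have hK22 : (22 : ℝ) ≤ K := by exact_mod_cast hK
  by_cases hT : n ^ 2 ≤ T
  · have h1 : (n : ℝ) ^ 2 ≤ T := by exact_mod_cast hT
    have h2 : (1 : ℝ) ≤ S := by exact_mod_cast hS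
    have h3 : (n : ℝ) ^ 2 ≤ T * S := by
      calc (n : ℝ) ^ 2 ≤ T := h1
        _ = T * 1 := by ring
        _ ≤ T * S := by gcongr
    refine le_trans ?_ h3
    rw [div_le_iff₀ hlogpos]
    have h4 : (11 : ℝ) ≤ Real.log n := by linarith
    have h5 : (0 : ℝ) ≤ (n : ℝ) ^ 2 := by positivity
    nlinarith
  push Not at hT
  -- the size of the index set
  set E := (2 * T + 1) / G with hE
  have hq : (4 * Fintype.card Q + 1) ^ E ≤ 2 ^ (4 * S * E) := by
    rw [pow_mul]
    refine Nat.pow_le_pow_left ?_ _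
    have h1 : 1 ≤ 2 ^ S := Nat.one_le_two_pow
    calc 4 * Fintype.card Q + 1 ≤ 2 ^ S * 2 ^ 3 := by omega
      _ = 2 ^ (S + 3) := by rw [pow_add]
      _ ≤ 2 ^ (4 * S) := Nat.pow_le_pow_right (by norm_num) (by omega)
  have hc1 : Fintype.card ι + 1 ≤ 2 ^ (5 * K + 8 + 4 * S * E) := by
    have hpos : 1 ≤ 2 ^ (4 * S * E) := Nat.one_le_two_pow
    have h1 : 2 * (T + 1) * (G * (2 * T + 2)) ≤ 2 ^ (5 * K + 7) := by
      calc 2 * (T + 1) * (G * (2 * T + 2)) = 4 * ((T + 1) * (T + 1)) * G := by ring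
        _ ≤ 4 * (n ^ 2 * n ^ 2) * n := by
            refine Nat.mul_le_mul (Nat.mul_le_mul_left _ (Nat.mul_le_mul ?_ ?_)) hG2 <;> omega
        _ = 4 * n ^ 5 := by ring
        _ ≤ 4 * (2 ^ (K + 1)) ^ 5 := Nat.mul_le_mul_left _ (Nat.pow_le_pow_left hK2.le 5)
        _ = 2 ^ (5 * K + 7) := by
            rw [← pow_mul, show (4 : ℕ) = 2 ^ 2 by norm_num, ← pow_add]; congr 1; ring
    calc Fintype.card ι + 1
        ≤ 2 * (T + 1) * (G * (2 * T + 2) * (4 * Fintype.card Q + 1) ^ E) + 1 := by omega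
      _ = 2 * (T + 1) * (G * (2 * T + 2)) * (4 * Fintype.card Q + 1) ^ E + 1 := by ring
      _ ≤ 2 ^ (5 * K + 7) * 2 ^ (4 * S * E) + 2 ^ (5 * K + 7) * 2 ^ (4 * S * E) := by
          refine Nat.add_le_add (Nat.mul_le_mul h1 hq) ?_
          exact Nat.one_le_iff_ne_zero.2 (by positivity)
      _ = 2 ^ (5 * K + 8 + 4 * S * E) := by
          rw [← pow_add, ← two_mul, ← pow_succ']; congr 1; ring
  have hexp : m ≤ 2 * (5 * K + 8 + 4 * S * E) := by
    have h1 : 2 ^ m ≤ 2 ^ (2 * (5 * K + 8 + 4 * S * E)) := by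
      calc 2 ^ m ≤ (Fintype.card ι + 1) ^ 2 := hrank'
        _ ≤ (2 ^ (5 * K + 8 + 4 * S * E)) ^ 2 := Nat.pow_le_pow_left hc1 2
        _ = _ := by rw [← pow_mul, mul_comm]
    exact (Nat.pow_le_pow_iff_right (by norm_num)).1 h1
  -- conclusion in the natural numbers
  have h1 : m - 10 * K - 16 ≤ 8 * (S * E) := by
    have : 2 * (5 * K + 8 + 4 * S * E) = 10 * K + 16 + 8 * (S * E) := by ring
    omega
  have h2 : E * n ≤ 6 * T := by
    rcases Nat.eq_zero_or_pos T with h0 | h0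
    · have : E = 0 := by
        rw [hE, h0]
        exact Nat.div_eq_of_lt (by omega)
      rw [this]; omega
    · calc E * n ≤ E * (2 * G) := Nat.mul_le_mul_left _ hG1
        _ = 2 * (E * G) := by ring
        _ ≤ 2 * (2 * T + 1) := Nat.mul_le_mul_left _ (Nat.div_mul_le_self _ G)
        _ ≤ 6 * T := by omega
  have h3 : n * n ≤ 19200 * K * (T * S) := by
    calc n * n ≤ 400 * K * (m - 10 * K - 16) * n := Nat.mul_le_mul_right n hmn
      _ ≤ 400 * K * (8 * (S * E)) * n := by gcongr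
      _ = 3200 * K * S * (E * n) := by ring
      _ ≤ 3200 * K * S * (6 * T) := by gcongr
      _ = 19200 * K * (T * S) := by ring
  have h4 : (n : ℝ) * n ≤ 19200 * K * (T * S) := by exact_mod_cast h3
  rw [div_le_iff₀ hlogpos]
  have h5 : (0 : ℝ) ≤ (T : ℝ) * S := by positivity
  have h6 : 19200 * (K : ℝ) * (T * S) ≤ 19200 * (2 * Real.log n) * (T * S) := by gcongr
  nlinarith

end Pool.Agent.H524R2
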