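import Pool.Agent.H524R2.Defs

/-! # Quantum one-tape machines

A quantum one-tape machine is a `Machine ℂ A Q Γ` whose weights are the transition amplitudes.
Unitarity of the evolution is not required anywhere. -/

namespace Pool.Agent.H524R2

open Function

/-- A configuration: state, head position and tape contents. -/
@[ext]
structure Config (Q Γ : Type) where
  /-- the state -/
  state : Q
  /-- the position of the head -/
  head : ℤ
  /-- the contents of the tape -/
  tape : ℤ → Γ

/-- The configuration reached by the transition `o = (new state, written symbol, move)`. -/
def Config.next {Q Γ : Type} (C : Config Q Γ) (o : Q × Γ × Move) : Config Q Γ :=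
  ⟨o.1, C.head + o.2.2.delta, update C.tape C.head o.2.1⟩

namespace Machine

variable {A Q Γ : Type} [Fintype Q] [Fintype Γ]

/-- The initial configuration on the input word `w`. -/
def init {K A Q Γ : Type} (M : Machine K A Q Γ) (w : List A) : Config Q Γ := ⟨M.start, 0, M.tape w⟩

/-- One step of the evolution of superpositions of configurations: the basis state `C` is sent to
the sum over all transitions `o` of `amplitude(o) • C.next o`. -/
noncomputable def evolve (M : Machine ℂ A Q Γ) (ψ : Config Q Γ →₀ ℂ) : Config Q Γ →₀ ℂ :=
  ψ.sum fun C z => ∑ o : Q × Γ × Move,
    Finsupp.single (C.next o) (z * M.weight C.state (C.tape C.head) o)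

/-- The superposition reached from the initial configuration after `t` steps. -/
noncomputable def superposition (M : Machine ℂ A Q Γ) (t : ℕ) (w : List A) : Config Q Γ →₀ ℂ :=
  M.evolve^[t] (Finsupp.single (M.init w) 1)

open Classical in
/-- The probability of observing an accepting state when the superposition reached after `t`
steps is measured: the sum of `|amplitude|²` over the accepting configurations. -/
noncomputable def acceptProb (M : Machine ℂ A Q Γ) (t : ℕ) (w : List A) : ℝ :=
  (M.superposition t w).sum fun C z => if C.state ∈ M.accepting then ‖z‖ ^ 2 else 0

end Machine

end Pool.Agent.H524R2
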