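import Pool.Agent.H524R2.Factor2
import Pool.Agent.H524R2.Rank

/-! # The decomposition lemma for computations which return to the initial tape -/

namespace Pool.Agent.H524R2.G2

open Finset Function Pool.Agent.H524R2

section

variable {K A Q Γ : Type} [Fintype Q] [Fintype Γ] [CommSemiring K]

/-- Like `Machine.value`, with a final weight which may depend on the whole configuration. -/
noncomputable def gval (M : Machine K A Q Γ) (Φ : Q → ℤ → (ℤ → Γ) → K) :
    ℕ → Q → ℤ → (ℤ → Γ) → K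
  | 0, q, h, τ => Φ q h τ
  | t + 1, q, h, τ => ∑ o : Q × Γ × Move,
      M.weight q (τ h) o * gval M Φ t o.1 (h + o.2.2.delta) (update τ h o.2.1)

theorem mval_eq_gval (M : Machine K A Q Γ) (Φ : Q → ℤ → (ℤ → Γ) → K) (t : ℕ) (q : Q) (h : ℤ)
    (τ : ℤ → Γ) (cnt : ℤ → ℕ) :
    mval M (fun q h τ _ => Φ q h τ) t q h τ cnt = gval M Φ t q h τ := by
  induction t generalizing q h τ cnt with
  | zero => simp [mval, gval]
  | succ t ih => simp only [mval, gval, ih]

omit [Fintype Q] [Fintype Γ] in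
theorem sum_fin_eq' (g : ℤ) (G ℓ T : ℕ) (hT : T < G * (ℓ + 1))
    (ac : Q → ℤ → K) (f : (ℤ → Γ) → K) (fL fR : ℕ → (ℤ → Γ) → K)
    (hf : ∀ j < G, ∀ τ, fL j τ * fR j τ = f τ)
    (q : Q) (h : ℤ) (τ : ℤ → Γ) (cnt : ℤ → ℕ) (hc : tot g G cnt ≤ T) :
    ac q h * f τ
      = ∑ j ∈ range G, fin (g + (j : ℕ)) ℓ (okp g ℓ j) ac (fL j) (fR j) q h τ cnt := by
  classical
  have hex : ∃ j, j < G ∧ cnt (g + (j : ℕ)) ≤ ℓ := by
    by_contra hcon
    push Not at hcon
    have : G * (ℓ + 1) ≤ tot g G cnt := by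
      unfold tot
      calc G * (ℓ + 1) = ∑ _j ∈ range G, (ℓ + 1) := by simp
        _ ≤ _ := Finset.sum_le_sum fun j hj => hcon j (Finset.mem_range.1 hj)
    omega
  obtain ⟨j0, ⟨h1, h2⟩, hmin'⟩ : ∃ j, (j < G ∧ cnt (g + (j : ℕ)) ≤ ℓ) ∧
      ∀ i < j, ¬ (i < G ∧ cnt (g + (i : ℕ)) ≤ ℓ) :=
    ⟨Nat.find hex, Nat.find_spec hex, fun i hi => Nat.find_min hex hi⟩
  have hmin : ∀ i < j0, ℓ < cnt (g + (i : ℕ)) := by
    intro i hi
    have := hmin' i hi
    push Not at this
    exact this (by omega)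
  rw [Finset.sum_eq_single j0]
  · unfold fin
    have h3 : okp g ℓ j0 cnt := hmin
    rw [if_pos ⟨h2, h3⟩, mul_assoc, hf j0 h1]
  · intro j hj hne
    unfold fin
    rw [if_neg]
    rintro ⟨h3, h4⟩
    rcases lt_or_gt_of_ne hne with h5 | h5
    · have := hmin j h5
      omega
    · have := h4 j0 h5
      omega
  · intro hn
    exact absurd (Finset.mem_range.2 h1) hn

open Classical in
/-- **Decomposition lemma** for computations which must end with the initial tape. -/
theorem decomp2 (M : Machine K A Q Γ) (ac : Q → ℤ → K) {X Y : Type} (g G T : ℕ) (hg : 1 ≤ g)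
    (hG : 1 ≤ G)
    (u : X → List A) (mid : List A) (v : Y → List A) (hu : ∀ x, (u x).length = g)
    (hmid : mid.length = G) :
    ∃ (ι : Type) (_ : Fintype ι) (α : ι → X → K) (β : ι → Y → K),
      Fintype.card ι ≤ G * (T + 1) * (Fintype.card Q + 1) ^ (T / G) ∧
      ∀ x y, gval M (fun q h τ => ac q h * if τ = M.tape (u x ++ mid ++ v y) then 1 else 0)
        T M.start 0 (M.tape (u x ++ mid ++ v y)) = ∑ i, α i x * β i y := by
  set ℓ := T / G with hℓ
  let I : Finset (ℕ × List Q × (ℕ × ℕ)) := range G ×ˢ (lists Q ℓ ×ˢ antidiagonal T)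
  let tL : X → ℤ → Γ := fun x => M.tape (u x ++ mid)
  let tR : Y → ℤ → Γ := fun y z => if (g : ℤ) ≤ z then M.tape (mid ++ v y) (z - g) else M.blank
  let fL : ℕ → X → (ℤ → Γ) → K := fun j x τ => if ∀ i < (g : ℤ) + (j : ℕ), τ i = tL x i then 1 else 0
  let fR : ℕ → Y → (ℤ → Γ) → K := fun j y τ => if ∀ i, (g : ℤ) + (j : ℕ) ≤ i → τ i = tR y i then 1 else 0
  let α : ℕ × List Q × (ℕ × ℕ) → X → K := fun i x =>
    lft M ((g : ℤ) + (i.1 : ℕ)) (okp g ℓ i.1) ac (fL i.1 x) i.2.2.1 i.2.1 M.start 0 (tL x)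
      (fun _ => 0)
  let β : ℕ × List Q × (ℕ × ℕ) → Y → K := fun i y =>
    rgtW M ((g : ℤ) + (i.1 : ℕ)) ac (fR i.1 y) i.2.2.2 i.2.1 (tR y)
  refine ⟨I, inferInstance, fun i => α i, fun i => β i, ?_, ?_⟩
  · have : Fintype.card I = G * ((lists Q ℓ).card * (T + 1)) := by
      rw [Fintype.card_coe]
      simp [I]
    rw [this]
    have h1 := card_lists_le (Q := Q) ℓ
    calc G * ((lists Q ℓ).card * (T + 1)) ≤ G * ((Fintype.card Q + 1) ^ ℓ * (T + 1)) := by gcongr
      _ = _ := by ring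
  · intro x y
    have hlen : (u x ++ mid).length = g + G := by rw [List.length_append, hu, hmid]
    have hL : ∀ j < G, ∀ i < (g : ℤ) + (j : ℕ), M.tape (u x ++ mid ++ v y) i = tL x i := by
      intro j hj i hi
      exact tape_append_left _ _ _ _ (by omega)
    have hR : ∀ j : ℕ, ∀ i, (g : ℤ) + (j : ℕ) ≤ i → M.tape (u x ++ mid ++ v y) i = tR y i := by
      intro j i hi
      show _ = if (g : ℤ) ≤ i then M.tape (mid ++ v y) (i - g) else M.blank
      rw [if_pos (by omega), List.append_assoc, tape_append_right _ _ _ _ (by rw [hu]; omega), hu]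
    have e1 : gval M (fun q h τ => ac q h * if τ = M.tape (u x ++ mid ++ v y) then 1 else 0)
        T M.start 0 (M.tape (u x ++ mid ++ v y))
        = ∑ j ∈ range G, mval M (fin ((g : ℤ) + (j : ℕ)) ℓ (okp g ℓ j) ac (fL j x) (fR j y)) T M.start 0
            (M.tape (u x ++ mid ++ v y)) (fun _ => 0) := by
      rw [← mval_sum, ← mval_eq_gval M _ T _ _ _ (fun _ => 0)]
      refine mval_congr_tot g G M _ _ T ?_ T _ _ _ _ ?_
      · intro q h τ cnt hc
        refine sum_fin_eq' (Q := Q) (Γ := Γ) g G ℓ T (Nat.lt_mul_div_succ T (by omega)) ac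
          (fun τ => if τ = M.tape (u x ++ mid ++ v y) then 1 else 0) (fun j => fL j x) (fun j => fR j y)
          ?_ q h τ cnt hc
        intro j hj τ
        have hiff : τ = M.tape (u x ++ mid ++ v y) ↔
            (∀ i < (g : ℤ) + (j : ℕ), τ i = tL x i) ∧ (∀ i, (g : ℤ) + (j : ℕ) ≤ i → τ i = tR y i) := by
          constructor
          · rintro rfl
            exact ⟨hL j hj, hR j⟩
          · rintro ⟨h1, h2⟩
            funext i
            rcases lt_or_ge i ((g : ℤ) + (j : ℕ)) with hi | hi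
            · rw [h1 i hi, hL j hj i hi]
            · rw [h2 i hi, hR j i hi]
        show (if _ then (1 : K) else 0) * (if _ then (1 : K) else 0) = if _ then 1 else 0
        by_cases h1 : ∀ i < (g : ℤ) + (j : ℕ), τ i = tL x i
        · by_cases h2 : ∀ i, (g : ℤ) + (j : ℕ) ≤ i → τ i = tR y i
          · rw [if_pos h1, if_pos h2, if_pos (hiff.2 ⟨h1, h2⟩), one_mul]
          · rw [if_neg h2, if_neg (fun h => h2 (hiff.1 h).2), mul_zero]
        · rw [if_neg h1, if_neg (fun h => h1 (hiff.1 h).1), zero_mul]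
      · simp [tot]
    rw [e1]
    have e2 : ∑ i : I, α i x * β i y = ∑ i ∈ I, α i x * β i y :=
      Finset.sum_coe_sort I (fun i => α i x * β i y)
    rw [e2, Finset.sum_product]
    refine Finset.sum_congr rfl fun j hj => ?_
    have hj' := Finset.mem_range.1 hj
    have hfL : ∀ τ τ' : ℤ → Γ, (∀ i < (g : ℤ) + (j : ℕ), τ i = τ' i) → fL j x τ = fL j x τ' := by
      intro τ τ' h
      have : (∀ i < (g : ℤ) + (j : ℕ), τ i = tL x i) ↔ (∀ i < (g : ℤ) + (j : ℕ), τ' i = tL x i) :=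
        forall_congr' fun i => imp_congr_right fun hi => by rw [h i hi]
      show (if _ then (1 : K) else 0) = if _ then (1 : K) else 0
      simp only [this]
    have hfR : ∀ τ τ' : ℤ → Γ, (∀ i, (g : ℤ) + (j : ℕ) ≤ i → τ i = τ' i) → fR j y τ = fR j y τ' := by
      intro τ τ' h
      have : (∀ i, (g : ℤ) + (j : ℕ) ≤ i → τ i = tR y i) ↔
          (∀ i, (g : ℤ) + (j : ℕ) ≤ i → τ' i = tR y i) :=
        forall_congr' fun i => imp_congr_right fun hi => by rw [h i hi]
      show (if _ then (1 : K) else 0) = if _ then (1 : K) else 0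
      simp only [this]
    rw [(factor M ((g : ℤ) + (j : ℕ)) ℓ (okp g ℓ j) ac (fL j x) (fR j y) (okp_congr g ℓ j) hfL hfR T).1
      M.start 0 _ _ ℓ (by omega) (by simp), Finset.sum_product]
    refine Finset.sum_congr rfl fun c _ => ?_
    refine Finset.sum_congr rfl fun p _ => ?_
    congr 1
    · exact lft_congr M _ _ ac _ (okp_congr g ℓ j) hfL _ _ _ _ _ _ _ _ (by omega)
        (hL j hj') fun i _ => rfl
    · exact rgtW_congr M _ ac _ hfR _ _ _ _ (hR j)

end

end Pool.Agent.H524R2.G2
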