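import Pool.Agent.H524R2.QDefs
import Pool.Agent.H524R2.Rank2

/-! # The acceptance probability of a quantum machine as a weight of closed computations -/

namespace Pool.Agent.H524R2.QM

open Finset Function Pool.Agent.H524R2 Polynomial G2

section

variable {A Q Γ : Type} [Fintype Q] [Fintype Γ]

/-- the linear functional given by a function on configurations -/
noncomputable def fnl (Φ : Config Q Γ → ℂ) (ψ : Config Q Γ →₀ ℂ) : ℂ := ψ.sum fun C z => z * Φ C

omit [Fintype Q] [Fintype Γ] in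
theorem fnl_add (Φ : Config Q Γ → ℂ) (ψ ψ' : Config Q Γ →₀ ℂ) :
    fnl Φ (ψ + ψ') = fnl Φ ψ + fnl Φ ψ' := by
  classical
  unfold fnl
  exact Finsupp.sum_add_index' (by simp) (by intros; ring)

omit [Fintype Q] [Fintype Γ] in
theorem fnl_single (Φ : Config Q Γ → ℂ) (C : Config Q Γ) (z : ℂ) :
    fnl Φ (Finsupp.single C z) = z * Φ C := by
  unfold fnl
  exact Finsupp.sum_single_index (by simp)

omit [Fintype Q] [Fintype Γ] in
theorem fnl_zero (Φ : Config Q Γ → ℂ) : fnl Φ 0 = 0 := by
  unfold fnl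
  exact Finsupp.sum_zero_index

omit [Fintype Q] [Fintype Γ] in
theorem fnl_sum {ι : Type} (Φ : Config Q Γ → ℂ) (s : Finset ι) (f : ι → Config Q Γ →₀ ℂ) :
    fnl Φ (∑ i ∈ s, f i) = ∑ i ∈ s, fnl Φ (f i) := by
  classical
  induction s using Finset.induction_on with
  | empty => simp [fnl_zero]
  | insert a s ha ih => rw [Finset.sum_insert ha, Finset.sum_insert ha, fnl_add, ih]

theorem fnl_evolve (M : Machine ℂ A Q Γ) (Φ : Config Q Γ → ℂ) (ψ : Config Q Γ →₀ ℂ) :
    fnl Φ (M.evolve ψ) = fnl (fun C => ∑ o : Q × Γ × Move,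
      M.weight C.state (C.tape C.head) o * Φ (C.next o)) ψ := by
  unfold Machine.evolve
  rw [Finsupp.sum, fnl_sum]
  unfold fnl
  rw [Finsupp.sum]
  refine Finset.sum_congr rfl fun C _ => ?_
  have h1 := fnl_sum Φ univ (fun o : Q × Γ × Move =>
    Finsupp.single (C.next o) (ψ C * M.weight C.state (C.tape C.head) o))
  unfold fnl at h1
  rw [h1, Finset.mul_sum]
  refine Finset.sum_congr rfl fun o _ => ?_
  have h2 := fnl_single Φ (C.next o) (ψ C * M.weight C.state (C.tape C.head) o)
  unfold fnl at h2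
  rw [h2]
  ring

theorem fnl_iterate (M : Machine ℂ A Q Γ) (Φ : Q → ℤ → (ℤ → Γ) → ℂ) (t : ℕ) (ψ : Config Q Γ →₀ ℂ) :
    fnl (fun C => Φ C.state C.head C.tape) (M.evolve^[t] ψ)
      = fnl (fun C => gval M Φ t C.state C.head C.tape) ψ := by
  induction t generalizing ψ with
  | zero => simp [gval]
  | succ t ih =>
    rw [Function.iterate_succ_apply, ih, fnl_evolve]
    rfl

/-- the predecessor of a configuration under a transition -/
def pre (C : Config Q Γ) (k : Q × Γ × Move) : Config Q Γ :=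
  ⟨k.1, C.head - k.2.2.delta, update C.tape (C.head - k.2.2.delta) k.2.1⟩

open Classical in
/-- The backward recursion for the amplitudes. -/
theorem evolve_apply (M : Machine ℂ A Q Γ) (ψ : Config Q Γ →₀ ℂ) (C : Config Q Γ) :
    M.evolve ψ C = ∑ k : Q × Γ × Move,
      M.weight k.1 k.2.1 (C.state, C.tape (C.head - k.2.2.delta), k.2.2) * ψ (pre C k) := by
  have e1 : M.evolve ψ C = ∑ C₀ ∈ ψ.support, ∑ o : Q × Γ × Move,
      if C₀.next o = C then ψ C₀ * M.weight C₀.state (C₀.tape C₀.head) o else 0 := by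
    unfold Machine.evolve
    rw [Finsupp.sum, Finsupp.finsetSum_apply]
    refine Finset.sum_congr rfl fun C₀ _ => ?_
    rw [Finsupp.finsetSum_apply]
    refine Finset.sum_congr rfl fun o _ => ?_
    rw [Finsupp.single_apply]
  have e2 : ∀ k : Q × Γ × Move,
      M.weight k.1 k.2.1 (C.state, C.tape (C.head - k.2.2.delta), k.2.2) * ψ (pre C k)
      = ∑ C₀ ∈ ψ.support, if C₀ = pre C k then
        M.weight k.1 k.2.1 (C.state, C.tape (C.head - k.2.2.delta), k.2.2) * ψ C₀ else 0 := by
    intro k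
    rw [Finset.sum_ite_eq']
    split_ifs with h
    · rfl
    · rw [Finsupp.notMem_support_iff.1 h, mul_zero]
  have e3 : ∑ k : Q × Γ × Move, ∑ C₀ ∈ ψ.support, (if C₀ = pre C k then
        M.weight k.1 k.2.1 (C.state, C.tape (C.head - k.2.2.delta), k.2.2) * ψ C₀ else 0)
      = ∑ C₀ ∈ ψ.support, ∑ k : Q × Γ × Move, (if C₀ = pre C k then
        M.weight k.1 k.2.1 (C.state, C.tape (C.head - k.2.2.delta), k.2.2) * ψ C₀ else 0) :=
    Finset.sum_comm
  rw [e1, Finset.sum_congr rfl (fun k _ => e2 k), e3]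
  refine Finset.sum_congr rfl fun C₀ _ => ?_
  rw [← Finset.sum_filter, ← Finset.sum_filter]
  refine Finset.sum_bij' (fun o _ => (C₀.state, C₀.tape C₀.head, o.2.2))
    (fun k _ => (C.state, C.tape C₀.head, k.2.2)) ?_ ?_ ?_ ?_ ?_
  · intro o ho
    have ho' : C₀.next o = C := (Finset.mem_filter.1 ho).2
    refine Finset.mem_filter.2 ⟨Finset.mem_univ _, ?_⟩
    subst ho'
    ext1
    · rfl
    · simp [pre, Config.next]
    · simp [pre, Config.next]
  · intro k hk
    have hk' : C₀ = pre C k := (Finset.mem_filter.1 hk).2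
    refine Finset.mem_filter.2 ⟨Finset.mem_univ _, ?_⟩
    subst hk'
    ext1
    · rfl
    · simp [pre, Config.next]
    · simp [pre, Config.next]
  · intro o ho
    have ho' : C₀.next o = C := (Finset.mem_filter.1 ho).2
    subst ho'
    simp [Config.next]
  · intro k hk
    have hk' : C₀ = pre C k := (Finset.mem_filter.1 hk).2
    subst hk'
    simp [pre]
  · intro o ho
    have ho' : C₀.next o = C := (Finset.mem_filter.1 ho).2
    subst ho'
    simp [Config.next]
    ring

end

end Pool.Agent.H524R2.QM
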