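import Pool.Agent.H524R2.Quantum

/-! # The acceptance probability of a quantum machine as a weight of closed computations (continued) -/

namespace Pool.Agent.H524R2.QM

open Finset Function Pool.Agent.H524R2 Polynomial G2

section

variable {A Q Γ : Type} [Fintype Q] [Fintype Γ]

/-- the opposite move -/
def rev : Move → Move
  | .left => .right
  | .stay => .stay
  | .right => .left

theorem delta_rev (d : Move) : (rev d).delta = - d.delta := by cases d <;> simp [rev, Move.delta]

open Classical in
/-- The machine which runs `M` forwards (counting the steps by the variable `X`), switches in an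
accepting state, and then runs backwards with conjugate amplitudes. -/
noncomputable def loop (M : Machine ℂ A Q Γ) : Machine ℂ[X] A (Q ⊕ (Q × Move)) Γ where
  start := Sum.inl M.start
  accepting := ∅
  blank := M.blank
  input := M.input
  weight s a o := match s, o.1 with
    | Sum.inl q, Sum.inl q' => X * C (M.weight q a (q', o.2.1, o.2.2))
    | Sum.inl q, Sum.inr (q', d) =>
      if q' = q ∧ q ∈ M.accepting ∧ o.2.1 = a ∧ o.2.2 = rev d then 1 else 0
    | Sum.inr (q, d), Sum.inr (q₀, d₀) =>
      if o.2.2 = rev d₀ then C (starRingEnd ℂ (M.weight q₀ o.2.1 (q, a, d))) else 0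
    | Sum.inr _, Sum.inl _ => 0

open Classical in
/-- the final weight by state and head position -/
noncomputable def lac (M : Machine ℂ A Q Γ) : Q ⊕ (Q × Move) → ℤ → ℂ[X] := fun s h =>
  if s = Sum.inr (M.start, Move.stay) ∧ h = 0 then 1 else 0

open Classical in
/-- the final weight -/
noncomputable def lΦ (M : Machine ℂ A Q Γ) (τ₀ : ℤ → Γ) :
    Q ⊕ (Q × Move) → ℤ → (ℤ → Γ) → ℂ[X] := fun s h τ =>
  lac M s h * if τ = τ₀ then 1 else 0

/-- the amplitudes after `t` steps, as a function -/
noncomputable def amp (M : Machine ℂ A Q Γ) (w : List A) (t : ℕ) (C : Config Q Γ) : ℂ :=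
  M.superposition t w C

theorem amp_succ (M : Machine ℂ A Q Γ) (w : List A) (t : ℕ) (C : Config Q Γ) :
    amp M w (t + 1) C = ∑ k : Q × Γ × Move,
      M.weight k.1 k.2.1 (C.state, C.tape (C.head - k.2.2.delta), k.2.2) * amp M w t (pre C k) := by
  unfold amp Machine.superposition
  rw [Function.iterate_succ_apply', evolve_apply]

/-- the value in the backward phase -/
noncomputable def back (M : Machine ℂ A Q Γ) (τ₀ : ℤ → Γ) (t : ℕ) (q : Q) (h : ℤ) (τ : ℤ → Γ) : ℂ[X] :=
  ∑ d : Move, gval (loop M) (lΦ M τ₀) t (Sum.inr (q, d)) (h - d.delta) τ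

theorem gval_back_succ (M : Machine ℂ A Q Γ) (τ₀ : ℤ → Γ) (t : ℕ) (q : Q) (d : Move) (h : ℤ)
    (τ : ℤ → Γ) :
    gval (loop M) (lΦ M τ₀) (t + 1) (Sum.inr (q, d)) h τ
      = ∑ p : Q × Γ, C (starRingEnd ℂ (M.weight p.1 p.2 (q, τ h, d))) *
          back M τ₀ t p.1 h (update τ h p.2) := by
  classical
  rw [gval, Fintype.sum_prod_type, Fintype.sum_sum_type]
  have h1 : ∑ q' : Q, ∑ y : Γ × Move, (loop M).weight (Sum.inr (q, d)) (τ h) (Sum.inl q', y) *
      gval (loop M) (lΦ M τ₀) t (Sum.inl q') (h + y.2.delta) (update τ h y.1) = 0 := by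
    refine Finset.sum_eq_zero fun q' _ => Finset.sum_eq_zero fun y _ => ?_
    simp [loop]
  rw [h1, zero_add, Fintype.sum_prod_type, Fintype.sum_prod_type]
  refine Finset.sum_congr rfl fun q₀ _ => ?_
  have h2 : ∀ d₀ : Move, ∑ y : Γ × Move, (loop M).weight (Sum.inr (q, d)) (τ h) (Sum.inr (q₀, d₀), y) *
      gval (loop M) (lΦ M τ₀) t (Sum.inr (q₀, d₀)) (h + y.2.delta) (update τ h y.1)
      = ∑ a₀ : Γ, C (starRingEnd ℂ (M.weight q₀ a₀ (q, τ h, d))) *
        gval (loop M) (lΦ M τ₀) t (Sum.inr (q₀, d₀)) (h - d₀.delta) (update τ h a₀) := by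
    intro d₀
    rw [Fintype.sum_prod_type]
    refine Finset.sum_congr rfl fun a₀ _ => ?_
    rw [Finset.sum_eq_single (rev d₀)]
    · simp only [loop, if_true, delta_rev]
      rw [sub_eq_add_neg]
    · intro y _ hy
      simp [loop, hy]
    · simp
  rw [Finset.sum_congr rfl (fun d₀ _ => h2 d₀), Finset.sum_comm]
  refine Finset.sum_congr rfl fun a₀ _ => ?_
  unfold back
  rw [Finset.mul_sum]

/-- The backward phase computes the conjugate amplitudes. -/
theorem back_eq (M : Machine ℂ A Q Γ) (w : List A) (t : ℕ) (q : Q) (h : ℤ) (τ : ℤ → Γ) :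
    back M (M.tape w) t q h τ = C (starRingEnd ℂ (amp M w t ⟨q, h, τ⟩)) := by
  classical
  induction t generalizing q h τ with
  | zero =>
    unfold back
    simp only [gval, lΦ, lac]
    have e1 : amp M w 0 ⟨q, h, τ⟩ = if q = M.start ∧ h = 0 ∧ τ = M.tape w then 1 else 0 := by
      unfold amp Machine.superposition
      rw [Function.iterate_zero, id, Finsupp.single_apply]
      have : (M.init w = ⟨q, h, τ⟩) ↔ (q = M.start ∧ h = 0 ∧ τ = M.tape w) := by
        unfold Machine.init
        constructor
        · intro hh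
          have h1 := congrArg Config.state hh
          have h2 := congrArg Config.head hh
          have h3 := congrArg Config.tape hh
          exact ⟨h1.symm, h2.symm, h3.symm⟩
        · rintro ⟨rfl, rfl, rfl⟩; rfl
      simp only [this]
    rw [e1, Finset.sum_eq_single Move.stay]
    · simp only [Move.delta, sub_zero]
      by_cases h1 : q = M.start <;> by_cases h2 : h = 0 <;> by_cases h3 : τ = M.tape w <;>
        simp [h1, h2, h3]
    · intro d _ hd
      simp [hd]
    · simp
  | succ t ih =>
    unfold back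
    simp only [gval_back_succ, ih]
    rw [amp_succ]
    simp only [map_sum, map_mul]
    rw [Fintype.sum_prod_type]
    simp only [Fintype.sum_prod_type, pre]
    -- both sides are sums over `q₀, a₀, d`
    rw [Finset.sum_comm]
    refine Finset.sum_congr rfl fun q₀ _ => ?_
    rw [Finset.sum_comm]

end

end Pool.Agent.H524R2.QM
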